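import Pool.Agent.Lib.MP_3b0e0c_al.LF
import Mathlib.GroupTheory.Solvable
import Mathlib.Tactic.Group

/-! Two radical arguments: real elements in binary metabelian groups, and the coset trick. -/

namespace Pool.Agent.Lib.MP_3b0e0c_al

open Subgroup
open scoped commutatorElement

variable {G : Type*} [Group G]

/-- All two-generator subgroups are metabelian. -/
def BM (G : Type*) [Group G] : Prop := ∀ a b : G,
  ⁅⁅closure ({a, b} : Set G), closure ({a, b} : Set G)⁆,
    ⁅closure ({a, b} : Set G), closure ({a, b} : Set G)⁆⁆ = ⊥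

lemma BM.comm (h : BM G) (a b : G) {p q u v : G} (hp : p ∈ closure ({a, b} : Set G))
    (hq : q ∈ closure ({a, b} : Set G)) (hu : u ∈ closure ({a, b} : Set G))
    (hv : v ∈ closure ({a, b} : Set G)) : Commute ⁅p, q⁆ ⁅u, v⁆ := by
  rw [← commutatorElement_eq_one_iff_commute, ← mem_bot, ← h a b]
  exact commutator_mem_commutator (commutator_mem_commutator hp hq)
    (commutator_mem_commutator hu hv)

lemma BM.real (hm : BM G) {g a : G} (ha : a * g * a⁻¹ = g⁻¹) {k : ℕ} (hg : g ^ (4 * k) = 1)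
    (h : G) : Commute (g ^ (2 * k)) (h * g ^ (2 * k) * h⁻¹) := by
  obtain ⟨f, hf⟩ : ∃ f, f = h * g * h⁻¹ := ⟨_, rfl⟩
  have g1 : g ∈ closure ({g, h} : Set G) := subset_closure (by simp)
  have h1 : h ∈ closure ({g, h} : Set G) := subset_closure (by simp)
  have f1 : f ∈ closure ({g, h} : Set G) := hf ▸ mul_mem (mul_mem h1 g1) (inv_mem h1)
  have g2 : g ∈ closure ({g, h * a} : Set G) := subset_closure (by simp)
  have h2 : h * a ∈ closure ({g, h * a} : Set G) := subset_closure (by simp)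
  have e2 : h * a * g⁻¹ * (h * a)⁻¹ = f := by
    rw [hf, show h * a * g⁻¹ * (h * a)⁻¹ = h * (a * g * a⁻¹)⁻¹ * h⁻¹ by group, ha, inv_inv]
  have f2 : f ∈ closure ({g, h * a} : Set G) :=
    e2 ▸ mul_mem (mul_mem h2 (inv_mem g2)) (inv_mem h2)
  have u1 : ⁅h, g⁆ = f * g⁻¹ := by rw [hf, commutatorElement_def]
  have u2 : ⁅h * a, g⁻¹⁆ = f * g := by rw [commutatorElement_def, e2, inv_inv]
  have c1 : Commute ⁅g, f⁆ (f * g⁻¹) := u1 ▸ hm.comm g h g1 f1 h1 g1
  have c2 : Commute ⁅g, f⁆ (f * g) := u2 ▸ hm.comm g (h * a) g2 f2 h2 (inv_mem g2)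
  have c3 : Commute ⁅g, f⁆ (g * g) := by
    have := c1.inv_right.mul_right c2
    rwa [show (f * g⁻¹)⁻¹ * (f * g) = g * g by group] at this
  have c4 : Commute ⁅g, f⁆ (g * ⁅g, f⁆ * g⁻¹) := by
    rw [conjugate_commutatorElement]
    exact hm.comm g h g1 f1 (mul_mem (mul_mem g1 g1) (inv_mem g1))
      (mul_mem (mul_mem g1 f1) (inv_mem g1))
  have c5 : Commute ⁅g * g, f⁆ (f * g⁻¹) := u1 ▸ hm.comm g h (mul_mem g1 g1) f1 h1 g1
  have ey : ⁅g * g, f⁆ = g * ⁅g, f⁆ * g⁻¹ * ⁅g, f⁆ := by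
    simp only [commutatorElement_def]; group
  have c6 : Commute ⁅g * g, f⁆ g := by
    rw [ey]
    generalize ⁅g, f⁆ = z at c3 c4
    calc g * z * g⁻¹ * z * g = z * (g * z * g⁻¹) * g := by rw [c4.eq]
      _ = z * (g * g) * (g⁻¹ * z) := by group
      _ = g * (g * z * g⁻¹ * z) := by rw [c3.eq]; group
  have c7 : Commute ⁅g * g, f⁆ f := by
    have := c5.mul_right c6
    rwa [inv_mul_cancel_right] at this
  generalize hy : ⁅g * g, f⁆ = y at c6 c7
  have e3 : ∀ j : ℕ, g ^ (2 * j) * f = y ^ j * f * g ^ (2 * j) := by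
    intro j
    induction j with
    | zero => simp
    | succ j ih =>
      have e4 : g * g * f = y * f * (g * g) := by rw [← hy, commutatorElement_def]; group
      calc g ^ (2 * (j + 1)) * f = g ^ (2 * j) * (g * g * f) := by group
        _ = g ^ (2 * j) * y * f * (g * g) := by rw [e4]; group
        _ = y * (g ^ (2 * j) * f) * (g * g) := by rw [← (c6.pow_right (2 * j)).eq]; group
        _ = _ := by rw [ih]; group
  have e5 : (y ^ k) ^ 2 = 1 := by
    have := e3 (2 * k)
    rw [show 2 * (2 * k) = 4 * k by ring, hg, one_mul, mul_one, eq_comm, mul_eq_right] at this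
    rw [← pow_mul, mul_comm, this]
  have e6 : g ^ (2 * k) * f * (g ^ (2 * k))⁻¹ = y ^ k * f := by rw [e3]; group
  rw [← conj_pow, ← hf]
  have e7 : g ^ (2 * k) * f ^ (2 * k) * (g ^ (2 * k))⁻¹ = f ^ (2 * k) := by
    rw [← conj_pow, e6, (c7.pow_left k).mul_pow, pow_mul (y ^ k), e5, one_pow, one_mul]
  exact mul_inv_eq_iff_eq_mul.1 e7

/-- Modulo the radical there is no nontrivial locally finite normal subgroup. -/
lemma quot_triv {N : Subgroup (G ⧸ rad G)} [N.Normal] (h : LF N) {z : G ⧸ rad G} (hz : z ∈ N) :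
    z = 1 := by
  have hk : LF (QuotientGroup.mk' (rad G)).ker := by rw [QuotientGroup.ker_mk']; exact LF_rad
  obtain ⟨y, rfl⟩ := QuotientGroup.mk'_surjective _ z
  exact (QuotientGroup.eq_one_iff y).2 ⟨_, inferInstance, LF.comap _ hk h, hz⟩

lemma tors (h2 : IsPGroup 2 G) : IsMulTorsion G := fun u => (h2 u).elim fun _ hk =>
  isOfFinOrder_iff_pow_eq_one.2 ⟨_, by positivity, hk⟩

lemma descend {u : G} {c : ℕ} (h : ∀ j, u ^ (2 * (c * j)) = 1 → u ^ (c * j) = 1) {k : ℕ}
    (hk : u ^ 2 ^ k = 1) : u ^ c = 1 := by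
  have : ∀ m, u ^ (c * 2 ^ m) = 1 → u ^ c = 1 := by
    intro m
    induction m with
    | zero => simp
    | succ m ih => exact fun e => ih (h _ (by rw [← e]; congr 1; ring))
  exact this k (by rw [mul_comm, pow_mul, hk, one_pow])

theorem LF_of_BM (h2 : IsPGroup 2 G) (hm : BM G) : LF (⊤ : Subgroup G) := by
  have hq := h2.to_quotient (rad G)
  have hm' : BM (G ⧸ rad G) := by
    intro a b
    obtain ⟨a, rfl⟩ := QuotientGroup.mk'_surjective _ a
    obtain ⟨b, rfl⟩ := QuotientGroup.mk'_surjective _ b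
    have := congrArg (Subgroup.map (QuotientGroup.mk' (rad G))) (hm a b)
    rwa [map_commutator, map_commutator, MonoidHom.map_closure, Set.image_pair,
      Subgroup.map_bot] at this
  have triv : ∀ z : G ⧸ rad G, (∀ g, Commute z (g * z * g⁻¹)) → z = 1 := fun z hz =>
    quot_triv (LF_normalClosure (tors hq) hz) (subset_normalClosure rfl)
  have inv : ∀ a : G ⧸ rad G, a ^ 2 = 1 → a = 1 := by
    intro a ha
    refine triv a fun h => ?_
    obtain ⟨b, hb⟩ : ∃ b, b = h * a * h⁻¹ := ⟨_, rfl⟩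
    have a1 : a⁻¹ = a := inv_eq_of_mul_eq_one_right (by rw [← ha, pow_two])
    have b1 : b⁻¹ = b := by rw [hb, mul_inv_rev, mul_inv_rev, inv_inv, a1, mul_assoc]
    obtain ⟨k, hk⟩ := hq (a * b)
    have := descend (c := 2) (fun j e => triv _ (hm'.real (a := a) (by
      rw [mul_inv_rev, b1, ← mul_assoc, ← pow_two, ha, one_mul])
      (by rw [← e]; congr 1; ring))) hk
    rw [← hb, ← commutatorElement_eq_one_iff_commute, commutatorElement_def, a1, b1, ← this,
      pow_two, mul_assoc]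
  have all : ∀ u : G ⧸ rad G, u = 1 := fun u => by
    obtain ⟨k, hk⟩ := hq u
    simpa using descend (c := 1) (fun j e => inv _ (by rw [← pow_mul, mul_comm, e])) hk
  exact LF_rad.mono fun y _ => (QuotientGroup.eq_one_iff y).1 (all _)

/-- The coset trick. -/
lemma LF_coset (ht : IsMulTorsion G) {s : G} (hs : s ^ 2 = 1)
    (h : ∀ g : G, Commute ⁅s, g * s * g⁻¹⁆ g) : LF (normalClosure {s}) := by
  have s1 : s⁻¹ = s := inv_eq_of_mul_eq_one_right (by rw [← hs, pow_two])
  have key : ∀ g c : G, Commute s c → Commute s (g * s * g⁻¹ * c * (g * s * g⁻¹)⁻¹) := by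
    intro g c hc
    have a1 := h (g * c)
    rw [show g * c * s * (g * c)⁻¹ = g * (c * s) * c⁻¹ * g⁻¹ by group, ← hc.eq,
      show g * (s * c) * c⁻¹ * g⁻¹ = g * s * g⁻¹ by group] at a1
    have a2 := (h g).inv_right.mul_right a1
    rw [inv_mul_cancel_left] at a2
    have a3 := hc.inv_left.mul_left a2
    obtain ⟨r, hr⟩ : ∃ r, r = g * s * g⁻¹ := ⟨_, rfl⟩
    have r1 : r⁻¹ = r := by rw [hr, mul_inv_rev, mul_inv_rev, inv_inv, s1, mul_assoc]
    rw [← hr, commutatorElement_def, show s⁻¹ * (s * r * s⁻¹ * r⁻¹) = r * s⁻¹ * r⁻¹ by group,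
      s1] at a3
    have a4 := a3.conj r⁻¹
    rwa [show r⁻¹ * (r * s * r⁻¹) * r⁻¹⁻¹ = s by group, r1, hr] at a4
  have k2 : ∀ n ∈ normalClosure ({s} : Set G), ∀ c, Commute s c →
      Commute s (n * c * n⁻¹) ∧ Commute s (n⁻¹ * c * n) := by
    intro n hn
    induction hn using closure_induction with
    | mem x hx =>
      obtain ⟨z, h1, hx⟩ := Group.mem_conjugatesOfSet_iff.1 hx
      rw [Set.mem_singleton_iff.1 h1] at hx
      obtain ⟨g, rfl⟩ := isConj_iff.1 hx
      have r1 : (g * s * g⁻¹)⁻¹ = g * s * g⁻¹ := by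
        rw [mul_inv_rev, mul_inv_rev, inv_inv, s1, mul_assoc]
      refine fun c hc => ⟨key g c hc, ?_⟩
      have := key g c hc
      rwa [r1] at this ⊢
    | one => exact fun c hc => by simpa using hc
    | mul x y _ _ hx hy =>
      refine fun c hc => ⟨?_, ?_⟩
      · simpa only [mul_inv_rev, mul_assoc] using (hx _ (hy c hc).1).1
      · simpa only [mul_inv_rev, mul_assoc] using (hy _ (hx c hc).2).2
    | inv x _ hx => exact fun c hc => ⟨by simpa using (hx c hc).2, by simpa using (hx c hc).1⟩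
  have k3 : ∀ n (hn : n ∈ normalClosure ({s} : Set G)),
      (⟨n, hn⟩ : normalClosure ({s} : Set G)) ∈ rad (normalClosure ({s} : Set G)) := by
    intro n hn
    induction hn using closure_induction with
    | mem x hx =>
      refine ⟨_, inferInstance, LF_normalClosure (ht.subgroup _) fun n => Subtype.ext ?_,
        subset_normalClosure rfl⟩
      obtain ⟨z, h1, hx⟩ := Group.mem_conjugatesOfSet_iff.1 hx
      rw [Set.mem_singleton_iff.1 h1] at hx
      obtain ⟨g, rfl⟩ := isConj_iff.1 hx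
      have := ((k2 _ (normalClosure_normal.conj_mem _ n.2 g⁻¹) s (Commute.refl s)).1.conj g).eq
      simp only [coe_mul, coe_inv]
      calc _ = g * s * g⁻¹ * (g * (g⁻¹ * n * g⁻¹⁻¹ * s * (g⁻¹ * n * g⁻¹⁻¹)⁻¹) * g⁻¹) := by group
        _ = _ := by rw [this]; group
    | one => exact one_mem _
    | mul x y _ _ hx hy => exact mul_mem hx hy
    | inv x _ hx => exact inv_mem hx
  exact (LF_rad.map (normalClosure {s}).subtype).mono fun n hn => ⟨_, k3 n hn, rfl⟩

end Pool.Agent.Lib.MP_3b0e0c_al
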