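import Pool.Agent.Lib.MP_3b0e0c_al.Mag
import Mathlib.Algebra.BigOperators.Intervals
import Mathlib.Algebra.Order.BigOperators.Ring.Finset
import Mathlib.Tactic.Positivity
import Mathlib.Data.List.GetD
import Mathlib.RingTheory.Coprime.Lemmas

/-! Computing with truncated Magnus series through unitriangular integer matrices. -/

namespace Pool.Agent.Lib.MP_3b0e0c_al

open Subgroup Finset
open scoped commutatorElement

/-- Weighted sum of the coefficients in one degree. -/
def E : List ℤ → V → ℤ
  | [], f => f []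
  | b :: o, f => E o (fun s => f (false :: s)) + b * E o fun s => f (true :: s)

/-- The `ℓ¹` norm of the coefficients in one degree. -/
def Nn : ℕ → V → ℤ
  | 0, f => |f []|
  | k + 1, f => Nn k (fun s => f (false :: s)) + Nn k fun s => f (true :: s)

lemma E_lin (a : ℤ) (o : List ℤ) : ∀ f g : V,
    E o (fun s => a * g s + f s) = a * E o g + E o f := by
  induction o with
  | nil => intros; rfl
  | cons b o ih => intro f g; simp only [E, ih]; ring

lemma E_conv (o : List ℤ) : ∀ f g : V, E o (fun w => conv g w f) =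
    ∑ j ∈ range (o.length + 1), E (o.take j) f * E (o.drop j) g := by
  induction o with
  | nil => intro f g; simp [E, conv]
  | cons b o ih =>
    intro f g
    rw [List.length_cons, sum_range_succ']
    simp only [E, conv, E_lin, ih, List.take_succ_cons, List.drop_succ_cons, List.take_zero,
      List.drop_zero, add_mul, sum_add_distrib, mul_assoc, ← mul_sum]
    ring

lemma E_smul (e : ℤ) (o : List ℤ) : ∀ f g : V, (∀ w : W, w.length = o.length → g w = e * f w) →
    E o g = e * E o f := by
  induction o with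
  | nil => exact fun f g h => h [] rfl
  | cons b o ih =>
    intro f g h
    rw [E, E, ih _ _ fun w hw => h (false :: w) (by simp [hw]),
      ih _ _ fun w hw => h (true :: w) (by simp [hw])]
    ring

lemma Nn_nonneg (k : ℕ) : ∀ f : V, 0 ≤ Nn k f := by
  induction k with
  | zero => exact fun f => abs_nonneg _
  | succ k ih => exact fun f => add_nonneg (ih _) (ih _)

lemma Nn_lin (a : ℤ) (k : ℕ) : ∀ f g : V,
    Nn k (fun s => a * g s + f s) ≤ |a| * Nn k g + Nn k f := by
  induction k with
  | zero => intro f g; simp only [Nn, ← abs_mul]; exact abs_add_le _ _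
  | succ k ih =>
    intro f g
    have h1 := ih (fun s => f (false :: s)) fun s => g (false :: s)
    have h2 := ih (fun s => f (true :: s)) fun s => g (true :: s)
    simp only [Nn]; linarith

lemma Nn_conv (k : ℕ) : ∀ f g : V, Nn k (fun w => conv g w f) ≤
    ∑ j ∈ range (k + 1), Nn j f * Nn (k - j) g := by
  induction k with
  | zero => intro f g; simp [Nn, conv, abs_mul]
  | succ k ih =>
    intro f g
    rw [sum_range_succ']
    have h := fun x => (Nn_lin (f []) k (fun w => conv g w fun s => f (x :: s))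
      fun s => g (x :: s)).trans (add_le_add_right (ih _ g) _)
    have h1 := h false
    have h2 := h true
    simp only [Nn, conv, Nat.add_sub_add_right, Nat.sub_zero, add_mul, sum_add_distrib]
    linarith

lemma Nn_smul (e : ℤ) (k : ℕ) : ∀ f g : V, (∀ w : W, w.length = k → g w = e * f w) →
    Nn k g = |e| * Nn k f := by
  induction k with
  | zero => intro f g h; rw [Nn, Nn, h [] rfl, abs_mul]
  | succ k ih =>
    intro f g h
    rw [Nn, Nn, ih _ _ fun w hw => h (false :: w) (by simp [hw]),
      ih _ _ fun w hw => h (true :: w) (by simp [hw])]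
    ring

lemma abs_le_Nn (w : W) : ∀ f : V, |f w| ≤ Nn w.length f := by
  induction w with
  | nil => exact fun f => le_rfl
  | cons x w ih =>
    intro f
    have := ih fun s => f (x :: s)
    have h1 := Nn_nonneg w.length fun s => f (false :: s)
    have h2 := Nn_nonneg w.length fun s => f (true :: s)
    cases x <;> simp only [Nn, List.length_cons] <;> linarith

/-- Kronecker weights. -/
def om (B : ℤ) : ℕ → List ℤ
  | 0 => []
  | k + 1 => B ^ 2 ^ k :: om B k

lemma om_length (B : ℤ) (k : ℕ) : (om B k).length = k := by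
  induction k with
  | zero => rfl
  | succ k ih => simp [om, ih]

lemma om_drop (B : ℤ) (k i : ℕ) : (om B (k + i)).drop i = om B k := by
  induction i with
  | zero => rfl
  | succ i ih => exact ih

lemma E_bound {B : ℤ} (hB : 0 < B) (k : ℕ) : ∀ f : V,
    |E (om B k) f| * B ≤ Nn k f * B ^ 2 ^ k := by
  induction k with
  | zero => intro f; simp [om, E, Nn]
  | succ k ih =>
    intro f
    have h1 := ih fun s => f (false :: s)
    have h2 := ih fun s => f (true :: s)
    have h3 := Nn_nonneg k fun s => f (false :: s)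
    have h4 : (1 : ℤ) ≤ B ^ 2 ^ k := one_le_pow₀ hB
    rw [om, E, Nn, pow_succ 2, pow_mul, sq]
    set β := B ^ 2 ^ k
    calc _ ≤ (|E (om B k) fun s => f (false :: s)| + β * |E (om B k) fun s => f (true :: s)|) * B :=
          mul_le_mul_of_nonneg_right ((abs_add_le _ _).trans (by
            rw [abs_mul, abs_of_pos (by omega : 0 < β)])) hB.le
      _ ≤ _ := by
          nlinarith [mul_le_mul_of_nonneg_left h2 (by omega : 0 ≤ β),
            mul_le_mul_of_nonneg_left h4 (mul_nonneg h3 (by omega : 0 ≤ β))]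

lemma E_lt {B : ℤ} (k : ℕ) (f : V) (c : ℤ) (hc : 0 ≤ c) (h : c * Nn k f < B) :
    c * |E (om B k) f| < B ^ 2 ^ k := by
  have hB : 0 < B := (mul_nonneg hc (Nn_nonneg k f)).trans_lt h
  have h4 : (0 : ℤ) < B ^ 2 ^ k := by positivity
  refine lt_of_mul_lt_mul_right ?_ hB.le
  nlinarith [mul_le_mul_of_nonneg_left (E_bound hB k f) hc]

lemma decode_zero {B : ℤ} (k : ℕ) : ∀ f : V, Nn k f < B → E (om B k) f = 0 → Nn k f ≤ 0 := by
  induction k with
  | zero => intro f _ h; exact (abs_eq_zero.2 h).le
  | succ k ih =>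
    intro f hb h
    have h1 := Nn_nonneg k fun s => f (false :: s)
    have h2 := Nn_nonneg k fun s => f (true :: s)
    rw [Nn] at hb ⊢
    rw [om, E] at h
    have h3 := E_lt (B := B) k (fun s => f (false :: s)) 1 zero_le_one (by linarith)
    have h5 : E (om B k) (fun s => f (true :: s)) = 0 := by
      by_contra hne
      rw [eq_neg_of_add_eq_zero_left h, abs_neg, abs_mul] at h3
      nlinarith [Int.one_le_abs hne, le_abs_self (B ^ 2 ^ k), abs_nonneg (B ^ 2 ^ k)]
    rw [h5, mul_zero, add_zero] at h
    linarith [ih _ (by linarith) h, ih _ (by linarith) h5]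

/-- `c • r + a`. -/
noncomputable def axpy (c : ℤ) (r : List ℤ) : List ℤ → List ℤ :=
  List.rec (fun a => a) (fun x _ ih a =>
    List.rec (Int.mul c x :: ih []) (fun y a _ => Int.add (Int.mul c x) y :: ih a) a) r

lemma axpy_get (c : ℤ) (r : List ℤ) : ∀ (a : List ℤ) (k : ℕ),
    (axpy c r a).getD k 0 = c * r.getD k 0 + a.getD k 0 := by
  induction r with
  | nil => intro a k; simp [axpy]
  | cons x r ih =>
    intro a k
    cases a with
    | nil =>
      change (c * x :: axpy c r []).getD k 0 = _
      cases k with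
      | zero => simp
      | succ k => rw [List.getD_cons_succ, ih]; simp
    | cons y a =>
      change ((c * x + y) :: axpy c r a).getD k 0 = _
      cases k with
      | zero => simp
      | succ k => rw [List.getD_cons_succ, ih]; simp

/-- Case distinction on `c = 0`. -/
noncomputable def ifz {α : Type} (c : ℤ) (a b : α) : α :=
  Int.rec (fun n => Nat.rec a (fun _ _ => b) n) (fun _ => b) c

lemma ifz_eq {α : Type} (c : ℤ) (a b : α) : ifz c a b = if c = 0 then a else b := by
  rcases c with (_ | n) | n <;> rfl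

/-- Row times matrix. -/
noncomputable def rowmul (a : List ℤ) : List (List ℤ) → List ℤ :=
  List.rec (fun _ => []) (fun c _ ih M =>
    List.rec [] (fun r M _ => ifz c (0 :: ih M) (axpy c r (0 :: ih M))) M) a

lemma rowmul_get (a : List ℤ) : ∀ (M : List (List ℤ)) (k : ℕ), (rowmul a M).getD k 0 =
    ∑ j ∈ range (k + 1), a.getD j 0 * (M.getD j []).getD (k - j) 0 := by
  induction a with
  | nil => intro M k; simp [rowmul]
  | cons c a ih =>
    intro M k
    cases M with
    | nil => simp [rowmul]
    | cons r M =>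
      change (ifz c (0 :: rowmul a M) (axpy c r (0 :: rowmul a M))).getD k 0 = _
      have h : (ifz c (0 :: rowmul a M) (axpy c r (0 :: rowmul a M))).getD k 0 =
          c * r.getD k 0 + (0 :: rowmul a M).getD k 0 := by
        rw [ifz_eq]; split_ifs with h
        · rw [h, zero_mul, zero_add]
        · rw [axpy_get]
      rw [h, sum_range_succ', add_comm]
      cases k with
      | zero => simp
      | succ k => rw [List.getD_cons_succ, ih]; simp

/-- Matrix product. -/
noncomputable def mm (M : List (List ℤ)) : List (List ℤ) → List (List ℤ) :=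
  List.rec (fun _ => []) (fun a _ ih N => rowmul a N :: ih N.tail) M

lemma mm_get (M : List (List ℤ)) : ∀ (N : List (List ℤ)) (i : ℕ),
    (mm M N).getD i [] = rowmul (M.getD i []) (N.drop i) := by
  induction M with
  | nil => intro N i; simp [mm, rowmul]
  | cons a M ih =>
    intro N i
    change (rowmul a N :: mm M N.tail).getD i [] = _
    cases i with
    | zero => simp
    | succ i => rw [List.getD_cons_succ, ih]; simp

/-- An entry of a straight-line program. -/
structure Ent where
  M : List (List ℤ)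
  b : List ℤ

/-- The entry `e` describes the group element `u`. -/
structure Good (B : ℤ) (C : ℕ) (e : Ent) (u : F) : Prop where
  M : ∀ i k, i + k ≤ C → (e.M.getD i []).getD k 0 = E (((om B C).drop i).take k) (ser u)
  b : ∀ k ≤ C, Nn k (ser u) ≤ e.b.getD k 0

variable {B : ℤ} {C : ℕ}

/-- Product of entries. -/
noncomputable def mulE (C : ℕ) (e e' : Ent) : Ent :=
  ⟨mm e.M e'.M, (rowmul e.b (List.replicate (C + 1) e'.b)).take (C + 1)⟩

lemma Good.mul {e e' : Ent} {u v : F} (h : Good B C e u) (h' : Good B C e' v) :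
    Good B C (mulE C e e') (u * v) where
  M i k hk := by
    have hl : (((om B C).drop i).take k).length = k := by simp [om_length]; omega
    rw [mulE, mm_get, rowmul_get, funext (ser_mul u v), E_conv, hl]
    refine sum_congr rfl fun j hj => ?_
    have hj' : j ≤ k := by simpa [Nat.lt_succ_iff] using hj
    rw [h.M i j (by omega), List.take_take, min_eq_left hj', List.drop_take, List.drop_drop,
      ← h'.M (i + j) (k - j) (by omega)]
    simp
  b k hk := by
    have : (mulE C e e').b.getD k 0 = (rowmul e.b (List.replicate (C + 1) e'.b)).getD k 0 := by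
      simp [mulE, Nat.lt_succ_of_le hk]
    rw [this, rowmul_get, funext (ser_mul u v)]
    refine (Nn_conv k _ _).trans (sum_le_sum fun j hj => ?_)
    have hj' : j ≤ k := by simpa [Nat.lt_succ_iff] using hj
    have : (List.replicate (C + 1) e'.b).getD j [] = e'.b := by
      simp [show j < C + 1 by omega]
    rw [this]
    exact mul_le_mul (h.b j (by omega)) (h'.b _ (by omega)) (Nn_nonneg _ _)
      ((Nn_nonneg _ _).trans (h.b j (by omega)))

/-- Weight of a letter. -/
def wt (x : Bool) (b : ℤ) : ℤ := if x then b else 1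

/-- Matrix entries of a generator or its inverse. -/
def eg (x : Bool) : Bool → List ℤ → ℤ
  | _, [] => 1
  | true, [b] => wt x b
  | true, _ :: _ :: _ => 0
  | false, b :: o => -wt x b * eg x false o

/-- A generator or its inverse. -/
def gl (a : Bool × Bool) : F := if a.2 then .of a.1 else (FreeGroup.of a.1)⁻¹

lemma ser_gl_nil (a : Bool × Bool) : ser (gl a) [] = 1 := ser_nil _

lemma ser_gl_cons (x s y : Bool) : (fun w => ser (gl (x, s)) (y :: w)) =
    fun w => (if y = x then (if s then 1 else -1) else 0) * (if s then dl else ser (gl (x, s))) w := by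
  ext w
  cases s
  · change ser (FreeGroup.of x)⁻¹ _ = _ * ser (FreeGroup.of x)⁻¹ _
    rw [ser, mu_inv_of]
    change Sf x dl _ = _ * Sf x dl _
    by_cases h : y = x <;> simp [Sf, h, dl]
  · change ser (.of x) _ = _
    by_cases h : y = x <;> simp [ser, mu_of, h, dl]

lemma E_dl (o : List ℤ) : E o dl = if o = [] then 1 else 0 := by
  cases o with
  | nil => rfl
  | cons b o => rw [E_smul 0 _ dl dl fun w hw => by cases w <;> simp_all [dl]]; simp

lemma Nn_dl (k : ℕ) : Nn k dl ≤ 1 := by
  cases k with
  | zero => simp [Nn, dl]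
  | succ k => rw [Nn_smul 0 _ dl dl fun w hw => by cases w <;> simp_all [dl]]; simp

lemma E_gl (x s : Bool) (o : List ℤ) : E o (ser (gl (x, s))) = eg x s o := by
  induction o with
  | nil => cases s <;> simp [E, eg, ser_nil]
  | cons b o ih =>
    rw [E, ser_gl_cons, ser_gl_cons, E_smul _ o _ _ fun _ _ => rfl, E_smul _ o _ _ fun _ _ => rfl]
    cases s
    · cases x <;> simp [ih, eg, wt]
    · cases x <;> cases o <;> simp [E_dl, eg, wt]

lemma Nn_gl (x s : Bool) (k : ℕ) : Nn k (ser (gl (x, s))) ≤ 1 := by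
  induction k with
  | zero => simp [Nn, ser_nil]
  | succ k ih =>
    rw [Nn, ser_gl_cons, ser_gl_cons, Nn_smul _ k _ _ fun _ _ => rfl,
      Nn_smul _ k _ _ fun _ _ => rfl]
    cases s <;> cases x <;> simp [ih, Nn_dl]

/-- The entry of a letter. -/
def genE (B : ℤ) (C : ℕ) (a : Bool × Bool) : Ent :=
  ⟨(List.range (C + 1)).map fun i => (List.range (C + 1 - i)).map fun k =>
    eg a.1 a.2 (((om B C).drop i).take k), List.replicate (C + 1) 1⟩

lemma good_gen (a : Bool × Bool) : Good B C (genE B C a) (gl a) where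
  M i k hk := by
    rw [E_gl]
    simp [genE, show i < C + 1 by omega, show k < C + 1 - i by omega]
  b k hk := by simpa [genE, List.getElem?_replicate, show k < C + 1 by omega] using Nn_gl _ _ k

/-- Reset the bounds in the degrees that vanish. -/
noncomputable def clean (B : ℤ) (C : ℕ) (e : Ent) : Ent :=
  ⟨e.M, (List.range (C + 1)).map fun k =>
    ifz ((e.M.getD (C - k) []).getD k 0) (if e.b.getD k 0 < B then 0 else e.b.getD k 0)
      (e.b.getD k 0)⟩

lemma Good.last {e : Ent} {u : F} (h : Good B C e u) {k : ℕ} (hk : k ≤ C) :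
    (e.M.getD (C - k) []).getD k 0 = E (om B k) (ser u) := by
  obtain ⟨i, rfl⟩ := Nat.exists_eq_add_of_le hk
  rw [h.M _ _ (by omega), Nat.add_sub_cancel_left, om_drop, List.take_of_length_le (om_length _ _).le]

lemma Good.clean {e : Ent} {u : F} (h : Good B C e u) : Good B C (clean B C e) u where
  M := h.M
  b k hk := by
    have : (MP_3b0e0c_al.clean B C e).b.getD k 0 = ifz ((e.M.getD (C - k) []).getD k 0)
        (if e.b.getD k 0 < B then 0 else e.b.getD k 0) (e.b.getD k 0) := by
      simp [MP_3b0e0c_al.clean, show k < C + 1 by omega]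
    rw [this, ifz_eq]
    split_ifs with h1 h2
    · exact decode_zero k _ ((h.b k hk).trans_lt h2) (h.last hk ▸ h1)
    · exact h.b k hk
    · exact h.b k hk

/-- The degrees `1, …, K - 1` vanish. -/
def high (K : ℕ) (e : Ent) : Bool :=
  (List.range K).all fun k => decide (k = 0) || decide (e.b.getD k 0 ≤ 0)

lemma Good.high {e : Ent} {u : F} (h : Good B C e u) {K : ℕ} (hK : K ≤ C + 1)
    (ok : high K e = true) : u ∈ D K := by
  refine mem_D fun w h0 hw => ?_
  simp only [MP_3b0e0c_al.high, List.all_eq_true, List.mem_range, Bool.or_eq_true,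
    decide_eq_true_eq] at ok
  have := (abs_le_Nn w _).trans ((h.b _ (by omega)).trans
    ((ok _ hw).resolve_left (by simpa using h0)))
  exact abs_nonpos_iff.1 this

/-- Scale all entries but the first. -/
def sc (n : ℤ) : List ℤ → List ℤ
  | [] => []
  | c :: r => c :: r.map (Int.mul n)

lemma sc_get (n : ℤ) (r : List ℤ) (k : ℕ) :
    (sc n r).getD k 0 = (if k = 0 then 1 else n) * r.getD k 0 := by
  cases r with
  | nil => simp [sc]
  | cons c r =>
    cases k with
    | zero => simp [sc]
    | succ k =>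
      simp only [sc, List.getD_cons_succ, Nat.succ_ne_zero, if_false]
      exact (congrArg _ (mul_zero n).symm).trans (List.getD_map r 0 (Int.mul n))

/-- Power of an element deep in the filtration. -/
def pwE (n : ℤ) (e : Ent) : Ent := ⟨e.M.map (sc n), sc |n| e.b⟩

lemma Good.pw {e : Ent} {u : F} (h : Good B C e u) {K : ℕ} (hK : C < K + K) (hu : u ∈ D K)
    (n : ℤ) : Good B C (pwE n e) (u ^ n) := by
  have key : ∀ k ≤ C, ∀ w : W, w.length = k →
      ser (u ^ n) w = (if k = 0 then 1 else n) * ser u w := by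
    intro k hk w hw
    split_ifs with h0
    · rw [List.length_eq_zero_iff.1 (hw.trans h0), ser_nil, ser_nil, one_mul]
    · exact ser_zpow hu (by rintro rfl; exact h0 hw.symm) (by omega) n
  refine ⟨fun i k hk => ?_, fun k hk => ?_⟩
  · have hl : (((om B C).drop i).take k).length = k := by simp [om_length]; omega
    rw [E_smul _ _ _ _ fun w hw => key k (by omega) w (hw.trans hl), ← h.M i k hk, ← sc_get]
    exact congrArg (List.getD · k 0) (List.getD_map e.M [] (sc n))
  · rw [Nn_smul _ _ _ _ (key k hk), pwE, sc_get]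
    have := h.b k hk
    split_ifs
    · simpa using this
    · exact mul_le_mul_of_nonneg_left this (abs_nonneg n)

/-- Evaluate a list of integers before continuing. -/
noncomputable def fL (l : List ℤ) : (List ℤ → Bool) → Bool :=
  List.rec (fun k => k []) (fun c _ ih k =>
    Int.rec (fun a => Nat.rec (ih fun l => k (Int.ofNat 0 :: l))
        (fun p _ => ih fun l => k (Int.ofNat (Nat.succ p) :: l)) a)
      (fun a => Nat.rec (ih fun l => k (Int.negSucc 0 :: l))
        (fun p _ => ih fun l => k (Int.negSucc (Nat.succ p) :: l)) a) c) l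

lemma fL_eq (l : List ℤ) : ∀ k, fL l k = k l := by
  induction l with
  | nil => intro k; rfl
  | cons c l ih => intro k; rcases c with (_ | p) | (_ | p) <;> exact ih _

/-- Evaluate a matrix before continuing. -/
noncomputable def fM (M : List (List ℤ)) : (List (List ℤ) → Bool) → Bool :=
  List.rec (fun k => k []) (fun r _ ih k => fL r fun r => ih fun M => k (r :: M)) M

lemma fM_eq (M : List (List ℤ)) : ∀ k, fM M k = k M := by
  induction M with
  | nil => intro k; rfl
  | cons r M ih => intro k; exact (fL_eq _ _).trans (ih _)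

/-- Evaluate and clean an entry before continuing. -/
noncomputable def fE (B : ℤ) (C : ℕ) (e : Ent) (k : Ent → Bool) : Bool :=
  fM e.M fun M => fL e.b fun b => fL (clean B C ⟨M, b⟩).b fun b => k ⟨M, b⟩

lemma Good.fE {e : Ent} {u : F} (h : Good B C e u) {k : Ent → Bool} (ok : fE B C e k = true) :
    ∃ e', Good B C e' u ∧ k e' = true := by
  rw [MP_3b0e0c_al.fE, fM_eq, fL_eq, fL_eq] at ok
  exact ⟨_, h.clean, ok⟩

/-- The value of a word. -/
def gw : List (Bool × Bool) → F
  | [] => 1
  | a :: w => gl a * gw w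

/-- The inverse word. -/
def iw : List (Bool × Bool) → List (Bool × Bool)
  | [] => []
  | a :: w => iw w ++ [(a.1, !a.2)]

lemma gw_append (v w : List (Bool × Bool)) : gw (v ++ w) = gw v * gw w := by
  induction v with
  | nil => simp [gw]
  | cons a v ih => simp [gw, ih, mul_assoc]

lemma gl_not (x s : Bool) : gl (x, !s) = (gl (x, s))⁻¹ := by cases s <;> simp [gl]

lemma gw_iw (w : List (Bool × Bool)) : gw (iw w) = (gw w)⁻¹ := by
  induction w with
  | nil => simp [gw, iw]
  | cons a w ih => simp [gw, iw, gw_append, ih, gl_not]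

/-- A computation that passes an entry describing `u` to its continuation. -/
def Cmp (B : ℤ) (C : ℕ) (c : (Ent → Bool) → Bool) (u : F) : Prop :=
  ∀ k, c k = true → ∃ e, Good B C e u ∧ k e = true

/-- Forced product. -/
noncomputable def mulK (B : ℤ) (C : ℕ) (e e' : Ent) : (Ent → Bool) → Bool := fE B C (mulE C e e')

lemma Good.mulK {e e' : Ent} {u v : F} (h : Good B C e u) (h' : Good B C e' v) :
    Cmp B C (mulK B C e e') (u * v) := fun _ => (h.mul h').fE

/-- The entry of a word. -/
noncomputable def wdK (B : ℤ) (C : ℕ) (g : Bool × Bool → Ent) :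
    List (Bool × Bool) → (Ent → Bool) → Bool
  | [], k => mulK B C (g (false, true)) (g (false, false)) k
  | [a], k => k (g a)
  | a :: b :: w, k => wdK B C g (b :: w) fun e => mulK B C (g a) e k

variable {g : Bool × Bool → Ent}

lemma cmp_wd (hg : ∀ a, Good B C (g a) (gl a)) : ∀ w, Cmp B C (wdK B C g w) (gw w)
  | [] => fun k ok => by simpa [gl, gw] using (hg (false, true)).mulK (hg (false, false)) k ok
  | [a] => fun k ok => ⟨_, by simpa [gw] using hg a, ok⟩
  | a :: b :: w => fun k ok => by
    obtain ⟨e, he, ok⟩ := cmp_wd hg (b :: w) _ ok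
    exact (hg a).mulK he k ok

/-- Repeated squaring. -/
noncomputable def sqK (B : ℤ) (C : ℕ) : ℕ → Ent → (Ent → Bool) → Bool
  | 0, e, k => k e
  | n + 1, e, k => mulK B C e e fun e => sqK B C n e k

lemma cmp_sq : ∀ (n : ℕ) {e : Ent} {u : F}, Good B C e u → Cmp B C (sqK B C n e) (u ^ 2 ^ n)
  | 0, e, u, h => fun k ok => ⟨e, by simpa using h, ok⟩
  | n + 1, e, u, h => fun k ok => by
    obtain ⟨e', he, ok⟩ := h.mulK h _ ok
    rw [pow_succ', pow_mul, sq]
    exact cmp_sq n he k ok

/-- The Engel word `[u, v, …, v]`. -/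
def engel {G : Type*} [Group G] (v : G) : ℕ → G → G
  | 0, u => u
  | n + 1, u => engel v n ⁅u, v⁆

/-- Computation of Engel words; `v'`, `c'` describe the inverses. -/
noncomputable def enK (B : ℤ) (C : ℕ) (v v' : Ent) : ℕ → Ent → Ent → (Ent → Bool) → Bool
  | 0, c, _, k => k c
  | n + 1, c, c', k => mulK B C c' v' fun t => mulK B C v t fun t => mulK B C c t fun d =>
      Nat.rec (k d) (fun _ _ => mulK B C c v' fun t => mulK B C v t fun t =>
        mulK B C t c' fun d' => enK B C v v' n d d' k) n

lemma cmp_en {v v' : Ent} {y : F} (hv : Good B C v y) (hv' : Good B C v' y⁻¹) :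
    ∀ (n : ℕ) {c c' : Ent} {u : F}, Good B C c u → Good B C c' u⁻¹ →
      Cmp B C (enK B C v v' n c c') (engel y n u)
  | 0, c, _, _, h, _ => fun k ok => ⟨c, h, ok⟩
  | n + 1, c, c', u, h, h' => fun k ok => by
    obtain ⟨t, ht, ok⟩ := h'.mulK hv' _ ok
    obtain ⟨t, ht, ok⟩ := hv.mulK ht _ ok
    obtain ⟨d, hd, ok⟩ := h.mulK ht _ ok
    rw [show u * (y * (u⁻¹ * y⁻¹)) = ⁅u, y⁆ by rw [commutatorElement_def]; group] at hd
    cases n with
    | zero => exact ⟨d, hd, ok⟩
    | succ n =>
      obtain ⟨t, ht, ok⟩ := h.mulK hv' _ ok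
      obtain ⟨t, ht, ok⟩ := hv.mulK ht _ ok
      obtain ⟨d', hd', ok⟩ := ht.mulK h' _ ok
      rw [show y * (u * y⁻¹) * u⁻¹ = ⁅u, y⁆⁻¹ by rw [commutatorElement_def]; group] at hd'
      exact cmp_en hv hv' (n + 1) hd hd' k ok

/-- Instructions. -/
inductive Op
  | tg
  | rel (w : List (Bool × Bool)) (n : ℕ)
  | eng (u v : List (Bool × Bool))
  | mul (i j : ℕ)
  | cj (i : ℕ) (x s : Bool)
  | pw (i : ℕ) (n : ℤ)

/-- Parameters of a program. -/
structure Par where
  B : ℤ
  C : ℕ
  K : ℕ
  tw : List (Bool × Bool)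
  al : List (Bool × Bool) → ℕ → Bool
  en : Bool

/-- One instruction. The integer attached to an entry is the exponent `d` with `π u = z ^ d`. -/
noncomputable def step (P : Par) (g : Bool × Bool → Ent) (st : List (Ent × ℤ))
    (k : Ent × ℤ → Bool) : Op → Bool
  | .tg => wdK P.B P.C g P.tw fun e => k (e, 1)
  | .rel w n => P.al w n && wdK P.B P.C g w fun e => sqK P.B P.C n e fun e => k (e, 0)
  | .eng u v => P.en && wdK P.B P.C g v fun a => wdK P.B P.C g (iw v) fun a' =>
      wdK P.B P.C g u fun c => wdK P.B P.C g (iw u) fun c' =>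
        enK P.B P.C a a' 5 c c' fun e => k (e, 0)
  | .mul i j => match st[i]?, st[j]? with
      | some a, some b => mulK P.B P.C a.1 b.1 fun e => k (e, a.2 + b.2)
      | _, _ => false
  | .cj i x s => match st[i]? with
      | some a => decide (a.2 = 0) && mulK P.B P.C a.1 (g (x, !s)) fun e =>
          mulK P.B P.C (g (x, s)) e fun e => k (e, 0)
      | none => false
  | .pw i n => match st[i]? with
      | some a => high P.K a.1 && fE P.B P.C (pwE n a.1) fun e => k (e, a.2 * n)
      | none => false

/-- Run a program. -/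
noncomputable def run (P : Par) (g : Bool × Bool → Ent) (fin : List (Ent × ℤ) → Bool) :
    List Op → List (Ent × ℤ) → Bool
  | [], st => fin st
  | o :: os, st => step P g st (fun a => run P g fin os (a :: st)) o

/-- Run a program from the start. -/
noncomputable def start (P : Par) (fin : List (Ent × ℤ) → Bool) (os : List Op) : Bool :=
  fE P.B P.C (genE P.B P.C (false, false)) fun e₁ => fE P.B P.C (genE P.B P.C (false, true))
    fun e₂ => fE P.B P.C (genE P.B P.C (true, false)) fun e₃ =>
      fE P.B P.C (genE P.B P.C (true, true)) fun e₄ =>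
        run P (fun a => bif a.1 then bif a.2 then e₄ else e₃ else bif a.2 then e₂ else e₁) fin os []

variable {H : Type*} [Group H]

/-- Meaning of an entry. -/
def Inv (P : Par) (π : F →* H) (a : Ent × ℤ) : Prop :=
  ∃ u, Good P.B P.C a.1 u ∧ π u = π (gw P.tw) ^ a.2

/-- The relators used by a program hold. -/
structure Par.OK (P : Par) (π : F →* H) : Prop where
  K : P.K ≤ P.C + 1 ∧ P.C < P.K + P.K
  al : ∀ w n, P.al w n = true → π (gw w) ^ 2 ^ n = 1
  en : P.en = true → ∀ u v : F, π (engel v 5 u) = 1

variable {P : Par} {π : F →* H}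

lemma step_sound (hP : P.OK π) (hg : ∀ a, Good P.B P.C (g a) (gl a)) {st : List (Ent × ℤ)}
    (hs : ∀ a ∈ st, Inv P π a) {k : Ent × ℤ → Bool} (o : Op) (ok : step P g st k o = true) :
    ∃ a, Inv P π a ∧ k a = true := by
  cases o with
  | tg =>
    obtain ⟨e, he, ok⟩ := cmp_wd hg _ _ ok
    exact ⟨_, ⟨_, he, by simp⟩, ok⟩
  | rel w n =>
    obtain ⟨h1, ok⟩ := Bool.and_eq_true_iff.1 ok
    obtain ⟨e, he, ok⟩ := cmp_wd hg _ _ ok
    obtain ⟨e, he, ok⟩ := cmp_sq n he _ ok
    exact ⟨_, ⟨_, he, by simpa using hP.al w n h1⟩, ok⟩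
  | eng u v =>
    obtain ⟨h1, ok⟩ := Bool.and_eq_true_iff.1 ok
    obtain ⟨a, ha, ok⟩ := cmp_wd hg _ _ ok
    obtain ⟨a', ha', ok⟩ := cmp_wd hg _ _ ok
    obtain ⟨c, hc, ok⟩ := cmp_wd hg _ _ ok
    obtain ⟨c', hc', ok⟩ := cmp_wd hg _ _ ok
    rw [gw_iw] at ha' hc'
    obtain ⟨e, he, ok⟩ := cmp_en ha ha' 5 hc hc' _ ok
    exact ⟨_, ⟨_, he, by simpa using hP.en h1 _ _⟩, ok⟩
  | mul i j =>
    simp only [step] at ok
    split at ok
    · rename_i a b hi hj
      obtain ⟨u, hu, pu⟩ := hs a (List.mem_of_getElem? hi)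
      obtain ⟨v, hv, pv⟩ := hs b (List.mem_of_getElem? hj)
      obtain ⟨e, he, ok⟩ := hu.mulK hv _ ok
      exact ⟨_, ⟨_, he, by rw [map_mul, pu, pv, zpow_add]⟩, ok⟩
    · exact absurd ok (by simp)
  | cj i x s =>
    simp only [step] at ok
    split at ok
    · rename_i a hi
      obtain ⟨u, hu, pu⟩ := hs a (List.mem_of_getElem? hi)
      obtain ⟨h1, ok⟩ := Bool.and_eq_true_iff.1 ok
      obtain ⟨e, he, ok⟩ := hu.mulK (hg _) _ ok
      obtain ⟨e, he, ok⟩ := (hg _).mulK he _ ok
      rw [of_decide_eq_true h1, zpow_zero] at pu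
      exact ⟨_, ⟨_, he, by simp [pu, gl_not]⟩, ok⟩
    · exact absurd ok (by simp)
  | pw i n =>
    simp only [step] at ok
    split at ok
    · rename_i a hi
      obtain ⟨u, hu, pu⟩ := hs a (List.mem_of_getElem? hi)
      obtain ⟨h1, ok⟩ := Bool.and_eq_true_iff.1 ok
      obtain ⟨e, he, ok⟩ := (hu.pw hP.K.2 (hu.high hP.K.1 h1) n).fE ok
      exact ⟨_, ⟨_, he, by rw [map_zpow, pu, zpow_mul]⟩, ok⟩
    · exact absurd ok (by simp)

lemma run_sound (hP : P.OK π) (hg : ∀ a, Good P.B P.C (g a) (gl a))
    {fin : List (Ent × ℤ) → Bool} (os : List Op) : ∀ st, (∀ a ∈ st, Inv P π a) →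
    run P g fin os st = true → ∃ st, (∀ a ∈ st, Inv P π a) ∧ fin st = true := by
  induction os with
  | nil => exact fun st hs ok => ⟨st, hs, ok⟩
  | cons o os ih =>
    intro st hs ok
    obtain ⟨a, ha, ok⟩ := step_sound hP hg hs o ok
    exact ih _ (List.forall_mem_cons.2 ⟨ha, hs⟩) ok

lemma start_sound (hP : P.OK π) {fin : List (Ent × ℤ) → Bool} {os : List Op}
    (ok : start P fin os = true) : ∃ st, (∀ a ∈ st, Inv P π a) ∧ fin st = true := by
  obtain ⟨e₁, h₁, ok⟩ := (good_gen _).fE ok
  obtain ⟨e₂, h₂, ok⟩ := (good_gen _).fE ok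
  obtain ⟨e₃, h₃, ok⟩ := (good_gen _).fE ok
  obtain ⟨e₄, h₄, ok⟩ := (good_gen _).fE ok
  refine run_sound hP ?_ os [] (by simp) ok
  rintro ⟨_ | _, _ | _⟩ <;> assumption

/-- Final test: the last entry is trivial and carries an odd exponent. -/
def finT (C : ℕ) : List (Ent × ℤ) → Bool
  | [] => false
  | a :: _ => high (C + 1) a.1 && decide (a.2 % 2 = 1)

lemma target_sound (hP : P.OK π) {os : List Op} (ok : start P (finT P.C) os = true)
    (hD : ∀ u ∈ D (P.C + 1), π u = 1) (h2 : ∃ k : ℕ, π (gw P.tw) ^ 2 ^ k = 1) :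
    π (gw P.tw) = 1 := by
  obtain ⟨st, hs, ok⟩ := start_sound hP ok
  cases st with
  | nil => exact absurd ok (by simp [finT])
  | cons a st =>
    obtain ⟨u, hu, pu⟩ := hs a (by simp)
    obtain ⟨h1, h3⟩ := Bool.and_eq_true_iff.1 ok
    rw [hD u (hu.high le_rfl h1)] at pu
    obtain ⟨k, hk⟩ := h2
    have h4 : IsCoprime a.2 (2 ^ k) := IsCoprime.pow_right
      ⟨1, -(a.2 / 2), by have := of_decide_eq_true h3; omega⟩
    obtain ⟨p, q, hpq⟩ := h4
    rw [← zpow_one (π _), ← hpq, zpow_add, mul_comm p, mul_comm q, zpow_mul, zpow_mul, ← pu]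
    norm_cast
    simp [hk]

/-- Parity of a coefficient read off a Kronecker sum. -/
noncomputable def parX (p : ℤ) : List ℤ → W → ℤ → Bool
  | b :: o, x :: w, X => fL [(2 * X + b) / (2 * b)] fun l =>
      bif x then parX p o w l.headI else fL [X - b * l.headI] fun l => parX p o w l.headI
  | _, _, X => decide (X % 2 = p)

lemma parX_sound (p : ℤ) (w : W) : ∀ f : V, 2 * Nn w.length f < B →
    parX p (om B w.length) w (E (om B w.length) f) = true → f w % 2 = p := by
  induction w with
  | nil => exact fun f _ ok => of_decide_eq_true ok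
  | cons x w ih =>
    intro f hb ok
    have h1 := Nn_nonneg w.length fun s => f (false :: s)
    have h2 := Nn_nonneg w.length fun s => f (true :: s)
    rw [List.length_cons, Nn] at hb
    have h3 := E_lt (B := B) w.length (fun s => f (false :: s)) 2 zero_le_two (by linarith)
    rw [List.length_cons, om, parX, fL_eq, E] at ok
    generalize B ^ 2 ^ w.length = β at h3 ok
    have h4 := abs_le.1 (le_refl |E (om B w.length) fun s => f (false :: s)|)
    have h5 : ∀ y z : ℤ, -β < 2 * y → 2 * y < β → (2 * (y + β * z) + β) / (2 * β) = z := by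
      intro y z h6 h7
      rw [show 2 * (y + β * z) + β = 2 * y + β + 2 * β * z by ring,
        Int.add_mul_ediv_left _ _ (by omega), Int.ediv_eq_zero_of_lt (by omega) (by omega), zero_add]
    rw [h5 _ _ (by linarith) (by linarith)] at ok
    cases x
    · simp only [cond_false, fL_eq, List.headI_cons, add_sub_cancel_right] at ok
      exact ih _ (by linarith) ok
    · exact ih _ (by linarith) ok

/-- Final test for the class bound. -/
noncomputable def finC (B : ℤ) (C : ℕ) (ws : List W) (sel : W → ℕ) (st : List (Ent × ℤ)) : Bool :=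
  fL (om B C) fun o => ws.all fun m => match st[sel m]? with
    | some a => decide (a.2 = 0) && (high C a.1 && (decide (2 * a.1.b.getD C 0 < B) &&
        (parX 1 o m ((a.1.M.getD 0 []).getD C 0) && ws.all fun m' =>
          decide (m' = m) || parX 0 o m' ((a.1.M.getD 0 []).getD C 0))))
    | none => false

lemma finC_sound (hP : P.OK π) {os : List Op} {ws : List W} {sel : W → ℕ}
    (ok : start P (finC P.B P.C ws sel) os = true) (hw : ∀ m ∈ ws, m.length = P.C) :
    ∀ m ∈ ws, ∃ u ∈ D P.C, π u = 1 ∧ ∀ m' ∈ ws, ser u m' % 2 = if m' = m then 1 else 0 := by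
  obtain ⟨st, hs, ok⟩ := start_sound hP ok
  intro m hm
  rw [finC, fL_eq] at ok
  replace ok := List.all_eq_true.1 ok m hm
  split at ok
  · rename_i a hi
    obtain ⟨u, hu, pu⟩ := hs a (List.mem_of_getElem? hi)
    simp only [Bool.and_eq_true, decide_eq_true_eq, List.all_eq_true, Bool.or_eq_true] at ok
    obtain ⟨h1, h2, h3, h4, h5⟩ := ok
    have h6 := hu.last le_rfl
    have h7 := hu.b _ le_rfl
    rw [Nat.sub_self] at h6
    rw [h6] at h4 h5
    refine ⟨u, hu.high (by omega) h2, by rw [pu, h1, zpow_zero], fun m' hm' => ?_⟩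
    split_ifs with e
    · rw [e]; exact parX_sound (B := P.B) 1 m _ (by rw [hw m hm]; linarith) (by rw [hw m hm]; exact h4)
    · exact parX_sound (B := P.B) 0 m' _ (by rw [hw m' hm']; linarith)
        (by rw [hw m' hm']; exact (h5 m' hm').resolve_left e)
  · exact absurd ok (by simp)

end Pool.Agent.Lib.MP_3b0e0c_al
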