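import Pool.Agent.Lib.MP_3b0e0c_al.ProgC

namespace Pool.Agent.Lib.MP_3b0e0c_al.FiveEngel

open Pool.Agent.Lib.MP_3b0e0c_al
open scoped commutatorElement

/-- A 2-group is locally finite if (i) any two conjugate elements generate a nilpotent subgroup of
class at most 7, or (ii) any two elements generate a nilpotent subgroup of class at most 8, or
(iii) it is binary finite and satisfies the 5-Engel law. -/
theorem three_cases (G : Type) [Group G] (h2 : ∀ g : G, ∃ k : ℕ, orderOf g = 2 ^ k)
    (h : (∀ x g : G, (Subgroup.closure ({x, g * x * g⁻¹} : Set G)).lowerCentralSeries 7 = ⊥) ∨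
      (∀ a b : G, (Subgroup.closure ({a, b} : Set G)).lowerCentralSeries 8 = ⊥) ∨
      ((∀ a b : G, ((Subgroup.closure ({a, b} : Set G) : Subgroup G) : Set G).Finite) ∧
        ∀ a b : G, ⁅⁅⁅⁅⁅a, b⁆, b⁆, b⁆, b⁆, b⁆ = 1)) :
    ∀ s : Finset G, ((Subgroup.closure (s : Set G) : Subgroup G) : Set G).Finite := by
  have hp : IsPGroup 2 G := fun g => (h2 g).imp fun k hk => by rw [← hk, pow_orderOf_eq_one]
  refine fun s => LF_of_conj hp ?_ s s.finite_toSet (Set.subset_univ _)
  rcases h with h | h | ⟨hf, he⟩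
  · exact h
  · exact fun x g => conj_class (h x g)
  · exact fun x g => conj_class (engel_class hp he (hf x g))

end Pool.Agent.Lib.MP_3b0e0c_al.FiveEngel
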