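import Mathlib.GroupTheory.Schreier
import Mathlib.GroupTheory.FiniteAbelian.Basic
import Mathlib.GroupTheory.PGroup
import Mathlib.Data.Set.Finite.List
import Mathlib.GroupTheory.Subgroup.Centralizer

/-! Locally finite subgroups, Sanov's theorem and the radical argument. -/

namespace Pool.Agent.Lib.MP_3b0e0c_al

open Subgroup

variable {G : Type*} [Group G]

/-- `H` is locally finite. -/
def LF (H : Subgroup G) : Prop :=
  ∀ s : Set G, s.Finite → s ⊆ H → (closure s : Set G).Finite

section Sanov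

/-- `b h₁ b h₂ ⋯ b hₙ`. -/
def ev (b : G) : List G → G
  | [] => 1
  | h :: t => b * h * ev b t

/-- The alternating product. -/
def alt : List G → G
  | [] => 1
  | h :: t => h * (alt t)⁻¹

lemma ev_append (b : G) (o r : List G) : ev b (o ++ r) = ev b o * ev b r := by
  induction o with
  | nil => simp [ev]
  | cons h t ih => simp [ev, ih, mul_assoc]

lemma alt_mem (H : Subgroup G) : ∀ l : List G, (∀ h ∈ l, h ∈ H) → alt l ∈ H
  | [], _ => H.one_mem
  | h :: t, hl => H.mul_mem (hl h (by simp)) (H.inv_mem (alt_mem H t fun k hk => hl k (by simp [hk])))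

lemma alt_cancel (o u v : List G) (h : alt (o ++ u) = alt (o ++ v)) : alt u = alt v := by
  induction o with
  | nil => simpa using h
  | cons a t ih => exact ih (by simpa [alt] using h)

lemma ev_move (h4 : ∀ g : G, g ^ 4 = 1) (H : Subgroup G) (b : G) (hb : b * b ∈ H) (k : G)
    (q : List G) : ∀ (p : List G) (h : G), (∀ g ∈ h :: (p ++ k :: q), g ∈ H) →
      ∃ k' : G, ∃ r : List G, r.length = p.length + q.length ∧ (∀ g ∈ k' :: r, g ∈ H) ∧
        ev b (h :: (p ++ k :: q)) = ev b (alt (h :: p) :: k' :: r)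
  | [], h, hH => ⟨k, q, by simp, fun g hg => hH g (by simp at hg ⊢; tauto), by simp [alt]⟩
  | h' :: p, h, hH => by
    obtain ⟨k', r, hr, hm, he⟩ := ev_move h4 H b hb k q p h' fun g hg => hH g (by
      simp only [List.mem_cons, List.cons_append] at hg ⊢; tauto)
    have hY : alt (h' :: p) ∈ H := alt_mem H _ fun g hg => hH g (by
      simp only [List.mem_cons, List.cons_append, List.mem_append] at hg ⊢; tauto)
    refine ⟨b * b * (alt (h' :: p))⁻¹ * (b * b), ((alt (h' :: p))⁻¹ * k') :: r, by simp; omega,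
      ?_, ?_⟩
    · intro g hg
      simp only [List.mem_cons] at hg
      rcases hg with rfl | rfl | hg
      · exact H.mul_mem (H.mul_mem hb (H.inv_mem hY)) hb
      · exact H.mul_mem (H.inv_mem hY) (hm k' (by simp))
      · exact hm g (by simp [hg])
    · rw [List.cons_append, ev, he]
      have e1 : alt (h :: h' :: p) = h * (alt (h' :: p))⁻¹ := rfl
      rw [e1]
      generalize alt (h' :: p) = Y
      have hb4 : b⁻¹ = b * b * b := by
        rw [inv_eq_iff_mul_eq_one, ← h4 b]; simp [pow_succ, mul_assoc]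
      have h1 : b * Y * b = Y⁻¹ * b⁻¹ * Y⁻¹ * b⁻¹ * Y⁻¹ := by
        have := h4 (b * Y)
        calc b * Y * b = (b * Y) ^ 4 * (Y⁻¹ * b⁻¹ * Y⁻¹ * b⁻¹ * Y⁻¹) := by
              simp only [pow_succ, pow_zero]; group
          _ = _ := by rw [this, one_mul]
      rw [hb4] at h1
      simp only [ev]
      calc b * h * (b * Y * (b * k' * ev b r)) = b * h * (b * Y * b) * k' * ev b r := by
            simp only [mul_assoc]
        _ = _ := by rw [h1]; simp only [mul_assoc]

/-- Products with at most `n` letters `b`. -/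
def SA (H : Subgroup G) (b : G) (n : ℕ) : Set G :=
  {g | ∃ h ∈ H, ∃ l : List G, (∀ k ∈ l, k ∈ H) ∧ l.length ≤ n ∧ g = h * ev b l}

lemma SA_mul {H : Subgroup G} {b : G} {m n : ℕ} {u v : G} (hu : u ∈ SA H b m)
    (hv : v ∈ SA H b n) : u * v ∈ SA H b (m + n) := by
  obtain ⟨h, hh, l, hl, hn, rfl⟩ := hu
  obtain ⟨h', hh', l', hl', hn', rfl⟩ := hv
  rcases List.eq_nil_or_concat l with rfl | ⟨o, k, rfl⟩
  · exact ⟨h * h', H.mul_mem hh hh', l', hl', by omega, by simp [ev, mul_assoc]⟩
  · refine ⟨h, hh, o ++ (k * h') :: l', ?_, by simp at hn ⊢; omega, by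
      simp [ev_append, ev, mul_assoc]⟩
    intro g hg
    simp only [List.mem_append, List.mem_cons] at hg
    rcases hg with hg | rfl | hg
    · exact hl g (by simp [hg])
    · exact H.mul_mem (hl k (by simp)) hh'
    · exact hl' g hg

lemma SA_finite {H : Subgroup G} (hH : (H : Set G).Finite) (b : G) (n : ℕ) :
    (SA H b n).Finite := by
  have : Finite H := hH
  refine ((hH.prod (List.finite_length_le H n)).image
    fun p => p.1 * ev b (p.2.map Subtype.val)).subset ?_
  rintro _ ⟨h, hh, l, hl, hn, rfl⟩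
  refine ⟨(h, l.pmap Subtype.mk hl), ⟨hh, by simpa using hn⟩, ?_⟩
  simp [List.map_pmap]

lemma SA_short (h4 : ∀ g : G, g ^ 4 = 1) {H : Subgroup G} (hH : (H : Set G).Finite) {b : G}
    (hb : b * b ∈ H) (n : ℕ) : SA H b n ⊆ SA H b (Nat.card H + 1) := by
  have : Finite H := hH
  induction n using Nat.strong_induction_on with
  | _ n ih =>
  rintro _ ⟨h, hh, l, hl, hn, rfl⟩
  by_cases hs : l.length ≤ Nat.card H + 1
  · exact ⟨h, hh, l, hl, hs, rfl⟩
  have key : ∀ i j : ℕ, i < j → j ≤ Nat.card H → alt (l.take i) = alt (l.take j) →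
      h * ev b l ∈ SA H b (Nat.card H + 1) := by
    intro i j hij hj he
    obtain ⟨a, p, hp⟩ : ∃ a p, (l.drop i).take (j - i) = a :: p :=
      List.exists_cons_of_length_pos (by simp; omega)
    obtain ⟨k, q, hq⟩ : ∃ k q, l.drop j = k :: q :=
      List.exists_cons_of_length_pos (by simp; omega)
    have e1 : l.take j = l.take i ++ a :: p := by
      rw [← hp, ← List.take_add]; congr 1; omega
    have e2 : l = l.take i ++ a :: (p ++ k :: q) := by
      rw [← List.cons_append, ← List.append_assoc, ← e1, ← hq, List.take_append_drop]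
    have e3 : alt (a :: p) = 1 := by
      have := alt_cancel (l.take i) [] (a :: p) (by rw [← e1]; simpa using he)
      exact this.symm
    obtain ⟨k', r, hr, hm, hev⟩ := ev_move h4 H b hb k q p a fun g hg =>
      hl g (by rw [e2]; exact List.mem_append_right _ hg)
    have hlen : l.length = (l.take i).length + (p.length + q.length + 2) := by
      conv_lhs => rw [e2]
      simp; omega
    have h1 : h * ev b (l.take i) ∈ SA H b (l.take i).length :=
      ⟨h, hh, _, fun g hg => hl g (List.mem_of_mem_take hg), le_rfl, rfl⟩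
    have h2 : b * b * k' * ev b r ∈ SA H b r.length :=
      ⟨_, H.mul_mem hb (hm k' (by simp)), r, fun g hg => hm g (by simp [hg]), le_rfl, rfl⟩
    have h3 := ih _ (by omega) (SA_mul h1 h2)
    convert h3 using 1
    conv_lhs => rw [e2, ev_append, hev, e3]
    simp [ev, mul_assoc]
  have := Fintype.ofFinite H
  obtain ⟨i, j, hij, he⟩ := Fintype.exists_ne_map_eq_of_card_lt (α := Fin (Nat.card H + 1))
    (β := H) (fun i => ⟨alt (l.take i), alt_mem H _ fun g hg => hl g (List.mem_of_mem_take hg)⟩)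
    (by simp)
  have he' : alt (l.take i) = alt (l.take j) := congrArg Subtype.val he
  rcases lt_or_gt_of_ne (Fin.val_ne_of_ne hij) with hlt | hlt
  · exact key i j hlt (by omega) he'
  · exact key j i hlt (by omega) he'.symm

lemma sanov_step (h4 : ∀ g : G, g ^ 4 = 1) {H : Subgroup G} (hH : (H : Set G).Finite) {b : G}
    (hb : b * b ∈ H) : ((H ⊔ closure {b} : Subgroup G) : Set G).Finite := by
  refine (SA_finite hH b (Nat.card H + 1)).subset fun g hg => ?_
  suffices h : ∃ n, g ∈ SA H b n from h.elim fun n hn => SA_short h4 hH hb n hn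
  rw [← closure_eq H, ← closure_union] at hg
  have hmul : ∀ u v : G, (∃ n, u ∈ SA H b n) → (∃ n, v ∈ SA H b n) → ∃ n, u * v ∈ SA H b n :=
    fun u v ⟨_, hu⟩ ⟨_, hv⟩ => ⟨_, SA_mul hu hv⟩
  induction hg using closure_induction with
  | mem x hx =>
    rcases hx with hx | rfl
    · exact ⟨0, x, hx, [], by simp, le_rfl, by simp [ev]⟩
    · exact ⟨1, 1, H.one_mem, [1], by simp, le_rfl, by simp [ev]⟩
  | one => exact ⟨0, 1, H.one_mem, [], by simp, le_rfl, by simp [ev]⟩
  | mul x y _ _ hx hy => exact hmul x y hx hy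
  | inv x _ hx =>
    have : x⁻¹ = x * x * x := by
      rw [inv_eq_iff_mul_eq_one, ← h4 x]; simp [pow_succ, mul_assoc]
    rw [this]; exact hmul _ _ (hmul _ _ hx hx) hx

/-- Sanov's theorem. -/
theorem sanov (h4 : ∀ g : G, g ^ 4 = 1) : LF (⊤ : Subgroup G) := by
  intro s hs ht
  clear ht
  induction s, hs using Set.Finite.induction_on with
  | empty => simp
  | @insert a s _ _ ih =>
    have h1 := sanov_step h4 ih (b := a * a) (by
      rw [show a * a * (a * a) = a ^ 4 by simp [pow_succ, mul_assoc], h4]; exact one_mem _)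
    have h2 := sanov_step h4 h1 (b := a) (mem_sup_right (subset_closure rfl))
    refine h2.subset ?_
    rw [SetLike.coe_subset_coe, closure_le]
    rintro g (rfl | hg)
    · exact mem_sup_right (subset_closure rfl)
    · exact mem_sup_left (mem_sup_left (subset_closure hg))

end Sanov

lemma LF.mono {H K : Subgroup G} (h : LF K) (hle : H ≤ K) : LF H :=
  fun s hs hsH => h s hs (hsH.trans hle)

lemma LF.map {Q : Type*} [Group Q] (f : G →* Q) {H : Subgroup G} (h : LF H) : LF (H.map f) := by
  intro s hs hsH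
  obtain ⟨t, htH, ht, rfl⟩ := (Set.exists_subset_image_finite_and (p := (· = s))).1
    ⟨s, hsH, hs, rfl⟩
  rw [← MonoidHom.map_closure]
  exact (h t ht htH).image f

lemma LF.comap {Q : Type*} [Group Q] (f : G →* Q) (hk : LF f.ker) {S : Subgroup Q} (h : LF S) :
    LF (S.comap f) := by
  intro s hs hsS
  have : Finite s := hs
  set K := closure s
  have : Finite (f.comp K.subtype).range := by
    rw [MonoidHom.range_comp, subtype_range, MonoidHom.map_closure]
    exact h _ (hs.image f) (by rintro _ ⟨g, hg, rfl⟩; exact hsS hg)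
  have hfg : Group.FG (f.comp K.subtype).ker := inferInstance
  obtain ⟨t, ht, htf⟩ := (fg_iff _).1 ((Group.fg_iff_subgroup_fg _).1 hfg)
  have h1 := hk (K.subtype '' t) (htf.image _) (by
    rintro _ ⟨g, hg, rfl⟩
    have : g ∈ (f.comp K.subtype).ker := ht ▸ subset_closure hg
    exact this)
  rw [← MonoidHom.map_closure, ht] at h1
  have h2 : Finite (f.comp K.subtype).ker :=
    Set.Finite.of_finite_image h1 (K.subtype_injective.injOn)
  exact (finite_iff_finite_and_finiteIndex _).2 ⟨h2, inferInstance⟩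

lemma LF.sup {M N : Subgroup G} [M.Normal] (hM : LF M) (hN : LF N) : LF (M ⊔ N) := by
  refine (LF.comap (QuotientGroup.mk' M) (by rwa [QuotientGroup.ker_mk'])
    (hN.map (QuotientGroup.mk' M))).mono ?_
  rw [comap_map_eq, QuotientGroup.ker_mk', sup_comm]

variable (G) in
/-- The locally finite radical. -/
def rad : Subgroup G where
  carrier := {g | ∃ N : Subgroup G, N.Normal ∧ LF N ∧ g ∈ N}
  one_mem' := ⟨⊥, inferInstance, fun s _ hs => by
    rw [(closure_le ⊥).2 hs |> le_bot_iff.1]; simp, one_mem _⟩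
  mul_mem' := fun ⟨M, _, hM, ha⟩ ⟨N, _, hN, hb⟩ =>
    ⟨M ⊔ N, inferInstance, hM.sup hN, mul_mem (mem_sup_left ha) (mem_sup_right hb)⟩
  inv_mem' := fun ⟨M, h, hM, ha⟩ => ⟨M, h, hM, inv_mem ha⟩

instance : (rad G).Normal := ⟨fun _ ⟨M, h, hM, ha⟩ g => ⟨M, h, hM, h.conj_mem _ ha g⟩⟩

lemma LF_rad : LF (rad G) := by
  intro s hs hsR
  have : ∃ N : Subgroup G, N.Normal ∧ LF N ∧ s ⊆ N := by
    induction s, hs using Set.Finite.induction_on with
    | empty => obtain ⟨N, h1, h2, -⟩ := (rad G).one_mem; exact ⟨N, h1, h2, by simp⟩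
    | @insert a s _ _ ih =>
      obtain ⟨N, h1, h2, h3⟩ := ih ((Set.subset_insert _ _).trans hsR)
      obtain ⟨M, h4, h5, h6⟩ := hsR (Set.mem_insert a s)
      exact ⟨M ⊔ N, inferInstance, h5.sup h2, Set.insert_subset (mem_sup_left h6)
        fun g hg => mem_sup_right (h3 hg)⟩
  obtain ⟨N, -, h2, h3⟩ := this
  exact h2 s hs h3

lemma LF_normalClosure (ht : IsMulTorsion G) {z : G} (hz : ∀ g : G, Commute z (g * z * g⁻¹)) :
    LF (normalClosure {z}) := by
  have : IsMulCommutative (normalClosure ({z} : Set G)) := by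
    refine isMulCommutative_closure ?_
    intro u hu v hv
    obtain ⟨z1, h1, hu'⟩ := Group.mem_conjugatesOfSet_iff.1 hu
    obtain ⟨z2, h2, hv'⟩ := Group.mem_conjugatesOfSet_iff.1 hv
    rw [Set.mem_singleton_iff.1 h1] at hu'
    rw [Set.mem_singleton_iff.1 h2] at hv'
    obtain ⟨c, rfl⟩ := isConj_iff.1 hu'
    obtain ⟨d, rfl⟩ := isConj_iff.1 hv'
    have := (hz (c⁻¹ * d)).eq
    calc _ = c * (z * (c⁻¹ * d * z * (c⁻¹ * d)⁻¹)) * c⁻¹ := by group
      _ = _ := by rw [this]; group
  intro s hs hsN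
  have : Finite s := hs
  have := isMulCommutative_closure (k := s) fun x hx y hy => setLike_mul_comm (hsN hx) (hsN hy)
  open scoped IsMulCommutative in
  exact CommGroup.finite_of_fg_isMulTorsion (G := closure s) (ht.subgroup _)

/-- The radical argument. `P` is a property of groups inherited by the quotient. -/
theorem LF_of_quot (h2 : IsPGroup 2 G)
    (ha : ∀ x g : G ⧸ rad G, x ^ 16 = 1 → Commute (x ^ 8) (g * x ^ 8 * g⁻¹))
    (hb : (∀ u : G ⧸ rad G, u ^ 8 = 1) → ∀ x g : G ⧸ rad G, Commute (x ^ 4) (g * x ^ 4 * g⁻¹)) :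
    LF (⊤ : Subgroup G) := by
  have hq := h2.to_quotient (rad G)
  have hk : LF (QuotientGroup.mk' (rad G)).ker := by rw [QuotientGroup.ker_mk']; exact LF_rad
  have triv : ∀ z : G ⧸ rad G, (∀ g, Commute z (g * z * g⁻¹)) → z = 1 := by
    intro z hz
    have h1 := LF.comap _ hk (LF_normalClosure (fun u => (hq u).elim fun k hk =>
      isOfFinOrder_iff_pow_eq_one.2 ⟨_, by positivity, hk⟩) hz)
    obtain ⟨y, rfl⟩ := QuotientGroup.mk'_surjective _ z
    exact (QuotientGroup.eq_one_iff y).2 ⟨_, inferInstance, h1, subset_normalClosure rfl⟩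
  have h8 : ∀ u : G ⧸ rad G, u ^ 8 = 1 := by
    intro u
    obtain ⟨k, hk⟩ := hq u
    have : ∀ m, u ^ (2 ^ m * 8) = 1 → u ^ 8 = 1 := by
      intro m
      induction m with
      | zero => simp
      | succ m ih =>
        intro h
        refine ih ?_
        rw [pow_mul]
        exact triv _ fun g => ha _ g (by rw [← pow_mul, ← h]; congr 1; ring)
    exact this k (by rw [pow_mul, hk, one_pow])
  have := LF.comap _ hk (sanov fun u => triv _ (hb h8 u))
  rwa [comap_top] at this

end Pool.Agent.Lib.MP_3b0e0c_al
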