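import Mathlib.GroupTheory.Nilpotent
import Mathlib.GroupTheory.FreeGroup.Basic
import Mathlib.Tactic.Abel
import Mathlib.Tactic.Group
import Mathlib.Algebra.Module.LinearMap.End
import Mathlib.Tactic.NoncommRing
import Mathlib.Tactic.Ring
import Mathlib.Tactic.Linarith

-- part Pool.Agent.Lib.MP_3b0e0c_al.Grad
section

/-! Commutator calculus in the lower central factors of the free group of rank two. -/

namespace Pool.Agent.Lib.MP_3b0e0c_al

open Subgroup
open scoped commutatorElement

/-- The lower central series (`Γ G 0 = G`). -/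
abbrev Γ (G : Type*) [Group G] (n : ℕ) : Subgroup G := (⊤ : Subgroup G).lowerCentralSeries n

section General

variable {G : Type*} [Group G] {A : Type*} [AddCommGroup A]

lemma three_sub {K L M N : Subgroup G} [N.Normal] (h1 : ⁅⁅L, M⁆, K⁆ ≤ N) (h2 : ⁅⁅M, K⁆, L⁆ ≤ N) :
    ⁅⁅K, L⁆, M⁆ ≤ N := by
  rw [← QuotientGroup.ker_mk' N, ← Subgroup.map_eq_bot_iff] at h1 h2 ⊢
  simp only [map_commutator] at h1 h2 ⊢
  exact commutator_commutator_eq_bot_of_rotate h1 h2

lemma comm_le (j : ℕ) : ∀ i, ⁅Γ G i, Γ G j⁆ ≤ Γ G (i + j + 1) := by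
  induction j with
  | zero => exact fun i => le_rfl
  | succ j ih =>
    intro i
    rw [commutator_comm]
    refine three_sub (K := Γ G j) (L := ⊤) (M := Γ G i) ?_ ?_
    · rw [commutator_comm ⊤]
      exact (ih (i + 1)).trans (by rw [show i + 1 + j + 1 = i + (j + 1) + 1 by omega])
    · exact commutator_mono (ih i) le_rfl

lemma gam_mono {i j : ℕ} (h : i ≤ j) {u : G} (hu : u ∈ Γ G j) : u ∈ Γ G i :=
  Subgroup.lowerCentralSeries_antitone ⊤ h hu

lemma comm_mem {i j n : ℕ} {u v : G} (hu : u ∈ Γ G i) (hv : v ∈ Γ G j) (h : n ≤ i + j + 1) :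
    ⁅u, v⁆ ∈ Γ G n :=
  gam_mono h (comm_le j i (commutator_mem_commutator hu hv))

lemma mem_zero (u : G) : u ∈ Γ G 0 := mem_top u

/-- `f` induces a homomorphism `Γ n / Γ (n+1) → A`. -/
structure IsHom (n : ℕ) (f : G → A) : Prop where
  add : ∀ u ∈ Γ G n, ∀ v ∈ Γ G n, f (u * v) = f u + f v
  kill : ∀ u ∈ Γ G (n + 1), f u = 0

namespace IsHom

variable {n : ℕ} {f : G → A}

lemma one (h : IsHom n f) : f 1 = 0 := h.kill 1 (one_mem _)

lemma inv (h : IsHom n f) {u : G} (hu : u ∈ Γ G n) : f u⁻¹ = -f u := by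
  rw [eq_neg_iff_add_eq_zero, ← h.add _ (inv_mem hu) _ hu, inv_mul_cancel, h.one]

lemma conj (h : IsHom n f) {u : G} (hu : u ∈ Γ G n) (b : G) : f (b * u * b⁻¹) = f u := by
  have h1 : ⁅b, u⁆ ∈ Γ G (n + 1) := comm_mem (mem_zero b) hu (by omega)
  rw [show b * u * b⁻¹ = ⁅b, u⁆ * u by rw [commutatorElement_def]; group,
    h.add _ (gam_mono n.le_succ h1) _ hu, h.kill _ h1, zero_add]

lemma pow (h : IsHom n f) {u : G} (hu : u ∈ Γ G n) (k : ℕ) : f (u ^ k) = k • f u := by
  induction k with
  | zero => simp [h.one]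
  | succ k ih => rw [pow_succ, h.add _ (pow_mem hu k) _ hu, ih, succ_nsmul]

lemma left (h : IsHom n f) {i j : ℕ} (hn : n = i + j + 1) {v : G} (hv : v ∈ Γ G j) :
    IsHom i fun u : G => f ⁅u, v⁆ where
  add u hu w hw := by
    have h1 := comm_mem hw hv hn.le
    rw [commutatorElement_mul_left_eq_conj_mul,
      h.add _ ((inferInstance : (Γ G n).Normal).conj_mem _ h1 u) _ (comm_mem hu hv hn.le),
      h.conj h1, add_comm]
  kill u hu := h.kill _ (comm_mem hu hv (by omega))

lemma anti (h : IsHom n f) {i j : ℕ} (hn : n = i + j + 1) {u v : G} (hu : u ∈ Γ G i)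
    (hv : v ∈ Γ G j) : f ⁅v, u⁆ = -f ⁅u, v⁆ := by
  rw [← commutatorElement_inv, h.inv (comm_mem hu hv hn.le)]

lemma right (h : IsHom n f) {i j : ℕ} (hn : n = i + j + 1) {u : G} (hu : u ∈ Γ G i) :
    IsHom j fun v => f ⁅u, v⁆ where
  add v hv w hw := by
    have := (h.left (i := j) (j := i) (by omega) hu).add v hv w hw
    rw [h.anti hn hu (mul_mem hv hw), h.anti hn hu hv, h.anti hn hu hw] at this
    rw [← neg_inj, this]; abel
  kill v hv := h.kill _ (comm_mem hu hv (by omega))

lemma jac (h : IsHom n f) {i j : ℕ} (hn : n = i + j + 2) {u v : G} (hu : u ∈ Γ G i)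
    (hv : v ∈ Γ G j) (x : G) : f ⁅u, ⁅v, x⁆⁆ = f ⁅⁅u, v⁆, x⁆ - f ⁅⁅u, x⁆, v⁆ := by
  have hx := mem_zero x
  have huv : ⁅u, v⁆ ∈ Γ G (i + j + 1) := comm_mem hu hv le_rfl
  have hvx : ⁅v, x⁆ ∈ Γ G (j + 1) := comm_mem hv hx le_rfl
  have hxu : ⁅x, u⁆ ∈ Γ G (i + 1) := comm_mem hx hu (by omega)
  have hux : ⁅u, x⁆ ∈ Γ G (i + 1) := comm_mem hu hx le_rfl
  have m1 : ⁅⁅u, v⁆, v * x * v⁻¹⁆ ∈ Γ G n := comm_mem huv (mem_zero _) (by omega)
  have m2 : ⁅⁅v, x⁆, x * u * x⁻¹⁆ ∈ Γ G n :=
    comm_mem hvx ((inferInstance : (Γ G i).Normal).conj_mem _ hu x) (by omega)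
  have m3 : ⁅⁅x, u⁆, u * v * u⁻¹⁆ ∈ Γ G n :=
    comm_mem hxu ((inferInstance : (Γ G j).Normal).conj_mem _ hv u) (by omega)
  have hw : ⁅⁅u, v⁆, v * x * v⁻¹⁆ * ⁅⁅v, x⁆, x * u * x⁻¹⁆ * ⁅⁅x, u⁆, u * v * u⁻¹⁆ = 1 := by
    simp only [commutatorElement_def]; group
  have e := congrArg f hw
  rw [h.add _ (mul_mem m1 m2) _ m3, h.add _ m1 _ m2, h.one,
    (h.right (j := 0) (by omega) huv).conj hx, (h.right (j := i) (by omega) hvx).conj hu,
    (h.right (j := j) (by omega) hxu).conj hv, h.anti (by omega) hu hvx,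
    ← commutatorElement_inv u x, (h.left (i := i + 1) (by omega) hv).inv hux] at e
  rw [← sub_eq_zero, ← neg_eq_zero, ← e]; abel

end IsHom

open scoped IsMulCommutative in
lemma exists_univ {G : Type} [Group G] (n : ℕ) (M : Subgroup G) [M.Normal]
    (hM : Γ G (n + 1) ≤ M) : ∃ (A : Type) (_ : AddCommGroup A) (f : G → A),
      IsHom n f ∧ (∀ u ∈ Γ G n, (f u = 0 ↔ u ∈ M)) ∧
        ∀ k : ℕ, (∀ u : G, u ^ k ∈ M) → ∀ a : A, k • a = 0 := by
  classical
  have hc : ∀ u ∈ Γ G n, (u : G ⧸ M) ∈ center (G ⧸ M) := by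
    intro u hu
    rw [mem_center_iff]
    intro g
    obtain ⟨g, rfl⟩ := QuotientGroup.mk_surjective g
    rw [← commutatorElement_eq_one_iff_mul_comm]
    exact (QuotientGroup.eq_one_iff ⁅g, u⁆).2 (hM (comm_mem (mem_zero g) hu (by omega)))
  have key : ∀ u ∈ Γ G n, ((if h : (u : G ⧸ M) ∈ center (G ⧸ M) then Additive.ofMul ⟨u, h⟩ else 0 :
      Additive (center (G ⧸ M))) = 0 ↔ u ∈ M) := by
    intro u hu
    rw [dif_pos (hc u hu), ofMul_eq_zero, Subtype.ext_iff]
    exact QuotientGroup.eq_one_iff u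
  refine ⟨Additive (center (G ⧸ M)), inferInstance,
    fun u => if h : (u : G ⧸ M) ∈ center (G ⧸ M) then Additive.ofMul ⟨u, h⟩ else 0,
    ⟨fun u hu v hv => ?_, fun u hu => ?_⟩, key, fun k hk a => ?_⟩
  · rw [dif_pos (hc u hu), dif_pos (hc v hv), dif_pos (hc _ (mul_mem hu hv))]; rfl
  · exact (key u (gam_mono n.le_succ hu)).2 (hM hu)
  · obtain ⟨u, hu⟩ := QuotientGroup.mk_surjective (Additive.toMul a).1
    refine Additive.toMul.injective (Subtype.ext ?_)
    change (Additive.toMul a).1 ^ k = 1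
    rw [← hu]
    exact (QuotientGroup.eq_one_iff (u ^ k)).2 (hk u)

end General

/-- The free group of rank two. -/
abbrev F := FreeGroup Bool

/-- Words in two letters. -/
abbrev W := List Bool

/-- The left-normed commutator of the reversed word. -/
def LR : W → F
  | [] => 1
  | [x] => .of x
  | x :: y :: r => ⁅LR (y :: r), .of x⁆

lemma LR_cons (x : Bool) {r : W} {k : ℕ} (h : r.length = k + 1) :
    LR (x :: r) = ⁅LR r, .of x⁆ := by
  cases r with
  | nil => simp at h
  | cons y r => rfl

lemma LR_mem : ∀ (k : ℕ) (r : W), r.length = k + 1 → LR r ∈ Γ F k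
  | 0, _, _ => mem_zero _
  | k + 1, x :: r, h => by
    have h' : r.length = k + 1 := by simpa using h
    rw [LR_cons x h']
    exact comm_mem (LR_mem k r h') (mem_zero _) le_rfl

/-- Iterated commutator with generators. -/
def lc (u : F) : W → F
  | [] => u
  | x :: s => lc ⁅u, .of x⁆ s

lemma lc_LR (s : W) : ∀ (p : W) (k : ℕ), p.length = k + 1 → lc (LR p) s = LR (s.reverseAux p) := by
  induction s with
  | nil => intros; rfl
  | cons x s ih =>
    intro p k h
    rw [lc, ← LR_cons x h, ih (x :: p) (k + 1) (by simp [h])]; rfl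

variable {A : Type*} [AddCommGroup A]

lemma IsHom.lc {n : ℕ} {f : F → A} (h : IsHom n f) (s : W) :
    ∀ i, n = i + s.length → IsHom i fun u => f (lc u s) := by
  induction s with
  | nil => rintro i rfl; exact h
  | cons x s ih =>
    intro i hi
    exact (ih (i + 1) (by simp at hi; omega)).left (j := 0) rfl (mem_zero _)

/-- Expansion of a commutator of two left-normed commutators. -/
def Ev (val : W → A) : W → W → W → A
  | [], _, _ => 0
  | [x], p, s => val ((x :: s).reverseAux p)
  | x :: y :: r, p, s => Ev val (y :: r) p (x :: s) - Ev val (y :: r) (x :: p) s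

lemma IsHom.expand {n : ℕ} {f : F → A} (h : IsHom n f) : ∀ (j : ℕ) (r p s : W) (i : ℕ),
    p.length = i + 1 → r.length = j + 1 → n = i + j + 1 + s.length →
    f (MP_3b0e0c_al.lc ⁅LR p, LR r⁆ s) = Ev (fun w => f (LR w)) r p s
  | 0, [x], p, s, i, hp, _, _ => by rw [Ev, ← lc_LR _ p i hp]; rfl
  | j + 1, x :: y :: r, p, s, i, hp, hr, hn => by
    have hr' : (y :: r).length = j + 1 := by simpa using hr
    rw [Ev, ← h.expand j (y :: r) p (x :: s) i hp hr' (by simp; omega),
      ← h.expand j (y :: r) (x :: p) s (i + 1) (by simp [hp]) hr' (by omega), LR_cons x hp]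
    exact (h.lc s (i + j + 2) (by omega)).jac rfl (LR_mem i p hp) (LR_mem j _ hr') _

/-- Formal integer combinations of words. -/
inductive Tr
  | z
  | n (c : ℤ) (l r : Tr)

/-- Value of a formal combination. -/
def evT : Tr → (W → A) → A
  | .z, _ => 0
  | .n c l r, val => c • val [] + evT l (fun w => val (false :: w)) + evT r (fun w => val (true :: w))

/-- Add a term. -/
def ins (c : ℤ) : W → Tr → Tr
  | [], .z => .n c .z .z
  | [], .n d l r => .n (d + c) l r
  | false :: w, .z => .n 0 (ins c w .z) .z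
  | true :: w, .z => .n 0 .z (ins c w .z)
  | false :: w, .n d l r => .n d (ins c w l) r
  | true :: w, .n d l r => .n d l (ins c w r)

lemma evT_ins (c : ℤ) (w : W) : ∀ (t : Tr) (val : W → A),
    evT (ins c w t) val = evT t val + c • val w := by
  induction w with
  | nil => intro t val; cases t <;> simp [ins, evT, add_smul]; abel
  | cons x w ih => intro t val; cases x <;> cases t <;> simp [ins, evT, ih] <;> abel

/-- Zero test. -/
def isZ : Tr → Bool
  | .z => true
  | .n c l r => c == 0 && (isZ l && isZ r)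

lemma evT_isZ : ∀ (t : Tr) (val : W → A), isZ t = true → evT t val = 0
  | .z, _, _ => rfl
  | .n c l r, val, h => by
    simp only [isZ, Bool.and_eq_true, beq_iff_eq] at h
    simp [evT, h.1, evT_isZ l _ h.2.1, evT_isZ r _ h.2.2]

/-- Add `c` times an expansion. -/
def acc (c : ℤ) : W → W → W → Tr → Tr
  | [], _, _, t => t
  | [x], p, s, t => ins c ((x :: s).reverseAux p) t
  | x :: y :: r, p, s, t => acc c (y :: r) p (x :: s) (acc (-c) (y :: r) (x :: p) s t)

lemma evT_acc (val : W → A) : ∀ (r : W) (c : ℤ) (p s : W) (t : Tr),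
    evT (acc c r p s t) val = evT t val + c • Ev val r p s
  | [], _, _, _, _ => by simp [acc, Ev]
  | [x], _, _, _, _ => by rw [acc, Ev, evT_ins]
  | x :: y :: r, c, p, s, t => by
    rw [acc, Ev, evT_acc val (y :: r), evT_acc val (y :: r), smul_sub, neg_smul]; abel

/-- Value of a list of terms. -/
def evL (val : W → A) : List (ℤ × W) → A
  | [] => 0
  | a :: l => a.1 • val a.2 + evL val l

/-- Add `c` times a list of terms. -/
def insL (c : ℤ) : List (ℤ × W) → Tr → Tr
  | [], t => t
  | a :: l, t => ins (c * a.1) a.2 (insL c l t)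

lemma evT_insL (val : W → A) (c : ℤ) (l : List (ℤ × W)) (t : Tr) :
    evT (insL c l t) val = evT t val + c • evL val l := by
  induction l with
  | nil => simp [insL, evL]
  | cons a l ih => rw [insL, evL, evT_ins, ih, smul_add, mul_smul]; abel

lemma evL_zero (val : W → A) (l : List (ℤ × W)) (h : ∀ a ∈ l, val a.2 = 0) : evL val l = 0 := by
  induction l with
  | nil => rfl
  | cons a l ih => simp [evL, h a (by simp), ih fun b hb => h b (by simp [hb])]

/-- Add relation instances. -/
def relT : List (ℤ × W × W × W) → Tr → Tr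
  | [], t => t
  | (c, m, k, s) :: l, t => acc c m k s (if m = k then relT l t else acc c k m s (relT l t))

lemma evT_relT {n : ℕ} {f : F → A} (h : IsHom n f) (l : List (ℤ × W × W × W)) (t : Tr)
    (hl : ∀ a ∈ l, 0 < a.2.1.length ∧ 0 < a.2.2.1.length ∧
      a.2.1.length + a.2.2.1.length + a.2.2.2.length = n + 1) :
    evT (relT l t) (fun w => f (LR w)) = evT t fun w => f (LR w) := by
  induction l with
  | nil => rfl
  | cons a l ih =>
    obtain ⟨c, m, k, s⟩ := a
    obtain ⟨h1, h2, h3⟩ := hl _ List.mem_cons_self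
    replace ih := ih fun b hb => hl b (by simp [hb])
    simp only at h1 h2 h3
    obtain ⟨i, hi⟩ : ∃ i, m.length = i + 1 := ⟨m.length - 1, by omega⟩
    obtain ⟨j, hj⟩ : ∃ j, k.length = j + 1 := ⟨k.length - 1, by omega⟩
    have hs := h.lc s (i + j + 1) (by omega)
    rw [relT, evT_acc, ← h.expand i m k s j hj hi (by omega)]
    split_ifs with e
    · rw [ih, e, commutatorElement_self, hs.one, smul_zero, add_zero]
    · rw [evT_acc, ← h.expand j k m s i hi hj (by omega), ih,
        hs.anti rfl (LR_mem i m hi) (LR_mem j k hj), smul_neg]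
      abel

/-- The commutators `LR w`, `w ∈ bs`, generate `Γ n / Γ (n+1)`. -/
def Van (n : ℕ) (bs : List W) : Prop :=
  ∀ (A : Type) [AddCommGroup A] (f : F → A), IsHom n f → (∀ w ∈ bs, f (LR w) = 0) →
    ∀ u ∈ Γ F n, f u = 0

lemma van_zero : Van 0 [[false], [true]] := by
  intro A _ f h hb u hu
  clear hu
  have h1 : ∀ x, f (.of x) = 0 := fun x => hb [x] (by cases x <;> simp)
  induction u using FreeGroup.induction_on with
  | C1 => exact h.one
  | of x => exact h1 x
  | inv_of x _ => rw [h.inv (mem_zero _), h1, neg_zero]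
  | mul u v hu hv => rw [h.add _ (mem_zero _) _ (mem_zero _), hu, hv, add_zero]

/-- A certificate expressing a word through the new spanning list. -/
abbrev Cert := W × List (ℤ × W) × List (ℤ × W × W × W)

/-- Check of one word. -/
def wordOK (n : ℕ) (bs : List W) (cs : List Cert) (e : W) : Bool :=
  decide (e ∈ bs) || cs.any fun c => decide (c.1 = e) && (c.2.1.all (fun a => decide (a.2 ∈ bs)) &&
    (c.2.2.all (fun a => decide (0 < a.2.1.length ∧ 0 < a.2.2.1.length ∧
      a.2.1.length + a.2.2.1.length + a.2.2.2.length = n + 1)) &&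
    isZ (ins (-1) e (insL 1 c.2.1 (relT c.2.2 .z)))))

/-- Check of one step. -/
def stepOK (n : ℕ) (bs bs' : List W) (cs : List Cert) : Bool :=
  bs.all fun w => decide (w.length = n + 1) &&
    (wordOK (n + 1) bs' cs (false :: w) && wordOK (n + 1) bs' cs (true :: w))

lemma wordOK_sound {n : ℕ} {f : F → A} (h : IsHom n f) {bs : List W} {cs : List Cert} {e : W}
    (hb : ∀ w ∈ bs, f (LR w) = 0) (ok : wordOK n bs cs e = true) : f (LR e) = 0 := by
  simp only [wordOK, Bool.or_eq_true, decide_eq_true_eq, List.any_eq_true, Bool.and_eq_true,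
    List.all_eq_true] at ok
  rcases ok with ok | ⟨c, -, -, h2, h3, h4⟩
  · exact hb e ok
  · have := evT_isZ _ (fun w => f (LR w)) h4
    rw [evT_ins, evT_insL, evT_relT h _ _ h3, evL_zero _ _ fun a ha => hb _ (h2 a ha)] at this
    simpa [evT] using this

lemma Van.step {n : ℕ} {bs bs' : List W} {cs : List Cert} (hv : Van n bs)
    (ok : stepOK n bs bs' cs = true) : Van (n + 1) bs' := by
  intro A _ f h hb u hu
  simp only [stepOK, List.all_eq_true, Bool.and_eq_true, decide_eq_true_eq] at ok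
  have h1 : ∀ x, ∀ v ∈ Γ F n, f ⁅v, .of x⁆ = 0 := fun x =>
    hv A _ (h.left (j := 0) rfl (mem_zero _)) fun w hw => by
      rw [← LR_cons x (ok w hw).1]
      cases x
      · exact wordOK_sound h hb (ok w hw).2.1
      · exact wordOK_sound h hb (ok w hw).2.2
  induction hu using closure_induction with
  | mem g hg =>
    obtain ⟨v, hv, g, -, rfl⟩ := hg
    refine van_zero A _ (h.right (j := 0) rfl hv) (fun w hw => ?_) g (mem_zero _)
    simp only [List.mem_cons, List.not_mem_nil, or_false] at hw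
    rcases hw with rfl | rfl <;> exact h1 _ v hv
  | one => exact h.one
  | mul a b ha hb ia ib => rw [h.add a ha b hb, ia, ib, add_zero]
  | inv a ha ia => rw [h.inv ha, ia, neg_zero]

end Pool.Agent.Lib.MP_3b0e0c_al
end

-- part Pool.Agent.Lib.MP_3b0e0c_al.Mag
section

/-! The Magnus embedding of the free group of rank two. -/

namespace Pool.Agent.Lib.MP_3b0e0c_al

open Subgroup
open scoped commutatorElement

/-- Power series in two non-commuting variables. -/
abbrev V := W → ℤ

/-- Operators on power series. -/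
abbrev R := Module.End ℤ V

/-- Left multiplication by a variable. -/
def T (x : Bool) : R where
  toFun f w := match w with
    | [] => 0
    | y :: w => if y = x then f w else 0
  map_add' f g := by
    ext w; cases w with
    | nil => simp
    | cons y w => by_cases h : y = x <;> simp [h]
  map_smul' c f := by
    ext w; cases w with
    | nil => simp
    | cons y w => by_cases h : y = x <;> simp [h]

@[simp] lemma T_nil (x : Bool) (f : V) : T x f [] = 0 := rfl
@[simp] lemma T_cons (x y : Bool) (f : V) (w : W) :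
    T x f (y :: w) = if y = x then f w else 0 := rfl

/-- Left division by `1 + x`. -/
def Sf (x : Bool) (f : V) : W → ℤ
  | [] => f []
  | y :: w => f (y :: w) - if y = x then Sf x f w else 0

/-- Left division by `1 + x`. -/
def S (x : Bool) : R where
  toFun := Sf x
  map_add' f g := by
    ext w; induction w with
    | nil => simp [Sf]
    | cons y w ih => by_cases h : y = x <;> simp [Sf, h, ih]; ring
  map_smul' c f := by
    ext w; induction w with
    | nil => simp [Sf]
    | cons y w ih =>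
      rw [Sf, ih]
      by_cases h : y = x <;> simp [Sf, h]; ring

/-- The unit `1 + x`. -/
def U (x : Bool) : Rˣ where
  val := 1 + T x
  inv := S x
  val_inv := by
    ext f w; cases w with
    | nil => simp [S, Sf]
    | cons y w => simp [S, Sf]
  inv_val := by
    ext f w
    change Sf x (f + T x f) w = f w
    induction w with
    | nil => simp [Sf]
    | cons y w ih => simp [Sf, ih]

/-- The Magnus map. -/
def mu (u : F) : R := (FreeGroup.lift U u : Rˣ)

lemma mu_mul (u v : F) : mu (u * v) = mu u * mu v := by simp [mu]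
lemma mu_one : mu 1 = 1 := by simp [mu]
lemma mu_of (x : Bool) : mu (.of x) = 1 + T x := by simp [mu, U]
lemma mu_inv_of (x : Bool) : mu (.of x)⁻¹ = S x := by simp [mu, U]

/-- The filtration. -/
def J (k : ℕ) : AddSubgroup R where
  carrier := {P | ∀ (f : V) (w : W), (∀ u : W, u.length + k ≤ w.length → f u = 0) → P f w = 0}
  zero_mem' := fun _ _ _ => rfl
  add_mem' := fun ha hb f w h => by simp [ha f w h, hb f w h]
  neg_mem' := fun ha f w h => by simp [ha f w h]

lemma J_mul {i j k : ℕ} {P Q : R} (hP : P ∈ J i) (hQ : Q ∈ J j) (h : k ≤ i + j) : P * Q ∈ J k :=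
  fun f w hf => hP _ w fun u hu => hQ f u fun v hv => hf v (by omega)

lemma J_one : (1 : R) ∈ J 0 := fun _ w hf => hf w le_rfl

lemma J_mono {i k : ℕ} {P : R} (hP : P ∈ J i) (h : k ≤ i) : P ∈ J k := by
  simpa using J_mul hP J_one (k := k) h

lemma J_T (x : Bool) : T x ∈ J 1 := fun f w hf => by
  cases w with
  | nil => rfl
  | cons y w => simp [hf w le_rfl]

lemma J_of_sub {P : R} (h : P - 1 ∈ J 1) : P ∈ J 0 := by
  simpa using add_mem (J_mono h zero_le_one) J_one

lemma J_sub_mul {k : ℕ} {P Q : R} (hP : P - 1 ∈ J k) (hQ : Q - 1 ∈ J k) (h0 : Q ∈ J 0) :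
    P * Q - 1 ∈ J k := by
  rw [show P * Q - 1 = (P - 1) * Q + (Q - 1) by noncomm_ring]
  exact add_mem (J_mul hP h0 le_rfl) hQ

lemma mu_J1 (u : F) : mu u - 1 ∈ J 1 := by
  induction u using FreeGroup.induction_on with
  | C1 => rw [mu_one, sub_self]; exact zero_mem _
  | of x => simpa [mu_of] using J_T x
  | inv_of x _ =>
    have h0 : S x ∈ J 0 := fun f w hf => by
      change Sf x f w = 0
      induction w with
      | nil => exact hf _ le_rfl
      | cons y w ih => simp [Sf, hf (y :: w) le_rfl, ih fun u hu => hf u (by simp at hu ⊢; omega)]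
    have h1 : (1 + T x) * S x = 1 := (U x).val_inv
    rw [mu_inv_of, show S x - 1 = -(T x * S x) by rw [← h1]; noncomm_ring]
    exact neg_mem (J_mul (J_T x) h0 le_rfl)
  | mul u v hu hv => rw [mu_mul]; exact J_sub_mul hu hv (J_of_sub hv)

lemma mu_J0 (u : F) : mu u ∈ J 0 := J_of_sub (mu_J1 u)

/-- The dimension subgroups. -/
def D (k : ℕ) : Subgroup F where
  carrier := {u | mu u - 1 ∈ J k}
  one_mem' := by change mu 1 - 1 ∈ J k; rw [mu_one, sub_self]; exact zero_mem _
  mul_mem' := fun {u v} hu hv => by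
    change mu (u * v) - 1 ∈ J k
    rw [mu_mul]; exact J_sub_mul hu hv (mu_J0 v)
  inv_mem' := fun {u} hu => by
    change mu u⁻¹ - 1 ∈ J k
    have h1 : mu u * mu u⁻¹ = 1 := by rw [← mu_mul, mul_inv_cancel, mu_one]
    rw [show mu u⁻¹ - 1 = -((mu u - 1) * mu u⁻¹) by rw [sub_mul, h1]; noncomm_ring]
    exact neg_mem (J_mul hu (mu_J0 _) le_rfl)

lemma mu_comm (u v : F) : mu ⁅u, v⁆ - 1 =
    ((mu u - 1) * (mu v - 1) - (mu v - 1) * (mu u - 1)) * mu (v * u)⁻¹ := by
  have h1 : mu (v * u) * mu (v * u)⁻¹ = 1 := by rw [← mu_mul, mul_inv_cancel, mu_one]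
  have h2 : mu ⁅u, v⁆ = mu u * mu v * mu (v * u)⁻¹ := by
    rw [← mu_mul, ← mu_mul, commutatorElement_def]; congr 1; group
  rw [mu_mul] at h1
  rw [h2]
  nth_rw 1 [← h1]
  noncomm_ring

lemma gam_le_D (n : ℕ) : Γ F n ≤ D (n + 1) := by
  induction n with
  | zero => exact fun u _ => mu_J1 u
  | succ n ih =>
    refine commutator_le.2 fun u hu v _ => ?_
    change mu ⁅u, v⁆ - 1 ∈ J _
    rw [mu_comm]
    exact J_mul (sub_mem (J_mul (ih hu) (mu_J1 v) le_rfl) (J_mul (mu_J1 v) (ih hu) (by omega)))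
      (mu_J0 _) le_rfl

/-- The series `1`. -/
def dl : V := fun w => if w = [] then 1 else 0

/-- The Magnus series of a group element. -/
def ser (u : F) : V := mu u dl

lemma J_coef {k : ℕ} {P : R} (hP : P ∈ J k) {w : W} (hw : w.length < k) : P dl w = 0 :=
  hP _ _ fun u hu => if_neg (by rintro rfl; simp at hu; omega)

lemma ser_eq (u : F) (w : W) : ser u w = (mu u - 1) dl w + dl w := by simp [ser]

lemma ser_nil (u : F) : ser u [] = 1 := by
  rw [ser_eq, J_coef (mu_J1 u) (by simp)]; rfl

lemma ser_D {k : ℕ} {u : F} (hu : u ∈ D k) {w : W} (h0 : w ≠ []) (hw : w.length < k) :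
    ser u w = 0 := by
  rw [ser_eq, J_coef hu hw, dl, if_neg h0, add_zero]

lemma ser_add {k : ℕ} {u v : F} (hu : u ∈ D k) (hv : v ∈ D k) {w : W} (h0 : w ≠ [])
    (hw : w.length < k + k) : ser (u * v) w = ser u w + ser v w := by
  have := J_coef (J_mul hu hv le_rfl) hw
  rw [show (mu u - 1) * (mu v - 1) = mu (u * v) - mu u - mu v + 1 by
    rw [mu_mul]; noncomm_ring] at this
  simp only [LinearMap.add_apply, LinearMap.sub_apply, Pi.add_apply, Pi.sub_apply,
    Module.End.one_apply, dl, if_neg h0] at this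
  unfold ser; linarith

lemma ser_zpow {k : ℕ} {u : F} (hu : u ∈ D k) {w : W} (h0 : w ≠ []) (hw : w.length < k + k)
    (e : ℤ) : ser (u ^ e) w = e * ser u w := by
  have h1 : ser 1 w = 0 := by simp [ser, mu_one, dl, h0]
  induction e using Int.induction_on with
  | zero => simp [h1]
  | succ n ih => rw [zpow_add_one, ser_add (zpow_mem hu _) hu h0 hw, ih]; ring
  | pred n ih =>
    have := ser_add (zpow_mem hu (-n - 1)) hu h0 hw
    rw [← zpow_add_one, sub_add_cancel, ih] at this
    linarith

lemma ser_hom {n : ℕ} {m : W} (hm : m.length = n + 1) : IsHom n fun u => ser u m where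
  add u hu v hv := ser_add (gam_le_D n hu) (gam_le_D n hv) (by rintro rfl; simp at hm) (by omega)
  kill u hu := ser_D (gam_le_D _ hu) (by rintro rfl; simp at hm) (by omega)

/-- The product `f * g` of two series. -/
def conv (g : V) : W → V → ℤ
  | [], f => f [] * g []
  | x :: w, f => f [] * g (x :: w) + conv g w fun s => f (x :: s)

lemma conv_lin (g : V) (a : ℤ) (w : W) : ∀ f f' : V,
    conv g w (fun s => f s + a * f' s) = conv g w f + a * conv g w f' := by
  induction w with
  | nil => intro f f'; simp only [conv]; ring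
  | cons x w ih => intro f f'; simp only [conv, ih]; ring

lemma conv_zero (g : V) (w : W) : conv g w (fun _ => 0) = 0 := by
  induction w with
  | nil => simp [conv]
  | cons x w ih => simp [conv, ih]

/-- Right multiplication. -/
def RC (g : V) : R where
  toFun f w := conv g w f
  map_add' f f' := by
    ext w; simpa [Pi.add_def] using conv_lin g 1 w f f'
  map_smul' c f := by
    ext w; simpa [conv_zero, Pi.smul_def, -zsmul_eq_mul, smul_eq_mul] using
      conv_lin g c w (fun _ => 0) f

lemma RC_dl (g : V) : RC g dl = g := by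
  ext w
  change conv g w dl = g w
  cases w <;> simp [conv, dl, conv_zero]

lemma mu_RC (g : V) (u : F) : Commute (mu u) (RC g) := by
  have h : ∀ x, Commute (mu (.of x)) (RC g) := fun x => by
    rw [mu_of]
    refine (Commute.one_left _).add_left ?_
    ext f w
    change T x (fun w => conv g w f) w = conv g w (T x f)
    cases w with
    | nil => simp [conv]
    | cons y w => by_cases h : y = x <;> simp [conv, h, conv_zero]
  induction u using FreeGroup.induction_on with
  | C1 => rw [mu_one]; exact Commute.one_left _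
  | of x => exact h x
  | inv_of x _ => simpa [mu] using (h x).units_inv_left
  | mul u v hu hv => rw [mu_mul]; exact hu.mul_left hv

lemma mu_apply (u : F) (g : V) (w : W) : (mu u - 1) g w = conv g w ((mu u - 1) dl) := by
  have := LinearMap.congr_fun ((mu_RC g u).sub_left (Commute.one_left _)).eq dl
  rw [Module.End.mul_apply, RC_dl] at this
  rw [this]; rfl

lemma ser_mul (u v : F) (w : W) : ser (u * v) w = conv (ser v) w (ser u) := by
  have := LinearMap.congr_fun (mu_RC (ser v) u).eq dl
  rw [Module.End.mul_apply, RC_dl] at this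
  rw [ser, mu_mul, Module.End.mul_apply, ← ser, this]; rfl

lemma conv_van (f : V) (w : W) : ∀ (g : V) (k : ℕ), (∀ s : W, s.length < k → g s = 0) →
    (∀ t : W, t.length + k ≤ w.length → f t = 0) → conv f w g = 0 := by
  have h0 : ∀ (g : V) (k : ℕ) (w : W), (∀ s : W, s.length < k → g s = 0) →
      (∀ t : W, t.length + k ≤ w.length → f t = 0) → g [] * f w = 0 := by
    intro g k w hg hf
    cases k with
    | zero => rw [hf w le_rfl, mul_zero]
    | succ k => rw [hg [] (by simp), zero_mul]
  induction w with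
  | nil => exact fun g k => h0 g k []
  | cons x w ih =>
    intro g k hg hf
    rw [conv, h0 g k _ hg hf, ih _ (k - 1) (fun s hs => hg _ (by simp; omega))
      fun t ht => hf t (by simp; omega), add_zero]

lemma mem_D {k : ℕ} {u : F} (h : ∀ w : W, w ≠ [] → w.length < k → ser u w = 0) : u ∈ D k := by
  intro f w hf
  rw [mu_apply]
  refine conv_van f w _ k (fun s hs => ?_) hf
  have := ser_eq u s
  by_cases e : s = []
  · subst e; rw [ser_nil, dl, if_pos rfl] at this; linarith
  · rw [h s e hs] at this; simpa [dl, e] using this.symm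

/-- Coefficients of the leading term of a left-normed commutator. -/
def cth : W → W → ℤ
  | [], _ => 0
  | [x], m => if m = [x] then 1 else 0
  | x :: y :: r, m => (if m.getLast? = some x then cth (y :: r) m.dropLast else 0) -
      if m.head? = some x then cth (y :: r) m.tail else 0

lemma conv_T (x y : Bool) (m : W) : ∀ f : V,
    conv (T x dl) (m ++ [y]) f = if y = x then f m else 0 := by
  induction m with
  | nil => intro f; by_cases h : y = x <;> simp [conv, dl, h]
  | cons a m ih => intro f; simp [conv, ih, dl]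

lemma ser_LR : ∀ (k : ℕ) (r m : W), r.length = k + 1 → m.length = k + 1 →
    ser (LR r) m = cth r m
  | 0, [x], [y], _, _ => by simp [LR, ser, mu_of, cth, dl]
  | k + 1, x :: y :: r, m, hr, hm => by
    have hr' : (y :: r).length = k + 1 := by simpa using hr
    have hu := gam_le_D k (LR_mem k _ hr')
    have hd := sub_mem (J_mul hu (mu_J1 (.of x)) le_rfl) (J_mul (mu_J1 (.of x)) hu (by omega))
    have h1 := J_coef (J_mul hd (mu_J1 (.of x * LR (y :: r))⁻¹) le_rfl) (w := m) (by omega)
    have h0 : m ≠ [] := by rintro rfl; simp at hm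
    rw [mul_sub, ← mu_comm, mul_one, LinearMap.sub_apply, Pi.sub_apply, sub_eq_zero] at h1
    rw [LR, ser_eq, h1, dl, if_neg h0, add_zero, cth, mu_of, add_sub_cancel_left,
      LinearMap.sub_apply, Pi.sub_apply, Module.End.mul_apply, Module.End.mul_apply]
    have h2 : ∀ s : W, s.length = k + 1 → (mu (LR (y :: r)) - 1) dl s = cth (y :: r) s := by
      intro s hs
      rw [← ser_LR k _ s hr' hs, ser_eq, dl, if_neg (by rintro rfl; simp at hs), add_zero]
    congr 1
    · obtain ⟨s, a, rfl⟩ := (List.eq_nil_or_concat' m).resolve_left h0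
      rw [mu_apply, conv_T, h2 s (by simpa using hm)]; simp
    · obtain ⟨a, s, rfl⟩ := List.exists_cons_of_ne_nil h0
      rw [T_cons, h2 s (by simpa using hm)]; simp

variable {A : Type*} [AddCommGroup A]

/-- `∑ c m • φ` over the pairs `(m, φ)` of a list. -/
def dsum (c : W → ℤ) (val : W → A) : List (W × List (ℤ × W)) → A
  | [] => 0
  | a :: l => c a.1 • evL val a.2 + dsum c val l

/-- The same sum, formally. -/
def dT (c : W → ℤ) : List (W × List (ℤ × W)) → Tr
  | [] => .z
  | a :: l => if c a.1 = 0 then dT c l else insL (c a.1) a.2 (dT c l)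

lemma evT_dT (c : W → ℤ) (val : W → A) (l : List (W × List (ℤ × W))) :
    evT (dT c l) val = dsum c val l := by
  induction l with
  | nil => rfl
  | cons a l ih =>
    rw [dT, dsum]
    split_ifs with h
    · rw [ih, h, zero_smul, zero_add]
    · rw [evT_insL, ih, add_comm]

lemma dsum_congr {c c' : W → ℤ} (val : W → A) (l : List (W × List (ℤ × W)))
    (h : ∀ a ∈ l, c a.1 = c' a.1) : dsum c val l = dsum c' val l := by
  induction l with
  | nil => rfl
  | cons a l ih => rw [dsum, dsum, h a (by simp), ih fun b hb => h b (by simp [hb])]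

lemma dsum_lin (c c' : W → ℤ) (k : ℤ) (val : W → A) (l : List (W × List (ℤ × W))) :
    dsum (fun m => c m + k * c' m) val l = dsum c val l + k • dsum c' val l := by
  induction l with
  | nil => simp [dsum]
  | cons a l ih => simp only [dsum, ih, add_smul, mul_smul, smul_add]; abel

lemma dsum_zero (val : W → A) (l : List (W × List (ℤ × W))) : dsum (fun _ => 0) val l = 0 := by
  induction l with
  | nil => rfl
  | cons a l ih => simp [dsum, ih]

/-- Check of the dual basis. -/
def dualOK (n : ℕ) (bs : List W) (ds : List (W × List (ℤ × W))) : Bool :=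
  ds.all (fun a => decide (a.1.length = n + 1)) &&
    bs.all fun w => decide (w.length = n + 1) && isZ (ins (-1) w (dT (cth w) ds))

/-- The Magnus formula in weight `n + 1`. -/
def Mg (n : ℕ) (ds : List (W × List (ℤ × W))) : Prop :=
  (∀ a ∈ ds, a.1.length = n + 1) ∧ ∀ (A : Type) [AddCommGroup A] (f : F → A), IsHom n f →
    ∀ u ∈ Γ F n, f u = dsum (ser u) (fun w => f (LR w)) ds

lemma Van.mg {n : ℕ} {bs : List W} {ds : List (W × List (ℤ × W))} (hv : Van n bs)
    (ok : dualOK n bs ds = true) : Mg n ds := by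
  simp only [dualOK, Bool.and_eq_true, List.all_eq_true, decide_eq_true_eq] at ok
  refine ⟨ok.1, fun A _ f h u hu => ?_⟩
  rw [← sub_eq_zero]
  refine hv A (fun u => f u - dsum (ser u) (fun w => f (LR w)) ds) ⟨fun u hu v hv => ?_,
    fun u hu => ?_⟩ (fun w hw => ?_) u hu
  · rw [h.add u hu v hv, dsum_congr (c' := fun m => ser u m + 1 * ser v m) _ _ fun a ha => by
      rw [one_mul]; exact (ser_hom (ok.1 a ha)).add u hu v hv, dsum_lin, one_smul]
    abel
  · rw [h.kill u hu, dsum_congr (c' := fun _ => 0) _ _ fun a ha => (ser_hom (ok.1 a ha)).kill u hu,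
      dsum_zero, sub_zero]
  · have := evT_isZ _ (fun w => f (LR w)) (ok.2 w hw).2
    rw [evT_ins, evT_dT] at this
    rw [dsum_congr (c' := cth w) _ _ fun a ha => ser_LR n w _ (ok.2 w hw).1 (ok.1 a ha),
      ← neg_eq_zero, ← this]
    simp [sub_eq_add_neg]

lemma Mg.step {n : ℕ} {ds : List (W × List (ℤ × W))} (h : Mg n ds) (hD : D (n + 1) ≤ Γ F n) :
    D (n + 2) ≤ Γ F (n + 1) := by
  intro u hu
  have h1 : u ∈ Γ F n := hD (J_mono hu (by omega))
  obtain ⟨A, _, f, hf, hk, -⟩ := exists_univ n (Γ F (n + 1)) le_rfl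
  rw [← hk u h1, h.2 _ f hf u h1, dsum_congr (c' := fun _ => 0) _ _ fun a ha =>
    ser_D hu (by intro e; simpa [e] using h.1 a ha) (by rw [h.1 a ha]; omega), dsum_zero]

lemma dsum_mem (c : W → ℤ) (val : W → A) (S : AddSubgroup A) (l : List (W × List (ℤ × W)))
    (h : ∀ a ∈ l, evL val a.2 ∈ S) : dsum c val l ∈ S := by
  induction l with
  | nil => exact zero_mem _
  | cons a l ih => exact add_mem (S.zsmul_mem (h a (by simp)) _) (ih fun b hb => h b (by simp [hb]))

lemma dsum_delta (val : W → A) (l : List (W × List (ℤ × W))) (hl : (l.map Prod.fst).Nodup)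
    {a : W × List (ℤ × W)} (ha : a ∈ l) :
    dsum (fun m => if m = a.1 then 1 else 0) val l = evL val a.2 := by
  induction l with
  | nil => simp at ha
  | cons b l ih =>
    rw [List.map_cons, List.nodup_cons] at hl
    rcases List.mem_cons.1 ha with rfl | ha
    · rw [dsum, dsum_congr (c' := fun _ => 0) _ _ fun b hb => if_neg fun e : b.1 = a.1 =>
        hl.1 (e ▸ List.mem_map_of_mem hb), dsum_zero]
      simp
    · rw [dsum, ih hl.2 ha, if_neg fun e : b.1 = a.1 => hl.1 (e ▸ List.mem_map_of_mem ha)]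
      simp

/-- A Nakayama argument. -/
lemma Mg.nak {n : ℕ} {ds : List (W × List (ℤ × W))} (h : Mg n ds) (hl : (ds.map Prod.fst).Nodup)
    (M : Subgroup F) [M.Normal] (hM : Γ F (n + 1) ≤ M) {e : ℕ} (he : ∀ u : F, u ^ 2 ^ e ∈ M)
    (hu : ∀ a ∈ ds, ∃ u ∈ Γ F n, u ∈ M ∧
      ∀ b ∈ ds, ser u b.1 % 2 = if b.1 = a.1 then 1 else 0) : Γ F n ≤ M := by
  obtain ⟨A, _, f, hf, hk, hx⟩ := exists_univ n M hM
  set S := AddSubgroup.closure {y | ∃ a ∈ ds, evL (fun w => f (LR w)) a.2 = y}
  have hS : ∀ c, dsum c (fun w => f (LR w)) ds ∈ S := fun c =>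
    dsum_mem c _ S ds fun a ha => AddSubgroup.subset_closure ⟨a, ha, rfl⟩
  have h2 : ∀ s ∈ S, ∃ t ∈ S, s = 2 • t := by
    intro s hs
    induction hs using AddSubgroup.closure_induction with
    | mem y hy =>
      obtain ⟨a, ha, rfl⟩ := hy
      obtain ⟨u, h1, h2, h3⟩ := hu a ha
      have h4 := h.2 A f hf u h1
      rw [(hk u h1).2 h2, dsum_congr (c' := fun m => (if m = a.1 then 1 else 0) +
        2 * (ser u m / 2)) _ _ fun b hb => by rw [← h3 b hb, Int.emod_add_mul_ediv], dsum_lin,
        dsum_delta _ _ hl ha] at h4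
      refine ⟨_, neg_mem (hS fun m => ser u m / 2), ?_⟩
      rw [smul_neg, eq_neg_iff_add_eq_zero, h4, two_smul, two_smul]
    | zero => exact ⟨0, zero_mem _, by simp⟩
    | add x y _ _ hx hy =>
      obtain ⟨s, hs, rfl⟩ := hx
      obtain ⟨t, ht, rfl⟩ := hy
      exact ⟨s + t, add_mem hs ht, by rw [smul_add]⟩
    | neg x _ hx =>
      obtain ⟨s, hs, rfl⟩ := hx
      exact ⟨-s, neg_mem hs, by rw [smul_neg]⟩
  have h3 : ∀ k : ℕ, ∀ s ∈ S, ∃ t ∈ S, s = 2 ^ k • t := by
    intro k
    induction k with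
    | zero => exact fun s hs => ⟨s, hs, by simp⟩
    | succ k ih =>
      intro s hs
      obtain ⟨t, ht, rfl⟩ := ih s hs
      obtain ⟨r, hr, rfl⟩ := h2 t ht
      exact ⟨r, hr, by rw [pow_succ, mul_smul]⟩
  intro u hu
  obtain ⟨t, -, ht⟩ := h3 e _ (hS (ser u))
  rw [← hk u hu, h.2 A f hf u hu, ht, hx _ he]

end Pool.Agent.Lib.MP_3b0e0c_al
end
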