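import Pool.Agent.Lib.MP_3b0e0c_al.Mag

/-! Magnus' theorem for the free group of rank two up to weight nine. -/

namespace Pool.Agent.Lib.MP_3b0e0c_al

/-- Binary digits below the leading one. -/
def wF : ℕ → ℕ → W
  | 0, _ => []
  | f + 1, n => if n ≤ 1 then [] else decide (n % 2 = 1) :: wF f (n / 2)

/-- The word coded by a number. -/
def wN (n : ℕ) : W := wF 10 n

/-- Decoding of dual bases. -/
def dN (a : ℕ × List (ℤ × ℕ)) : W × List (ℤ × W) := (wN a.1, a.2.map fun b => (b.1, wN b.2))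

/-- Spanning words. -/
def bs0 : List W := List.map wN [
  2, 3]

/-- Dual bases. -/
def ds0 : List (W × List (ℤ × W)) := List.map dN [
  (2, [(1, 2)]),
  (3, [(1, 3)])]

/-- Spanning words. -/
def bs1 : List W := List.map wN [
  5]

/-- Relations. -/
def cs1 : List Cert := [(wN 4, [], [(1, wN 2, wN 2, wN 1)]),
  (wN 6, [(-1, wN 5)], [(1, wN 3, wN 2, wN 1)]),
  (wN 7, [], [(1, wN 3, wN 3, wN 1)])]

/-- Dual bases. -/
def ds1 : List (W × List (ℤ × W)) := List.map dN [
  (6, [(1, 5)])]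

/-- Spanning words. -/
def bs2 : List W := List.map wN [
  10, 11]

/-- Relations. -/
def cs2 : List Cert := []

/-- Dual bases. -/
def ds2 : List (W × List (ℤ × W)) := List.map dN [
  (12, [(-1, 10)]),
  (14, [(1, 11)])]

/-- Spanning words. -/
def bs3 : List W := List.map wN [
  20, 21, 23]

/-- Relations. -/
def cs3 : List Cert := [(wN 22, [(1, wN 21)], [(-1, wN 5, wN 5, wN 1)])]

/-- Dual bases. -/
def ds3 : List (W × List (ℤ × W)) := List.map dN [
  (24, [(1, 20)]),
  (28, [(-1, 21)]),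
  (30, [(1, 23)])]

/-- Spanning words. -/
def bs4 : List W := List.map wN [
  40, 41, 42, 43, 46, 47]

/-- Relations. -/
def cs4 : List Cert := []

/-- Dual bases. -/
def ds4 : List (W × List (ℤ × W)) := List.map dN [
  (48, [(-1, 40)]),
  (56, [(-2, 41), (3, 42)]),
  (52, [(-1, 41), (1, 42)]),
  (60, [(-3, 43), (2, 46)]),
  (58, [(-1, 43), (1, 46)]),
  (62, [(1, 47)])]

/-- Spanning words. -/
def bs5 : List W := List.map wN [
  80, 81, 82, 83, 85, 86, 87, 93, 95]

/-- Relations. -/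
def cs5 : List Cert := [(wN 84, [(2, wN 82), (-1, wN 81)], [(-1, wN 10, wN 10, wN 1)]),
  (wN 94, [(-1, wN 87), (2, wN 93)], [(1, wN 11, wN 11, wN 1), (1, wN 5, wN 5, wN 7)]),
  (wN 92, [(1, wN 83), (-3, wN 85), (3, wN 86)], [(-1, wN 11, wN 10, wN 1), (-2, wN 5, wN 5, wN 5), (1, wN 5, wN 5, wN 6)])]

/-- Dual bases. -/
def ds5 : List (W × List (ℤ × W)) := List.map dN [
  (96, [(1, 80)]),
  (112, [(3, 81), (-4, 82)]),
  (104, [(1, 81), (-1, 82)]),
  (120, [(-2, 83), (3, 86)]),
  (116, [(-1, 83), (1, 86)]),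
  (108, [(-1, 85), (1, 86)]),
  (124, [(-3, 87), (2, 93)]),
  (122, [(-1, 87), (1, 93)]),
  (126, [(1, 95)])]

/-- Spanning words. -/
def bs6 : List W := List.map wN [
  160, 161, 162, 163, 164, 165, 166, 167, 170, 171, 172, 173, 174, 175, 186, 187, 190, 191]

/-- Relations. -/
def cs6 : List Cert := []

/-- Dual bases. -/
def ds6 : List (W × List (ℤ × W)) := List.map dN [
  (192, [(-1, 160)]),
  (224, [(6, 161), (-15, 162), (10, 164)]),
  (208, [(3, 161), (-7, 162), (4, 164)]),
  (240, [(-15, 163), (24, 165), (8, 166), (-24, 170), (6, 172)]),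
  (200, [(1, 161), (-2, 162), (1, 164)]),
  (232, [(-8, 163), (12, 165), (5, 166), (-12, 170), (3, 172)]),
  (216, [(-3, 163), (4, 165), (2, 166), (-3, 170)]),
  (248, [(16, 167), (-54, 171), (36, 173), (21, 174), (-18, 186)]),
  (228, [(-3, 163), (4, 165), (2, 166), (-4, 170), (1, 172)]),
  (212, [(-1, 163), (1, 165), (1, 166), (-1, 170)]),
  (244, [(5, 167), (-18, 171), (12, 173), (7, 174), (-6, 186)]),
  (236, [(2, 167), (-7, 171), (4, 173), (3, 174), (-2, 186)]),
  (220, [(2, 167), (-6, 171), (3, 173), (3, 174), (-2, 186)]),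
  (252, [(-15, 175), (20, 187), (-6, 190)]),
  (234, [(-1, 167), (3, 171), (-2, 173), (-1, 174), (1, 186)]),
  (250, [(-7, 175), (10, 187), (-3, 190)]),
  (246, [(-2, 175), (3, 187), (-1, 190)]),
  (254, [(1, 191)])]

/-- Spanning words. -/
def bs7 : List W := List.map wN [
  320, 321, 322, 323, 324, 325, 326, 327, 329, 330, 331, 332, 333, 334, 335, 340, 341, 342, 343,
  345, 346, 347, 349, 350, 351, 373, 374, 375, 381, 383]

/-- Relations. -/
def cs7 : List Cert := [(wN 328, [(3, wN 324), (-3, wN 322), (1, wN 321)], [(-1, wN 20, wN 20, wN 1)]),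
  (wN 348, [(-2, wN 341), (2, wN 346), (2, wN 331), (-1, wN 327)], [(1, wN 21, wN 21, wN 1), (-1, wN 10, wN 10, wN 7)]),
  (wN 382, [(-5, wN 375), (3, wN 351), (3, wN 381)], [(-1, wN 23, wN 23, wN 1), (-3, wN 11, wN 11, wN 7), (-3, wN 5, wN 5, wN 31)]),
  (wN 344, [(1, wN 325), (-8, wN 330), (-1, wN 323), (1, wN 332), (3, wN 340), (3, wN 326), (2, wN 329)], [(-1, wN 21, wN 20, wN 1), (3, wN 10, wN 10, wN 5), (-1, wN 10, wN 10, wN 6)]),
  (wN 380, [(-4, wN 343), (6, wN 347), (-3, wN 349), (-1, wN 350), (-2, wN 373), (4, wN 374), (1, wN 335)], [(1, wN 23, wN 21, wN 1), (2, wN 11, wN 11, wN 5), (2, wN 5, wN 5, wN 23), (-1, wN 11, wN 10, wN 7), (-2, wN 5, wN 5, wN 29), (1, wN 5, wN 5, wN 30)]),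
  (wN 372, [(1, wN 331), (-4, wN 333), (4, wN 334), (-9, wN 342), (7, wN 346), (5, wN 341), (-3, wN 345)], [(1, wN 23, wN 20, wN 1), (-3, wN 11, wN 10, wN 5), (-6, wN 5, wN 5, wN 21), (3, wN 5, wN 5, wN 22), (1, wN 11, wN 10, wN 6), (2, wN 5, wN 5, wN 25), (-1, wN 5, wN 5, wN 26), (1, wN 11, wN 11, wN 4), (1, wN 5, wN 5, wN 19), (-1, wN 21, wN 21, wN 1), (1, wN 10, wN 10, wN 7)])]

/-- Dual bases. -/
def ds7 : List (W × List (ℤ × W)) := List.map dN [
  (384, [(1, 320)]),
  (448, [(-10, 321), (24, 322), (-15, 324)]),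
  (416, [(-4, 321), (9, 322), (-5, 324)]),
  (480, [(6, 323), (-60, 325), (105, 326), (60, 329), (-120, 330), (-50, 332), (60, 340)]),
  (400, [(-1, 321), (2, 322), (-1, 324)]),
  (464, [(3, 323), (-24, 325), (41, 326), (24, 329), (-48, 330), (-20, 332), (24, 340)]),
  (432, [(-3, 325), (9, 326), (6, 329), (-16, 330), (-2, 332), (6, 340)]),
  (496, [(-15, 327), (24, 331), (8, 334), (12, 341), (-36, 342), (-18, 345), (24, 346)]),
  (456, [(1, 323), (-6, 325), (10, 326), (6, 329), (-12, 330), (-5, 332), (6, 340)]),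
  (424, [(1, 325), (-1, 326), (-1, 330), (1, 332)]),
  (488, [(-8, 327), (12, 331), (5, 334), (6, 341), (-18, 342), (-9, 345), (12, 346)]),
  (408, [(-3, 325), (6, 326), (4, 329), (-8, 330), (-2, 332), (3, 340)]),
  (472, [(-3, 327), (4, 331), (2, 334), (-3, 342)]),
  (440, [(-2, 333), (2, 334), (3, 345), (-3, 346)]),
  (504, [(-74, 335), (216, 343), (-144, 347), (-168, 349), (99, 350), (168, 373), (-96, 374)]),
  (420, [(1, 325), (-2, 326), (-1, 329), (2, 330), (1, 332), (-1, 340)]),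
  (484, [(-3, 327), (4, 331), (2, 334), (2, 341), (-6, 342), (-3, 345), (4, 346)]),
  (468, [(-1, 327), (1, 331), (1, 334), (-1, 342)]),
  (436, [(-1, 333), (1, 334), (1, 345), (-1, 346)]),
  (500, [(-25, 335), (72, 343), (-48, 347), (-56, 349), (33, 350), (56, 373), (-32, 374)]),
  (428, [(-1, 341), (1, 342), (1, 345), (-1, 346)]),
  (492, [(-12, 335), (35, 343), (-24, 347), (-28, 349), (17, 350), (28, 373), (-16, 374)]),
  (476, [(-10, 335), (30, 343), (-21, 347), (-24, 349), (15, 350), (24, 373), (-14, 374)]),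
  (444, [(-6, 335), (18, 343), (-12, 347), (-15, 349), (9, 350), (14, 373), (-8, 374)]),
  (508, [(-15, 351), (20, 375), (-6, 381)]),
  (490, [(3, 335), (-9, 343), (6, 347), (7, 349), (-4, 350), (-7, 373), (4, 374)]),
  (474, [(1, 335), (-3, 343), (2, 347), (2, 349), (-1, 350), (-2, 373), (1, 374)]),
  (506, [(-7, 351), (10, 375), (-3, 381)]),
  (502, [(-2, 351), (3, 375), (-1, 381)]),
  (510, [(1, 383)])]

/-- Spanning words. -/
def bs8 : List W := List.map wN [
  640, 641, 642, 643, 644, 645, 646, 647, 648, 649, 650, 651, 652, 653, 654, 655, 658, 659, 660,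
  661, 662, 663, 664, 665, 666, 667, 668, 669, 670, 671, 681, 682, 683, 684, 685, 686, 687, 690,
  691, 693, 694, 695, 698, 699, 700, 701, 702, 703, 746, 747, 749, 750, 751, 763, 766, 767]

/-- Relations. -/
def cs8 : List Cert := [(wN 680, [(7, wN 650), (-8, wN 645), (4, wN 660), (-1, wN 646), (3, wN 643), (1, wN 664), (-4, wN 652), (-6, wN 658), (5, wN 649)], [(-1, wN 42, wN 20, wN 1), (-3, wN 10, wN 10, wN 9), (3, wN 10, wN 10, wN 10), (-1, wN 10, wN 10, wN 12), (-2, wN 20, wN 20, wN 3)]),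
  (wN 748, [(-2, wN 686), (2, wN 663), (-1, wN 655), (3, wN 694), (-6, wN 683), (-3, wN 698), (9, wN 685), (1, wN 700), (-2, wN 669), (-6, wN 693), (2, wN 746), (1, wN 667), (3, wN 691)], [(1, wN 46, wN 21, wN 1), (-1, wN 10, wN 10, wN 15), (2, wN 11, wN 10, wN 13), (4, wN 5, wN 5, wN 53), (-2, wN 5, wN 5, wN 54), (-1, wN 11, wN 10, wN 14), (-2, wN 5, wN 5, wN 57), (1, wN 5, wN 5, wN 58)]),
  (wN 762, [(-1, wN 687), (4, wN 695), (-7, wN 699), (6, wN 701), (-4, wN 702), (-4, wN 749), (2, wN 747), (5, wN 750)], [(1, wN 47, wN 21, wN 1), (-2, wN 11, wN 11, wN 13), (-2, wN 5, wN 5, wN 55), (1, wN 11, wN 11, wN 14), (1, wN 5, wN 5, wN 59), (1, wN 23, wN 23, wN 2), (3, wN 11, wN 11, wN 11), (3, wN 5, wN 5, wN 47)]),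
  (wN 692, [(-3, wN 651), (12, wN 661), (-2, wN 666), (2, wN 647), (-3, wN 659), (-2, wN 665), (1, wN 668), (3, wN 690), (-3, wN 681), (-3, wN 653), (-2, wN 682), (2, wN 662), (-1, wN 654)], [(1, wN 43, wN 20, wN 1), (1, wN 21, wN 20, wN 3), (-3, wN 10, wN 10, wN 13), (1, wN 10, wN 10, wN 14), (1, wN 21, wN 21, wN 2), (-1, wN 10, wN 10, wN 11)])]

/-- Dual bases. -/
def ds8 : List (W × List (ℤ × W)) := List.map dN [
  (768, [(-1, 640)]),
  (896, [(-20, 641), (70, 642), (-84, 644), (35, 648)]),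
  (832, [(-10, 641), (34, 642), (-39, 644), (15, 648)]),
  (960, [(-30, 643), (120, 645), (-36, 646), (-120, 649), (45, 652), (120, 658), (-120, 660), (20, 664)]),
  (800, [(-4, 641), (13, 642), (-14, 644), (5, 648)]),
  (928, [(-14, 643), (60, 645), (-21, 646), (-60, 649), (25, 652), (60, 658), (-60, 660), (10, 664)]),
  (864, [(-10, 643), (36, 645), (-6, 646), (-30, 649), (-15, 650), (15, 652), (30, 658), (-20, 660)]),
  (992, [(96, 647), (90, 651), (-360, 653), (-285, 654), (-360, 659), (720, 661), (360, 662), (-360, 665), (720, 666), (-260, 668), (180, 681), (-900, 682), (270, 684), (90, 690)]),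
  (784, [(-1, 641), (3, 642), (-3, 644), (1, 648)]),
  (912, [(-5, 643), (24, 645), (-10, 646), (-24, 649), (11, 652), (24, 658), (-24, 660), (4, 664)]),
  (848, [(-4, 643), (15, 645), (-3, 646), (-12, 649), (-7, 650), (7, 652), (12, 658), (-8, 660)]),
  (976, [(39, 647), (36, 651), (-144, 653), (-115, 654), (-144, 659), (288, 661), (144, 662), (-144, 665), (288, 666), (-104, 668), (72, 681), (-360, 682), (108, 684), (36, 690)]),
  (816, [(-4, 643), (12, 645), (-9, 649), (-6, 650), (3, 652), (8, 658), (-4, 660)]),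
  (944, [(18, 647), (15, 651), (-72, 653), (-45, 654), (-66, 659), (144, 661), (56, 662), (-60, 665), (120, 666), (-44, 668), (24, 681), (-156, 682), (48, 684), (18, 690)]),
  (880, [(6, 647), (18, 651), (-45, 653), (-21, 654), (-36, 659), (72, 661), (24, 662), (-30, 665), (80, 666), (-32, 668), (18, 681), (-96, 682), (36, 684), (6, 690)]),
  (1008, [(189, 655), (-288, 663), (-384, 667), (288, 669), (104, 670), (864, 683), (-576, 685), (-288, 686), (-252, 691), (144, 693), (72, 694), (240, 698), (-18, 700), (-96, 746)]),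
  (904, [(-1, 643), (6, 645), (-3, 646), (-6, 649), (3, 652), (6, 658), (-6, 660), (1, 664)]),
  (840, [(-1, 643), (4, 645), (-1, 646), (-3, 649), (-2, 650), (2, 652), (3, 658), (-2, 660)]),
  (968, [(10, 647), (9, 651), (-36, 653), (-29, 654), (-36, 659), (72, 661), (36, 662), (-36, 665), (72, 666), (-26, 668), (18, 681), (-90, 682), (27, 684), (9, 690)]),
  (808, [(-1, 643), (3, 645), (-2, 649), (-2, 650), (1, 652), (2, 658), (-1, 660)]),
  (936, [(3, 647), (1, 651), (-12, 653), (-4, 654), (-9, 659), (24, 661), (5, 662), (-6, 665), (12, 666), (-5, 668), (-18, 682), (6, 684), (3, 690)]),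
  (872, [(6, 651), (-11, 653), (-1, 654), (-6, 659), (12, 661), (-3, 665), (17, 666), (-8, 668), (3, 681), (-18, 682), (9, 684)]),
  (1000, [(94, 655), (-144, 663), (-192, 667), (144, 669), (53, 670), (432, 683), (-288, 685), (-144, 686), (-126, 691), (72, 693), (36, 694), (120, 698), (-9, 700), (-48, 746)]),
  (920, [(6, 647), (3, 651), (-24, 653), (-12, 654), (-20, 659), (48, 661), (16, 662), (-18, 665), (36, 666), (-14, 668), (6, 681), (-48, 682), (15, 684), (6, 690)]),
  (856, [(3, 647), (3, 651), (-15, 653), (-6, 654), (-12, 659), (28, 661), (8, 662), (-9, 665), (20, 666), (-8, 668), (3, 681), (-27, 682), (9, 684), (3, 690)]),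
  (984, [(27, 655), (-44, 663), (-48, 667), (36, 669), (14, 670), (114, 683), (-72, 685), (-33, 686), (-27, 691), (12, 693), (36, 698), (-3, 700), (-12, 746)]),
  (824, [(3, 647), (3, 651), (-12, 653), (-9, 654), (-12, 659), (24, 661), (12, 662), (-11, 665), (22, 666), (-8, 668), (6, 681), (-30, 682), (9, 684), (3, 690)]),
  (952, [(-12, 655), (12, 663), (46, 667), (-36, 669), (-10, 670), (-84, 683), (72, 685), (36, 686), (39, 691), (-36, 693), (-27, 694), (-12, 698), (12, 746)]),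
  (888, [(-21, 655), (24, 663), (72, 667), (-56, 669), (-16, 670), (-132, 683), (108, 685), (54, 686), (54, 691), (-48, 693), (-36, 694), (-21, 698), (18, 746)]),
  (1016, [(-92, 671), (270, 687), (-180, 695), (-60, 699), (-180, 701), (153, 702), (60, 747), (180, 749), (-150, 750)]),
  (932, [(-1, 647), (-2, 651), (4, 653), (5, 654), (5, 659), (-8, 661), (-6, 662), (6, 665), (-12, 666), (4, 668), (-4, 681), (14, 682), (-4, 684), (-1, 690)]),
  (868, [(-1, 647), (1, 651), (3, 654), (2, 659), (-4, 661), (-4, 662), (3, 665), (-2, 666), (-1, 681), (4, 682), (-1, 690)]),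
  (996, [(31, 655), (-48, 663), (-64, 667), (48, 669), (18, 670), (144, 683), (-96, 685), (-48, 686), (-42, 691), (24, 693), (12, 694), (40, 698), (-3, 700), (-16, 746)]),
  (916, [(-1, 651), (2, 654), (1, 659), (-2, 662), (2, 665), (-4, 666), (1, 668), (-2, 681), (4, 682), (-1, 684)]),
  (852, [(-1, 653), (1, 654), (1, 661), (-1, 662), (1, 665), (-1, 666), (-1, 681), (1, 682)]),
  (980, [(9, 655), (-15, 663), (-16, 667), (12, 669), (5, 670), (38, 683), (-24, 685), (-11, 686), (-9, 691), (4, 693), (12, 698), (-1, 700), (-4, 746)]),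
  (948, [(-4, 655), (4, 663), (15, 667), (-12, 669), (-3, 670), (-28, 683), (24, 685), (12, 686), (13, 691), (-12, 693), (-9, 694), (-4, 698), (4, 746)]),
  (884, [(-7, 655), (8, 663), (24, 667), (-19, 669), (-5, 670), (-44, 683), (36, 685), (18, 686), (18, 691), (-16, 693), (-12, 694), (-7, 698), (6, 746)]),
  (1012, [(-31, 671), (90, 687), (-60, 695), (-20, 699), (-60, 701), (51, 702), (20, 747), (60, 749), (-50, 750)]),
  (972, [(22, 655), (-28, 663), (-64, 667), (48, 669), (16, 670), (122, 683), (-96, 685), (-46, 686), (-45, 691), (40, 693), (24, 694), (24, 698), (-1, 700), (-16, 746)]),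
  (940, [(-1, 683), (1, 686), (1, 691), (-1, 694)]),
  (876, [(-3, 655), (4, 663), (8, 667), (-6, 669), (-2, 670), (-16, 683), (11, 685), (7, 686), (6, 691), (-4, 693), (-4, 694), (-3, 698), (2, 746)]),
  (1004, [(-18, 671), (53, 687), (-36, 695), (-12, 699), (-36, 701), (31, 702), (12, 747), (36, 749), (-30, 750)]),
  (860, [(-3, 655), (4, 663), (8, 667), (-6, 669), (-2, 670), (-16, 683), (12, 685), (6, 686), (6, 691), (-5, 693), (-3, 694), (-3, 698), (2, 746)]),
  (988, [(-16, 671), (48, 687), (-33, 695), (-12, 699), (-30, 701), (27, 702), (12, 747), (30, 749), (-26, 750)]),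
  (956, [(-12, 671), (36, 687), (-24, 695), (-11, 699), (-20, 701), (19, 702), (10, 747), (20, 749), (-18, 750)]),
  (892, [(-6, 671), (18, 687), (-12, 695), (-4, 699), (-13, 701), (11, 702), (4, 747), (12, 749), (-10, 750)]),
  (1020, [(-175, 703), (280, 751), (-126, 763), (20, 766)]),
  (938, [(-1, 655), (1, 663), (4, 667), (-3, 669), (-1, 670), (-7, 683), (6, 685), (3, 686), (3, 691), (-3, 693), (-2, 694), (-1, 698), (1, 746)]),
  (1002, [(3, 671), (-9, 687), (6, 695), (2, 699), (6, 701), (-5, 702), (-2, 747), (-6, 749), (5, 750)]),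
  (986, [(1, 671), (-3, 687), (2, 695), (3, 701), (-2, 702), (-3, 749), (2, 750)]),
  (954, [(-1, 699), (2, 701), (-1, 702), (1, 747), (-2, 749), (1, 750)]),
  (1018, [(-87, 703), (140, 751), (-63, 763), (10, 766)]),
  (1014, [(-34, 703), (55, 751), (-25, 763), (4, 766)]),
  (1006, [(-8, 703), (13, 751), (-6, 763), (1, 766)]),
  (1022, [(1, 767)])]

lemma van0 : Van 0 bs0 := van_zero
lemma van1 : Van 1 bs1 := van0.step (cs := cs1) (by decide +kernel)
lemma van2 : Van 2 bs2 := van1.step (cs := cs2) (by decide +kernel)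
lemma van3 : Van 3 bs3 := van2.step (cs := cs3) (by decide +kernel)
lemma van4 : Van 4 bs4 := van3.step (cs := cs4) (by decide +kernel)
lemma van5 : Van 5 bs5 := van4.step (cs := cs5) (by decide +kernel)
lemma van6 : Van 6 bs6 := van5.step (cs := cs6) (by decide +kernel)
lemma van7 : Van 7 bs7 := van6.step (cs := cs7) (by decide +kernel)
lemma van8 : Van 8 bs8 := van7.step (cs := cs8) (by decide +kernel)
lemma mg0 : Mg 0 ds0 := van0.mg (by decide +kernel)
lemma mg1 : Mg 1 ds1 := van1.mg (by decide +kernel)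
lemma mg2 : Mg 2 ds2 := van2.mg (by decide +kernel)
lemma mg3 : Mg 3 ds3 := van3.mg (by decide +kernel)
lemma mg4 : Mg 4 ds4 := van4.mg (by decide +kernel)
lemma mg5 : Mg 5 ds5 := van5.mg (by decide +kernel)
lemma mg6 : Mg 6 ds6 := van6.mg (by decide +kernel)
lemma mg7 : Mg 7 ds7 := van7.mg (by decide +kernel)
lemma mg8 : Mg 8 ds8 := van8.mg (by decide +kernel)

lemma D8_le : D 8 ≤ Γ F 7 :=
  mg6.step <| mg5.step <| mg4.step <| mg3.step <| mg2.step <| mg1.step <| mg0.step le_top

lemma D9_le : D 9 ≤ Γ F 8 := mg7.step D8_le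

end Pool.Agent.Lib.MP_3b0e0c_al
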