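import Pool.Agent.Lib.MP_3b0e0c_al.ProgAB
import Pool.Agent.Lib.MP_3b0e0c_al.Coset

/-! Two-generator subgroups of class at most nine. -/

namespace Pool.Agent.Lib.MP_3b0e0c_al

open Subgroup
open scoped commutatorElement

variable {H : Type*} [Group H]

lemma central9 {x g : H} (h9 : (closure {x, g}).lowerCentralSeries 9 = ⊥) {n : ℕ}
    (hc : ∀ (a b : closure ({x, g} : Set H)), (a : H) = x →
      (closure {QuotientGroup.mk' (center _) a, QuotientGroup.mk' (center _) b *
        QuotientGroup.mk' (center _) a * (QuotientGroup.mk' (center _) b)⁻¹}).lowerCentralSeries 7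
        = ⊥ → Commute (QuotientGroup.mk' (center _) a ^ n) ((QuotientGroup.mk' (center _) b *
        QuotientGroup.mk' (center _) a * (QuotientGroup.mk' (center _) b)⁻¹) ^ n)) :
    Commute ⁅x ^ n, g * x ^ n * g⁻¹⁆ g := by
  let a : closure ({x, g} : Set H) := ⟨x, subset_closure (by simp)⟩
  let b : closure ({x, g} : Set H) := ⟨g, subset_closure (by simp)⟩
  have h8 : (closure {QuotientGroup.mk' (center _) a,
      QuotientGroup.mk' (center _) b}).lowerCentralSeries 8 = ⊥ := by
    rw [← Set.image_pair, ← MonoidHom.map_closure, ← map_lowerCentralSeries,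
      Subgroup.map_eq_bot_iff,
      QuotientGroup.ker_mk']
    intro u hu
    have h1 : (u : H) ∈ (closure {x, g}).lowerCentralSeries 8 := by
      have := mem_map_of_mem (closure ({x, g} : Set H)).subtype hu
      rwa [map_lowerCentralSeries, MonoidHom.map_closure, Set.image_pair] at this
    refine mem_center_iff.2 fun k => Subtype.ext ?_
    have := commutator_mem_commutator h1 k.2
    rw [← Subgroup.lowerCentralSeries_succ, h9, mem_bot,
      commutatorElement_eq_one_iff_mul_comm] at this
    exact this.symm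
  have h1 := hc a b rfl (conj_class h8)
  rw [conj_pow, ← map_pow, ← map_inv, ← map_mul, ← map_mul,
    ← commutatorElement_eq_one_iff_commute, ← map_commutatorElement] at h1
  have h2 := mem_center_iff.1 ((QuotientGroup.eq_one_iff _).1 h1) b
  exact (congrArg Subtype.val h2).symm

theorem LF_of_nine (h2 : IsPGroup 2 H)
    (h : ∀ x g : H, (closure {x, g}).lowerCentralSeries 9 = ⊥) : LF (⊤ : Subgroup H) := by
  have hq := h2.to_quotient (rad H)
  have h9 : ∀ x g : H ⧸ rad H, (closure {x, g}).lowerCentralSeries 9 = ⊥ := by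
    intro x g
    obtain ⟨x, rfl⟩ := QuotientGroup.mk'_surjective _ x
    obtain ⟨g, rfl⟩ := QuotientGroup.mk'_surjective _ g
    have := congrArg (Subgroup.map (QuotientGroup.mk' (rad H))) (h x g)
    rwa [Subgroup.map_lowerCentralSeries, MonoidHom.map_closure, Set.image_pair,
      Subgroup.map_bot] at this
  have triv : ∀ s : H ⧸ rad H, s ^ 2 = 1 → (∀ g, Commute ⁅s, g * s * g⁻¹⁆ g) → s = 1 :=
    fun s hs h => quot_triv (LF_coset (tors hq) hs h) (subset_normalClosure rfl)
  have h8 : ∀ u : H ⧸ rad H, u ^ 8 = 1 := fun u => by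
    obtain ⟨k, hk⟩ := hq u
    refine descend (c := 8) (fun j e => ?_) hk
    rw [mul_comm, pow_mul]
    have e1 : (u ^ j) ^ 16 = 1 := by rw [← e, ← pow_mul]; congr 1; ring
    refine triv _ (by rw [← pow_mul, e1]) fun g => central9 (h9 _ g) fun a b ha h7 => ?_
    have e2 : QuotientGroup.mk' (center _) a ^ 16 = 1 := by
      rw [← map_pow, show a ^ 16 = 1 from Subtype.ext (by rw [coe_pow, ha, e1]; rfl), map_one]
    exact commA ((hq.to_subgroup _).to_quotient _) h7 e2 (by rw [conj_pow, e2]; simp)
  have h4 : ∀ u : H ⧸ rad H, u ^ 4 = 1 := fun u =>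
    triv _ (by rw [← pow_mul, h8]) fun g => central9 (h9 _ g) fun a b _ h7 => commB h7 fun v => by
      obtain ⟨v, rfl⟩ := QuotientGroup.mk'_surjective _ v
      rw [← map_pow, show v ^ 8 = 1 from Subtype.ext (h8 _), map_one]
  have hk : LF (QuotientGroup.mk' (rad H)).ker := by rw [QuotientGroup.ker_mk']; exact LF_rad
  have := LF.comap _ hk (sanov h4)
  rwa [comap_top] at this

end Pool.Agent.Lib.MP_3b0e0c_al
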