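import Pool.Agent.Lib.MP_3b0e0c_al.Eng
import Pool.Agent.Lib.MP_3b0e0c_al.MagData
import Pool.Agent.Lib.MP_3b0e0c_al.LF

/-! Two commutator identities in nilpotent groups of class seven, and the main theorem. -/

namespace Pool.Agent.Lib.MP_3b0e0c_al

open Subgroup
open scoped commutatorElement

/-- The word `[a ^ n, b ^ n]`. -/
def cw (n : ℕ) : List (Bool × Bool) :=
  List.replicate n (false, true) ++ (List.replicate n (true, true) ++
    (List.replicate n (false, false) ++ List.replicate n (true, false)))

/-- Parameters for elements of order sixteen. -/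
def parA : Par :=
  ⟨2 ^ 143 + 12345, 7, 4, cw 8, fun w n => decide (w.length = 1) && decide (n = 4), false⟩

/-- Parameters for exponent eight. -/
def parB : Par := ⟨2 ^ 386 + 12345, 7, 4, cw 4, fun _ n => decide (n = 3), false⟩

/-- The program for elements of order sixteen. -/
def progA : List Op := [
  .rel [(false,true)] 4, .rel [(true,true)] 4, .rel [(false,false)] 4, .cj 0 true true, .mul 3 0,
  .rel [(true,false)] 4, .cj 0 false true, .mul 5 0, .cj 7 true true, .mul 0 6, .cj 0 false true,
  .mul 6 0, .cj 2 true true, .mul 8 0, .mul 6 9, .cj 13 false true, .mul 0 10, .mul 7 0,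
  .cj 0 false true, .mul 4 0, .cj 2 true true, .mul 6 0, .mul 10 10, .mul 0 11, .mul 0 0,
  .mul 0 13, .mul 0 0, .mul 0 15, .mul 13 13, .mul 1 0, .mul 12 12, .cj 26 false true, .mul 0 22,
  .mul 0 0, .mul 1 0, .mul 0 0, .mul 3 0, .mul 0 0, .mul 5 0, .mul 8 0, .cj 0 false true,
  .mul 11 0, .cj 2 true true, .mul 13 0, .mul 30 30, .mul 0 31, .mul 0 0, .mul 0 33, .mul 0 0,
  .mul 0 35, .mul 0 10, .tg, .mul 42 42, .mul 0 0, .mul 2 0, .mul 0 0, .mul 0 1, .mul 0 0,
  .mul 0 3, .mul 0 0, .mul 0 5, .mul 32 32, .mul 0 0, .mul 0 0, .mul 0 0, .mul 4 0, .mul 26 26,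
  .mul 1 0, .pw 17 (-1), .cj 0 false true, .mul 19 0, .pw 0 (-1), .cj 0 false true, .mul 2 0,
  .pw 0 (-1), .cj 0 false true, .mul 2 0, .cj 2 true true, .mul 4 0, .cj 7 true true, .mul 9 0,
  .pw 0 (-1), .cj 0 false true, .mul 2 0, .cj 2 true true, .mul 4 0, .cj 17 true true, .mul 36 0,
  .pw 0 (-1), .cj 0 false true, .mul 2 0, .pw 0 (-1), .cj 0 false true, .mul 2 0, .cj 2 true true,
  .mul 4 0, .cj 7 true true, .mul 9 0, .pw 0 (-1), .cj 0 false true, .mul 2 0, .cj 2 true true,
  .mul 4 0, .pw 83 (-1), .cj 0 false true, .mul 85 0, .cj 2 true true, .mul 87 0, .pw 0 (-1),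
  .cj 0 false true, .mul 2 0, .cj 2 true true, .mul 4 0, .pw 91 (-1), .cj 0 false true, .mul 93 0,
  .pw 0 (-1), .cj 0 false true, .mul 2 0, .pw 0 (-1), .cj 0 false true, .mul 2 0, .cj 2 true true,
  .mul 4 0, .cj 7 true true, .mul 9 0, .pw 0 (-1), .cj 0 false true, .mul 2 0, .cj 2 true true,
  .mul 4 0, .cj 17 true true, .mul 110 0, .pw 0 (-1), .cj 0 true true, .mul 2 0, .pw 94 (-1),
  .cj 0 false true, .mul 96 0, .pw 0 (-1), .cj 0 false true, .mul 2 0, .pw 0 (-1),
  .cj 0 false true, .mul 2 0, .cj 5 true true, .mul 7 0, .pw 79 (83903441476707127783467),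
  .pw 128 (-530756379488742175736271258), .mul 1 0, .pw 128 (1478999650398849699548343480),
  .mul 1 0, .pw 110 (305328150170708388558878496), .mul 1 0,
  .pw 110 (-303650081341174246003209156), .mul 1 0, .pw 105 (-92725146152097186642938532),
  .mul 1 0, .pw 87 (445943134960294605420233022), .mul 1 0, .pw 72 (-497138477888825836331257116),
  .mul 1 0, .pw 56 (2021154021113300174798019460), .mul 1 0,
  .pw 56 (-4212331718645093625353025088), .mul 1 0, .pw 50 (-1152100455026100848581134800),
  .mul 1 0, .pw 35 (5865469549115359984797712100), .mul 1 0, .pw 96 (442949251799748864770160347),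
  .mul 1 0, .pw 91 (-3949158605514026628048393992), .mul 1 0,
  .pw 90 (20078733855884730563248671884), .mul 1 0, .pw 90 (11496476267540258370093336762),
  .mul 1 0, .pw 87 (3740313936479461801796152316), .mul 1 0,
  .pw 86 (-2829558529920830393720786566), .mul 1 0, .pw 86 (-13703864540876575388386490696),
  .mul 1 0, .pw 86 (-55754226439639975317983414), .mul 1 0,
  .pw 85 (10792577725967570634982740912), .mul 1 0, .pw 85 (-566232613406603155870269644),
  .mul 1 0, .pw 71 (-2852855119200364811615845868), .mul 1 0,
  .pw 68 (266484528631228161443290138948), .mul 1 0, .pw 68 (-23604934712583863811344354536),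
  .mul 1 0, .pw 67 (-249783022500885276198447307024), .mul 1 0,
  .pw 67 (-67418788711547632734472758844), .mul 1 0, .pw 61 (2601006685777920961287477), .mul 1 0,
  .pw 125 (-654097372470304621763258079), .mul 1 0, .pw 125 (-14414598698000597931216740328),
  .mul 1 0, .pw 95 (3663821233485456459614573512), .mul 1 0,
  .pw 95 (18401519085231247187400496086), .mul 1 0, .pw 88 (11056258554087946801235731160),
  .mul 1 0, .pw 76 (6423127717683373842010131308), .mul 1 0,
  .pw 72 (-1951208372858026023423944064), .mul 1 0, .pw 69 (1942818028710355310645597364),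
  .mul 1 0, .pw 73 (-25338839325965552590607034), .mul 1 0]

/-- The program for exponent eight. -/
def progB : List Op := [
  .rel [(false,true)] 3, .rel [(true,true)] 3, .rel [(false,true),(true,true)] 3,
  .rel [(false,true),(true,false)] 3,
  .rel [(false,true),(false,true),(true,false),(true,false)] 3, .rel [(false,false)] 3,
  .cj 0 true true, .mul 6 0, .rel [(true,false)] 3, .cj 0 false true, .mul 8 0, .mul 8 5,
  .mul 0 3, .rel [(true,false),(false,false)] 3, .mul 13 0, .mul 13 0, .cj 0 false true, .mul 4 0,
  .cj 2 true true, .mul 6 0, .mul 16 14, .mul 0 19, .mul 0 9, .rel [(true,true),(false,false)] 3,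
  .mul 23 0, .mul 16 0, .mul 10 0, .cj 0 false true, .mul 5 0, .cj 2 true true, .mul 7 0,
  .mul 25 25, .mul 27 0, .mul 31 31, .mul 1 0, .mul 22 22, .mul 0 0, .mul 2 0, .mul 22 22,
  .mul 0 0, .mul 31 31, .mul 40 40, .rel [(true,true),(true,true),(false,false),(false,false)] 3,
  .mul 1 0, .mul 3 0, .mul 5 0, .cj 0 false true, .mul 9 0, .cj 2 true true, .mul 11 0,
  .mul 42 42, .mul 0 0, .mul 0 0, .mul 0 45, .mul 0 15, .cj 54 true true, .mul 0 50, .mul 0 0,
  .mul 0 0, .mul 0 0, .mul 3 0, .mul 25 0, .cj 0 false true, .mul 8 0, .cj 2 true true, .mul 10 0,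
  .mul 28 28, .mul 0 29, .mul 0 0, .mul 0 31, .mul 15 15, .mul 0 0, .mul 0 0, .mul 0 0, .mul 0 19,
  .mul 0 0, .mul 6 0, .mul 0 0, .mul 0 1, .mul 0 0, .mul 0 3, .mul 0 0, .mul 0 5, .mul 0 0,
  .mul 0 7, .mul 58 58, .mul 0 0, .mul 0 60, .mul 0 0, .mul 0 0, .mul 0 63, .mul 0 0, .mul 0 65,
  .mul 0 0, .mul 0 67, .mul 0 0, .mul 0 69, .mul 0 0, .mul 13 0, .mul 88 88, .mul 0 0, .mul 0 0,
  .mul 0 91, .mul 0 67, .mul 42 42, .mul 1 0, .mul 0 0, .mul 0 1, .mul 0 0, .mul 0 3, .mul 0 0,
  .mul 0 5, .mul 0 0, .mul 0 7, .mul 28 87, .mul 0 0, .mul 0 89, .mul 0 0, .mul 0 91, .mul 0 0,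
  .mul 0 93, .mul 0 0, .mul 0 95, .mul 9 0, .mul 106 106, .mul 0 107, .mul 0 0, .mul 0 109,
  .mul 57 73, .mul 1 0, .mul 0 0, .mul 0 1, .mul 0 0, .mul 0 3, .mul 0 0, .mul 0 5, .mul 0 0,
  .mul 0 7, .mul 115 115, .mul 0 0, .mul 0 117, .mul 0 0, .mul 0 0, .mul 0 120, .mul 0 0,
  .mul 0 0, .mul 8 0, .mul 127 127, .mul 0 128, .mul 0 0, .mul 0 130, .mul 0 0, .mul 0 132,
  .mul 0 0, .mul 0 134, .mul 16 132, .mul 1 0, .tg, .mul 0 0, .mul 0 0, .mul 0 0, .mul 0 3,
  .mul 0 122, .mul 0 0, .mul 0 1, .mul 0 0, .mul 0 3, .mul 95 112, .mul 0 0, .mul 2 0, .mul 0 0,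
  .mul 0 1, .mul 0 0, .mul 0 3, .mul 0 0, .mul 0 5, .mul 0 0, .mul 0 7, .mul 38 38, .mul 0 0,
  .mul 0 157, .mul 0 0, .mul 0 0, .mul 0 0, .mul 0 0, .mul 0 162, .mul 0 0, .mul 9 0, .pw 89 (-1),
  .cj 0 false true, .mul 91 0, .pw 0 (-1), .cj 0 true true, .mul 2 0, .pw 0 (-1),
  .cj 0 false true, .mul 2 0, .cj 2 true true, .mul 4 0, .cj 10 true true, .mul 101 0, .pw 0 (-1),
  .cj 0 false true, .mul 2 0, .pw 0 (-1), .cj 0 false true, .mul 2 0, .cj 2 true true, .mul 4 0,
  .pw 85 (-1), .cj 0 false true, .mul 87 0, .pw 0 (-1), .cj 0 false true, .mul 2 0, .pw 0 (-1),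
  .cj 0 false true, .mul 2 0, .cj 5 true true, .mul 7 0, .cj 10 true true, .mul 97 0, .pw 0 (-1),
  .cj 0 false true, .mul 2 0, .cj 2 true true, .mul 4 0, .pw 80 (-1), .cj 0 false true, .mul 82 0,
  .pw 0 (-1), .cj 0 false true, .mul 2 0, .cj 2 true true, .mul 4 0, .cj 7 true true, .mul 89 0,
  .pw 0 (-1), .cj 0 false true, .mul 2 0, .cj 2 true true, .mul 4 0, .pw 0 (-1), .cj 0 true true,
  .mul 2 0, .pw 88 (-1), .cj 0 false true, .mul 90 0, .pw 0 (-1), .cj 0 false true, .mul 2 0,
  .cj 5 true true, .mul 95 0, .pw 224 (-1), .cj 0 false true, .mul 226 0, .pw 225 (-1),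
  .cj 0 false true, .mul 227 0, .cj 2 true true, .mul 229 0, .pw 0 (-1), .cj 0 true true,
  .mul 2 0,
  .pw 76 (13880283788032753717313010106437109886274637243374989920061439343710796378847190678812170107207),
  .pw 236 (6189004720325215210146985425015760327855413978749892762200040480784662763143881343733861301954979),
  .mul 1 0,
  .pw 236 (113641209450647776972010139179791027784241329782886587212355422044374851351094198023370963365340020),
  .mul 1 0,
  .pw 205 (-31268706986708080962844129509543038087190850774464840031642949933141266654418383828707575959797928),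
  .mul 1 0,
  .pw 205 (-60206214017419688866161300034167329764820943409193530729528039818722219622200357994165495872496845),
  .mul 1 0,
  .pw 149 (45806152848898387208339494675682266939900499765656245551073334847962387784954296143640371003940),
  .mul 1 0,
  .pw 128 (-458377147887173588309479080943939997766405412067352324446754726809158627351627537680726544127816),
  .mul 1 0,
  .pw 120 (4888097677250954576840928337686800878346075494264588045270594028654659302916610559848050536075476),
  .mul 1 0,
  .pw 67 (-906731090269869757308697279835787978414533312891562909098422013326200821802626685484402041096885),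
  .mul 1 0,
  .pw 66 (1306139094425149247441616636944232121997322860038565020625858141842739944790894387789499363523014),
  .mul 1 0,
  .pw 63 (5630936359837555754429702163863079500297295878387508033077063030570607640313953498843563772912926),
  .mul 1 0,
  .pw 63 (613386738729772000949900413577488318097562797070574449680992821178471014685967114355277669985252),
  .mul 1 0,
  .pw 62 (-21421084905041521581186897309216173483266672999439769374789718002874658075304499655908448412149098),
  .mul 1 0,
  .pw 62 (65939755196619001365472870351229514251614477708486213252413964002270345498506651244667570117514790),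
  .mul 1 0,
  .pw 61 (-484040112953061507606745831668557846987013634420336687837408498962542195755676488050834469854270),
  .mul 1 0,
  .pw 60 (1433965095733731242595700580021617013214261722983041598973825825547247757110615839803458727455158),
  .mul 1 0,
  .pw 60 (-5856578733299794223786776084085627837945100707192825634019721736055075487404180449577590885171468),
  .mul 1 0,
  .pw 60 (5638835419280755299028725386055841251498058103604478917970086373783976479909413792675126498253368),
  .mul 1 0,
  .pw 59 (-978500624258807118274591103876430568230160644626821240438532573666170472898625758910598349521418),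
  .mul 1 0,
  .pw 59 (24159332521102149630700172839619071706856169931796160582753768872429042255910827024033818092872276),
  .mul 1 0,
  .pw 50 (-95722985290964703198449697593789549333415345113923257841681905948689778158234456125728112555661538),
  .mul 1 0,
  .pw 49 (137266677287436423350502440838980895417269623763908268398668390641797498330355008733482637059585734),
  .mul 1 0,
  .pw 48 (-1106298318710205041635790058287166202867254122677530802030039591090886770032587919488875274957143920),
  .mul 1 0,
  .pw 48 (994165078205758411977537465064968401826944197608429294872646017566695997317918488605824553580347974),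
  .mul 1 0,
  .pw 263 (1473681193143898413170003092387634221175088519798431311264806141838378887419333288243612944362282),
  .mul 1 0,
  .pw 263 (-26647799277267774390983928795252130182757990171657894687932825803628693983722955746814313641157162),
  .mul 1 0,
  .pw 216 (2317432130540491093821778775601481297338352010928998856040539512286600808443226984924577773725),
  .mul 1 0,
  .pw 123 (44900783305793559357185779310423492003828550923003789049109711897189019486393178648553657690434),
  .mul 1 0,
  .pw 122 (-534069533131208364185252924905912064506014145933283295838314618010105620289526732262251694232932),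
  .mul 1 0,
  .pw 122 (11724212379465155633365017708397824063556069432574028427148451014304946905645882303121580740625535),
  .mul 1 0,
  .pw 119 (-60446947899778783371355333674341831670393709066479200738739289637921033835548623950161512495770),
  .mul 1 0,
  .pw 118 (1227791750150787429899160506527393683190774006312149867944133215585472000939887433496232989313511),
  .mul 1 0,
  .pw 118 (-14060889348756286315322833292635397689441433586960896524206250151874785545807201054969799986924746),
  .mul 1 0,
  .pw 111 (70877201318720973157999152758710317050104730626433903442582555005482445624149190857286137194624),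
  .mul 1 0,
  .pw 86 (34888377994604155143562234583344332422051590183662724321265726121598517619839381422963593693914076),
  .mul 1 0,
  .pw 82 (-27714641684623744413622691563935386019985830688030889917773534765747110918692852239459101967776016),
  .mul 1 0,
  .pw 71 (6217392837832229029398803972430597321970637227392812158057299120032471324164734153384230268957813738),
  .mul 1 0]

lemma okA : start parA (finT 7) progA = true := by decide +kernel

lemma okB : start parB (finT 7) progB = true := by decide +kernel

variable {H : Type*} [Group H]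

/-- The homomorphism sending the generators to `x` and `y`. -/
def pi2 (x y : H) : F →* H := FreeGroup.lift fun b => bif b then y else x

lemma pi2_map (x y : H) (n : ℕ) :
    (Γ F n).map (pi2 x y) = (closure {x, y}).lowerCentralSeries n := by
  rw [Subgroup.map_lowerCentralSeries, ← MonoidHom.range_eq_map, pi2, FreeGroup.range_lift_eq_closure]
  congr 2
  ext z
  simp [eq_comm]

lemma gw_replicate (a : Bool × Bool) (n : ℕ) : gw (List.replicate n a) = gl a ^ n := by
  induction n with
  | zero => simp [gw]
  | succ n ih => rw [List.replicate_succ, gw, ih, pow_succ']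

lemma pi2_cw (x y : H) (n : ℕ) : pi2 x y (gw (cw n)) = ⁅x ^ n, y ^ n⁆ := by
  simp [cw, gw_append, gw_replicate, gl, pi2, commutatorElement_def, mul_assoc]

lemma pi2_D {x y : H} (h : (closure {x, y}).lowerCentralSeries 7 = ⊥) (u : F) (hu : u ∈ D 8) :
    pi2 x y u = 1 := by
  rw [← mem_bot, ← h, ← pi2_map]
  exact mem_map_of_mem _ (D8_le hu)

lemma commA (h2 : IsPGroup 2 H) {x y : H} (h : (closure {x, y}).lowerCentralSeries 7 = ⊥)
    (hx : x ^ 16 = 1) (hy : y ^ 16 = 1) : Commute (x ^ 8) (y ^ 8) := by
  rw [← commutatorElement_eq_one_iff_commute, ← pi2_cw]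
  refine target_sound (P := parA) ⟨by decide, fun w n ok => ?_, by simp [parA]⟩ okA (pi2_D h) (h2 _)
  simp only [parA, Bool.and_eq_true, decide_eq_true_eq] at ok
  obtain ⟨⟨a, s⟩, rfl⟩ := List.length_eq_one_iff.1 ok.1
  cases a <;> cases s <;> simp [ok.2, gw, gl, pi2, hx, hy]

lemma commB {x y : H} (h : (closure {x, y}).lowerCentralSeries 7 = ⊥)
    (h8 : ∀ u : H, u ^ 8 = 1) : Commute (x ^ 4) (y ^ 4) := by
  rw [← commutatorElement_eq_one_iff_commute, ← pi2_cw]
  refine target_sound (P := parB) ⟨by decide, fun w n ok => ?_, by simp [parB]⟩ okB (pi2_D h)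
    ⟨3, h8 _⟩
  rw [of_decide_eq_true ok]
  exact h8 _

/-- A `2`-group in which any two conjugate elements generate a nilpotent group of class at most
seven is locally finite. -/
theorem LF_of_conj (h2 : IsPGroup 2 H)
    (h : ∀ x g : H, (closure {x, g * x * g⁻¹}).lowerCentralSeries 7 = ⊥) : LF (⊤ : Subgroup H) := by
  have hq : ∀ x g : H ⧸ rad H, (closure {x, g * x * g⁻¹}).lowerCentralSeries 7 = ⊥ := by
    intro x g
    obtain ⟨x, rfl⟩ := QuotientGroup.mk'_surjective _ x
    obtain ⟨g, rfl⟩ := QuotientGroup.mk'_surjective _ g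
    have := congrArg (Subgroup.map (QuotientGroup.mk' (rad H))) (h x g)
    rwa [Subgroup.map_lowerCentralSeries, MonoidHom.map_closure, Set.image_pair, map_mul, map_mul,
      map_inv, Subgroup.map_bot] at this
  refine LF_of_quot h2 (fun x g hx => ?_) fun h8 x g => ?_
  · rw [← conj_pow]
    exact commA (h2.to_quotient _) (hq x g) hx (by rw [conj_pow, hx]; simp)
  · rw [← conj_pow]
    exact commB (hq x g) h8

lemma conj_class {x g : H} (h : (closure {x, g}).lowerCentralSeries 8 = ⊥) :
    (closure {x, g * x * g⁻¹}).lowerCentralSeries 7 = ⊥ := by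
  set a : F := .of false
  set b : F := .of true
  have h1 : ⁅closure {a, b * a * b⁻¹}, closure {a, b * a * b⁻¹}⁆ ≤ Γ F 2 := by
    rw [← QuotientGroup.ker_mk' (Γ F 2), ← Subgroup.map_eq_bot_iff, map_commutator,
      commutator_self_eq_bot_iff, MonoidHom.map_closure, Set.image_pair]
    have hc : QuotientGroup.mk' (Γ F 2) a * QuotientGroup.mk' (Γ F 2) (b * a * b⁻¹) =
        QuotientGroup.mk' (Γ F 2) (b * a * b⁻¹) * QuotientGroup.mk' (Γ F 2) a := by
      rw [← commutatorElement_eq_one_iff_mul_comm, ← map_commutatorElement,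
        show ⁅a, b * a * b⁻¹⁆ = ⁅a, ⁅b, a⁆⁆ by simp only [commutatorElement_def]; group]
      exact (QuotientGroup.eq_one_iff _).2
        (comm_mem (mem_zero a) (comm_mem (mem_zero b) (mem_zero a) le_rfl) le_rfl)
    refine isMulCommutative_closure ?_
    rintro _ (rfl | rfl) _ (rfl | rfl)
    exacts [rfl, hc, hc.symm, rfl]
  have h2 : ∀ n, (closure {a, b * a * b⁻¹}).lowerCentralSeries (n + 1) ≤ Γ F (n + 2) := by
    intro n
    induction n with
    | zero => exact h1
    | succ n ih => exact commutator_mono ih le_top
  have h3 := map_mono (f := pi2 x g) (h2 6)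
  rw [pi2_map, h, Subgroup.map_lowerCentralSeries, MonoidHom.map_closure, Set.image_pair,
    le_bot_iff] at h3
  simpa [a, b, pi2] using h3

end Pool.Agent.Lib.MP_3b0e0c_al
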