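import Pool.Agent.Lib.MP_3b0e0c_al.ProgAB

/-! Finite two-generator 5-Engel 2-groups have class at most eight. -/

namespace Pool.Agent.Lib.MP_3b0e0c_al

open Subgroup
open scoped commutatorElement

/-- Parameters for the Engel condition. -/
def parC : Par := ⟨2 ^ 72 + 12345, 9, 5, [], fun _ _ => false, true⟩

/-- The program. -/
def progC : List Op := [
  .eng [(false,true)] [(true,true)], .eng [(true,true)] [(false,true)],
  .eng [(false,false)] [(true,true)], .eng [(true,false)] [(false,true)],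
  .eng [(false,true)] [(false,true),(true,true)], .eng [(true,true)] [(false,true),(true,true)],
  .eng [(false,true),(false,true)] [(true,true)], .eng [(true,true),(true,true)] [(false,true)],
  .eng [(false,true)] [(false,true),(true,false)],
  .eng [(false,false)] [(false,true),(true,false)],
  .eng [(false,false),(false,false)] [(true,true)],
  .eng [(true,false),(true,false)] [(false,true)],
  .eng [(false,true)] [(false,true),(false,true),(true,true)],
  .eng [(false,true)] [(false,true),(true,true),(true,true)],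
  .eng [(true,true)] [(false,true),(false,true),(true,true)],
  .eng [(true,true)] [(false,true),(true,true),(true,true)],
  .eng [(false,true),(false,true)] [(false,true),(true,true)], .mul 14 16, .mul 14 16, .mul 13 14,
  .pw 19 (-2), .mul 14 0, .pw 20 (-2), .mul 15 0, .mul 14 15, .pw 24 (2), .mul 15 0, .pw 25 (2),
  .mul 16 0, .pw 28 (-18), .mul 16 0, .pw 29 (18), .mul 1 0, .pw 28 (-18), .mul 1 0, .pw 26 (-2),
  .mul 1 0, .pw 24 (2), .mul 1 0, .mul 24 1, .pw 39 (9), .mul 25 0, .pw 40 (-9), .mul 1 0,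
  .pw 39 (9), .mul 1 0, .mul 0 37, .pw 34 (-1), .mul 1 0, .pw 44 (-2), .mul 33 0, .pw 50 (-1),
  .cj 0 false true, .mul 52 0, .cj 2 true true, .mul 54 0, .pw 54 (-1), .cj 0 false true,
  .mul 56 0, .cj 2 true true, .mul 58 0, .pw 56 (-1), .cj 0 false true, .mul 58 0,
  .cj 2 true true, .mul 60 0, .pw 57 (-1), .cj 0 false true, .mul 59 0, .cj 2 true true,
  .mul 61 0, .cj 23 false true, .mul 59 0, .cj 25 true true, .mul 61 0, .pw 57 (-1), .mul 54 0,
  .pw 58 (-1), .mul 54 0, .pw 61 (-3), .mul 53 0, .pw 62 (-3), .mul 53 0, .pw 27 (45), .mul 45 0,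
  .pw 26 (-18), .mul 1 0, .pw 68 (-9), .mul 1 0, .pw 35 (54), .mul 1 0, .pw 30 (-90), .mul 1 0,
  .pw 27 (45), .mul 1 0, .pw 24 (15), .mul 1 0, .pw 24 (6), .mul 1 0, .pw 24 (-5), .mul 1 0,
  .pw 45 (-108), .mul 62 0, .pw 85 (-45), .mul 1 0, .pw 86 (36), .mul 1 0, .pw 53 (-153),
  .mul 1 0, .pw 48 (252), .mul 1 0, .pw 91 (-36), .mul 1 0, .pw 49 (18), .mul 1 0, .pw 49 (-108),
  .mul 1 0, .pw 68 (6), .mul 1 0, .pw 94 (-6), .mul 1 0, .pw 50 (-42), .mul 1 0, .pw 50 (-21),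
  .mul 1 0, .pw 50 (12), .mul 1 0, .pw 107 (-1), .mul 77 0, .pw 73 (36), .mul 61 0, .pw 113 (18),
  .mul 1 0, .pw 114 (-18), .mul 1 0, .mul 0 45, .mul 0 44, .pw 117 (9), .mul 1 0, .pw 75 (-9),
  .mul 1 0, .pw 75 (36), .mul 1 0, .pw 94 (-2), .mul 1 0, .pw 120 (3), .mul 1 0, .pw 76 (14),
  .mul 1 0, .pw 76 (8), .mul 1 0, .pw 76 (-4), .mul 1 0, .pw 97 (-1), .cj 0 false true, .mul 99 0,
  .cj 2 true true, .mul 101 0, .pw 99 (-1), .cj 0 false true, .mul 101 0, .cj 2 true true,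
  .mul 103 0, .cj 87 false true, .mul 146 0, .cj 89 true true, .mul 148 0, .cj 89 false true,
  .mul 149 0, .cj 91 true true, .mul 151 0, .pw 117 (-1), .cj 0 false true, .mul 119 0,
  .cj 2 true true, .mul 121 0, .pw 115 (-1), .cj 0 false true, .mul 117 0, .cj 2 true true,
  .mul 119 0, .cj 53 false true, .mul 162 0, .cj 55 true true, .mul 164 0, .pw 121 (-1),
  .cj 0 false true, .mul 123 0, .cj 2 true true, .mul 125 0, .pw 124 (-1), .cj 0 false true,
  .mul 126 0, .cj 2 true true, .mul 128 0, .pw 146 (-1), .cj 0 false true, .mul 148 0,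
  .cj 2 true true, .mul 150 0, .pw 175 (-1), .cj 0 false true, .mul 177 0, .cj 2 true true,
  .mul 179 0, .pw 134 (-1), .cj 0 false true, .mul 136 0, .cj 2 true true, .mul 138 0,
  .pw 137 (-1), .cj 0 false true, .mul 139 0, .cj 2 true true, .mul 141 0, .pw 140 (-1),
  .cj 0 false true, .mul 142 0, .cj 2 true true, .mul 144 0, .mul 139 143, .mul 138 142,
  .pw 19 (705255), .pw 65 (-26754380), .mul 1 0, .pw 64 (-547720), .mul 1 0, .pw 60 (17646496),
  .mul 1 0, .pw 60 (-3814256), .mul 1 0, .pw 154 (1311770), .mul 1 0, .pw 154 (1269550), .mul 1 0,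
  .pw 70 (-908250), .mul 1 0, .pw 66 (491640), .mul 1 0, .pw 63 (-36983206), .mul 1 0,
  .pw 62 (-9135244), .mul 1 0, .pw 62 (6762800), .mul 1 0, .pw 89 (-5939458), .mul 1 0,
  .pw 84 (6364178), .mul 1 0, .pw 75 (-8529050), .mul 1 0, .pw 56 (7658215), .mul 1 0,
  .pw 70 (211629), .mul 1 0, .pw 67 (-5105206), .mul 1 0, .pw 128 (84440), .mul 1 0,
  .pw 66 (5540998), .mul 1 0, .pw 71 (-4865804), .mul 1 0, .pw 65 (642190), .mul 1 0,
  .pw 65 (1047230), .mul 1 0, .pw 114 (-776000), .mul 1 0, .pw 168 (-451330), .mul 1 0,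
  .pw 144 (-409110), .mul 1 0, .pw 63 (-3006865), .mul 1 0, .pw 90 (2855664), .mul 1 0,
  .pw 72 (705255), .pw 120 (-3459410), .mul 1 0, .pw 119 (2156870), .mul 1 0, .pw 115 (5942176),
  .mul 1 0, .pw 115 (-1019396), .mul 1 0, .pw 209 (-121120), .mul 1 0, .pw 209 (-93770), .mul 1 0,
  .pw 125 (2030610), .mul 1 0, .pw 121 (-867720), .mul 1 0, .pw 118 (-5882986), .mul 1 0,
  .pw 117 (1566386), .mul 1 0, .pw 117 (580250), .mul 1 0, .pw 144 (223202), .mul 1 0,
  .pw 139 (5044148), .mul 1 0, .pw 130 (-635780), .mul 1 0, .pw 111 (243250), .mul 1 0,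
  .pw 125 (1085160), .mul 1 0, .pw 122 (-115570), .mul 1 0, .pw 183 (-54700), .mul 1 0,
  .pw 121 (576940), .mul 1 0, .pw 126 (-1143620), .mul 1 0, .pw 120 (-22790), .mul 1 0,
  .pw 120 (56930), .mul 1 0, .pw 169 (16930), .mul 1 0, .pw 223 (49490), .mul 1 0,
  .pw 199 (22140), .mul 1 0, .pw 118 (-342820), .mul 1 0, .pw 145 (1416465), .mul 1 0,
  .pw 124 (235085), .pw 175 (-5974550), .mul 1 0, .pw 174 (-535810), .mul 1 0, .pw 170 (3238074),
  .mul 1 0, .pw 170 (-1692750), .mul 1 0, .pw 264 (349490), .mul 1 0, .pw 264 (345220), .mul 1 0,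
  .pw 180 (-553230), .mul 1 0, .pw 176 (357750), .mul 1 0, .pw 173 (-8011074), .mul 1 0,
  .pw 172 (-2117220), .mul 1 0, .pw 172 (1242560), .mul 1 0, .pw 199 (-1277712), .mul 1 0,
  .pw 194 (471510), .mul 1 0, .pw 185 (-1471640), .mul 1 0, .pw 166 (1697440), .mul 1 0,
  .pw 180 (-184204), .mul 1 0, .pw 177 (-1356194), .mul 1 0, .pw 238 (8540), .mul 1 0,
  .pw 176 (1242647), .mul 1 0, .pw 181 (-1019656), .mul 1 0, .pw 175 (154150), .mul 1 0,
  .pw 175 (250350), .mul 1 0, .pw 224 (-223030), .mul 1 0, .pw 278 (-117920), .mul 1 0,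
  .pw 254 (-113650), .mul 1 0, .pw 173 (-701500), .mul 1 0, .pw 200 (330596), .mul 1 0,
  .pw 174 (235085), .pw 230 (746040), .mul 1 0, .pw 229 (-445080), .mul 1 0, .pw 225 (-3195276),
  .mul 1 0, .pw 225 (1410090), .mul 1 0, .pw 319 (-19770), .mul 1 0, .pw 319 (-73650), .mul 1 0,
  .pw 235 (-334560), .mul 1 0, .pw 231 (107580), .mul 1 0, .pw 228 (3448446), .mul 1 0,
  .pw 227 (-679020), .mul 1 0, .pw 227 (919800), .mul 1 0, .pw 254 (612678), .mul 1 0,
  .pw 249 (208500), .mul 1 0, .pw 240 (-911745), .mul 1 0, .pw 221 (24915), .mul 1 0,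
  .pw 235 (11760), .mul 1 0, .pw 232 (451500), .mul 1 0, .pw 293 (107760), .mul 1 0,
  .pw 231 (122820), .mul 1 0, .pw 236 (290100), .mul 1 0, .pw 230 (-21460), .mul 1 0,
  .pw 230 (-35310), .mul 1 0, .pw 279 (138900), .mul 1 0, .pw 333 (-11370), .mul 1 0,
  .pw 309 (42510), .mul 1 0, .pw 228 (-489405), .mul 1 0, .pw 255 (-138600), .mul 1 0,
  .pw 227 (235085), .pw 285 (5629770), .mul 1 0, .pw 284 (845640), .mul 1 0, .pw 280 (-1709190),
  .mul 1 0, .pw 280 (-17304), .mul 1 0, .pw 374 (-250320), .mul 1 0, .pw 374 (-213360), .mul 1 0,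
  .pw 290 (603330), .mul 1 0, .pw 286 (-645540), .mul 1 0, .pw 283 (6638805), .mul 1 0,
  .pw 282 (1362984), .mul 1 0, .pw 282 (-3009030), .mul 1 0, .pw 309 (755880), .mul 1 0,
  .pw 304 (-1001268), .mul 1 0, .pw 295 (2494590), .mul 1 0, .pw 276 (-807165), .mul 1 0,
  .pw 290 (484512), .mul 1 0, .pw 287 (547272), .mul 1 0, .pw 348 (-73920), .mul 1 0,
  .pw 286 (-581856), .mul 1 0, .pw 291 (385938), .mul 1 0, .pw 285 (-131880), .mul 1 0,
  .pw 285 (-232330), .mul 1 0, .pw 334 (80640), .mul 1 0, .pw 388 (95760), .mul 1 0,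
  .pw 364 (58800), .mul 1 0, .pw 283 (1135215), .mul 1 0, .pw 310 (213822), .mul 1 0,
  .pw 279 (235085), .pw 340 (-26293950), .mul 1 0, .pw 339 (-2085900), .mul 1 0,
  .pw 335 (10153150), .mul 1 0, .pw 335 (-4340006), .mul 1 0, .pw 429 (1516560), .mul 1 0,
  .pw 429 (1396770), .mul 1 0, .pw 345 (-3806730), .mul 1 0, .pw 341 (1563300), .mul 1 0,
  .pw 338 (-31249780), .mul 1 0, .pw 337 (-4958224), .mul 1 0, .pw 337 (7649310), .mul 1 0,
  .pw 364 (-7000435), .mul 1 0, .pw 359 (3394628), .mul 1 0, .pw 350 (-11875890), .mul 1 0,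
  .pw 331 (7899195), .mul 1 0, .pw 345 (-1100168), .mul 1 0, .pw 342 (-4880228), .mul 1 0,
  .pw 403 (239580), .mul 1 0, .pw 341 (3833684), .mul 1 0, .pw 346 (-4277572), .mul 1 0,
  .pw 340 (780060), .mul 1 0, .pw 340 (1076240), .mul 1 0, .pw 389 (-731530), .mul 1 0,
  .pw 443 (-545450), .mul 1 0, .pw 419 (-425660), .mul 1 0, .pw 338 (-4063425), .mul 1 0,
  .pw 365 (1628452), .mul 1 0, .pw 332 (5), .pw 395 (15), .mul 1 0, .pw 388 (-84), .mul 1 0,
  .pw 381 (54), .mul 1 0, .pw 378 (60), .mul 1 0, .pw 405 (-18), .mul 1 0, .pw 368 (-30),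
  .mul 1 0, .pw 355 (-10), .mul 1 0, .pw 409 (-1), .cj 0 false true, .mul 411 0, .cj 2 true true,
  .mul 413 0, .pw 411 (-1), .cj 0 false true, .mul 413 0, .cj 2 true true, .mul 415 0,
  .pw 410 (-1), .cj 0 false true, .mul 412 0, .cj 2 true true, .mul 414 0, .pw 413 (-1),
  .cj 0 false true, .mul 415 0, .cj 2 true true, .mul 417 0, .pw 510 (-1), .cj 0 false true,
  .mul 512 0, .cj 2 true true, .mul 514 0, .pw 513 (-1), .cj 0 false true, .mul 515 0,
  .cj 2 true true, .mul 517 0, .pw 432 (-1), .cj 0 false true, .mul 434 0, .cj 2 true true,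
  .mul 436 0, .pw 431 (-1), .cj 0 false true, .mul 433 0, .cj 2 true true, .mul 435 0,
  .pw 431 (-1), .cj 0 false true, .mul 433 0, .cj 2 true true, .mul 435 0, .pw 433 (-1),
  .cj 0 false true, .mul 435 0, .cj 2 true true, .mul 437 0, .pw 436 (-1), .cj 0 false true,
  .mul 438 0, .cj 2 true true, .mul 440 0, .pw 466 (-1), .cj 0 false true, .mul 468 0,
  .cj 2 true true, .mul 470 0, .pw 464 (-1), .cj 0 false true, .mul 466 0, .cj 2 true true,
  .mul 468 0, .pw 458 (-1), .cj 0 false true, .mul 460 0, .cj 2 true true, .mul 462 0,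
  .pw 442 (-1), .cj 0 false true, .mul 444 0, .cj 2 true true, .mul 446 0, .pw 459 (-1),
  .cj 0 false true, .mul 461 0, .cj 2 true true, .mul 463 0, .pw 459 (-1), .cj 0 false true,
  .mul 461 0, .cj 2 true true, .mul 463 0, .pw 459 (-1), .cj 0 true true, .mul 461 0,
  .pw 465 (-1), .cj 0 false true, .mul 467 0, .cj 2 true true, .mul 469 0, .pw 462 (-1),
  .cj 0 false true, .mul 464 0, .pw 463 (-1), .cj 0 false true, .mul 465 0, .cj 2 true true,
  .mul 467 0, .pw 515 (-1), .cj 0 true true, .mul 517 0, .pw 570 (-1), .cj 0 false true,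
  .mul 572 0, .cj 2 true true, .mul 574 0, .pw 549 (-1), .cj 0 false true, .mul 551 0,
  .cj 2 true true, .mul 553 0, .pw 496 (-1), .cj 0 false true, .mul 498 0, .cj 2 true true,
  .mul 500 0, .mul 86 465, .mul 97 466, .mul 53 467, .mul 10 468, .mul 45 469, .mul 41 470,
  .mul 85 470, .mul 71 471, .mul 97 472, .mul 53 473, .mul 28 474, .mul 145 475, .mul 201 476,
  .mul 257 477, .mul 423 478, .mul 5 129, .mul 5 130, .mul 5 131, .mul 5 132, .mul 29 133,
  .mul 6 134, .mul 6 135, .mul 17 133, .mul 17 134, .mul 118 130, .mul 109 131, .mul 87 132,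
  .mul 103 133, .mul 77 134, .mul 34 135, .mul 32 136, .mul 54 137, .mul 10 138, .mul 72 139,
  .mul 68 140, .mul 63 141, .mul 110 140, .mul 96 141, .mul 154 142, .mul 393 143, .mul 40 144,
  .mul 53 145, .mul 88 146, .mul 69 147, .mul 64 148, .mul 344 149, .mul 77 150, .mul 118 148,
  .mul 104 149, .mul 158 150, .mul 19 151, .mul 9 152, .mul 20 153, .mul 20 154, .mul 20 155,
  .mul 20 156, .mul 20 157, .mul 55 56, .mul 54 57, .mul 43 58, .mul 43 59, .mul 38 60,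
  .mul 21 61, .mul 43 62, .mul 12 63, .mul 22 64, .mul 22 65, .mul 22 66, .mul 47 67, .mul 16 68,
  .mul 16 69, .mul 15 70, .mul 25 71, .mul 16 72, .mul 65 67, .mul 14 68, .mul 14 69, .mul 59 70,
  .mul 93 71, .mul 60 72, .mul 56 73, .mul 15 74, .mul 15 75, .mul 14 76, .mul 14 77, .mul 39 78,
  .mul 15 79, .mul 15 80, .mul 15 81, .mul 15 82, .mul 15 82, .mul 31 83, .mul 15 84, .mul 14 85,
  .mul 13 86, .mul 31 87, .mul 31 88, .mul 15 89, .mul 15 90, .mul 31 91, .mul 14 92, .mul 12 93,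
  .mul 74 77, .mul 74 78, .mul 74 79, .mul 42 80, .mul 9 81, .mul 67 82, .mul 10 83, .mul 10 84,
  .mul 10 85, .mul 10 86, .mul 24 87, .mul 11 88, .mul 24 89, .mul 11 89, .mul 3 90, .mul 62 91,
  .mul 79 81, .mul 43 82, .mul 28 83, .mul 43 84, .mul 42 85, .mul 16 86, .mul 28 87, .mul 16 88,
  .mul 16 89, .mul 16 90, .mul 16 91, .mul 45 92, .mul 43 93, .mul 12 93, .mul 12 94, .mul 12 95,
  .mul 12 96, .mul 41 97, .mul 13 98, .mul 13 99, .mul 13 100, .mul 13 101, .mul 12 102,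
  .mul 12 103, .mul 12 104, .mul 12 105, .mul 30 106, .mul 95 97, .mul 51 98, .mul 30 99,
  .mul 30 100, .mul 3 100, .mul 57 101, .mul 4 102, .mul 101 103, .mul 5 104, .mul 5 105,
  .mul 40 106, .mul 153 98, .mul 98 99, .mul 25 100, .mul 25 101, .mul 25 102, .mul 24 103,
  .mul 10 104, .mul 24 105, .mul 11 106, .mul 22 107, .mul 81 108, .mul 13 109, .mul 13 110,
  .mul 13 111, .mul 12 79, .mul 20 80, .mul 8 81, .mul 32 82, .mul 8 83, .mul 8 84, .mul 8 85,
  .mul 7 86, .mul 297 62, .mul 152 63, .mul 77 64, .mul 20 65, .mul 20 66, .mul 47 67, .mul 78 68,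
  .mul 10 69, .mul 78 70, .mul 11 71, .mul 11 72, .mul 45 73, .mul 12 74, .mul 53 59, .mul 52 60,
  .mul 19 61, .mul 52 62, .mul 6 45, .mul 27 46, .mul 92 40, .mul 16 41, .mul 16 42, .mul 37 43,
  .mul 28 44, .mul 18 45, .mul 38 46, .mul 9 47, .mul 15 48, .mul 9 49, .mul 48 28, .mul 48 29,
  .mul 7 30, .mul 7 31, .mul 26 32, .mul 25 33, .mul 5 33, .mul 5 34, .mul 16 35, .mul 16 36,
  .mul 7 37, .mul 26 38, .mul 26 39, .mul 26 40, .mul 9 41, .mul 36 42, .mul 18 43, .mul 11 44,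
  .mul 98 45, .mul 38 46, .mul 21 47, .mul 83 48, .mul 10 48, .mul 10 49, .mul 10 50, .mul 8 51,
  .mul 7 52, .mul 43 53, .mul 17 334, .mul 11 335, .mul 33 336, .mul 10 337, .mul 32 338,
  .mul 5 339, .mul 332 322, .mul 311 323, .mul 42 324, .mul 12 325, .mul 12 326, .mul 50 327,
  .mul 6 328, .mul 19 329, .mul 315 7, .mul 7 8, .mul 21 9, .mul 21 10, .mul 26 11, .mul 7 12,
  .mul 7 13, .mul 7 14, .mul 311 7, .mul 5 8, .mul 15 9, .mul 38 10, .mul 27 11, .mul 24 12,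
  .mul 8 13, .mul 25 14, .mul 25 15, .mul 94 15, .mul 3 16, .mul 11 17, .mul 2 11, .mul 10 12,
  .mul 10 13, .mul 10 14, .mul 5 15, .mul 11 16, .mul 21 17, .mul 11 18, .mul 21 19, .mul 12 20,
  .mul 62 81, .mul 6 82, .mul 3 83, .mul 13 84, .mul 4 85, .mul 68 70, .mul 40 71, .mul 34 72,
  .mul 28 73, .mul 15 74, .mul 8 75, .mul 15 76, .mul 14 77, .mul 10 78, .mul 82 78, .mul 22 79,
  .mul 58 80, .mul 6 81, .mul 4 82, .mul 62 13, .mul 19 14, .mul 6 15, .mul 4 16, .mul 7 17,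
  .mul 14 18, .mul 12 19, .mul 9 20, .mul 8 21, .mul 84 22, .mul 9 8, .mul 8 9, .mul 7 10,
  .mul 25 11, .mul 25 12, .mul 25 13, .mul 12 14, .mul 11 15, .mul 10 16, .mul 9 17, .mul 27 18,
  .mul 12 19, .mul 44 20, .mul 11 12, .mul 7 13, .mul 2 14, .mul 41 15, .mul 41 16, .mul 1 4,
  .mul 156 4, .mul 58 5, .mul 58 6, .mul 12 7, .mul 7 8, .mul 16 21, .mul 4 22, .mul 22 6,
  .mul 22 7, .mul 22 8, .mul 20 9, .mul 92 10, .mul 20 11, .mul 20 12, .mul 14 13, .mul 16 14,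
  .mul 11 13, .mul 7 9, .mul 9 10, .mul 6 11, .mul 6 12, .mul 43 13, .mul 10 14, .mul 19 4,
  .mul 6 5, .mul 2 6, .mul 9 7, .mul 7 8, .mul 17 2, .mul 7 3, .mul 6 4, .mul 0 2, .mul 5 3,
  .mul 5 4, .mul 9 5, .mul 5 3, .mul 1 4, .mul 22 5, .mul 22 6, .mul 18 7, .mul 7 4, .mul 7 5,
  .mul 5 6, .mul 5 7, .mul 5 8, .mul 5 3, .mul 2 3, .mul 2 4, .mul 2 5, .mul 1 2, .mul 1 0,
  .mul 25 10, .mul 33 20, .mul 45 10, .mul 0 25, .mul 48 3, .mul 0 3, .mul 54 21, .mul 0 26,
  .mul 58 6, .mul 0 31, .mul 77 0, .mul 0 10, .mul 67 2, .mul 82 9, .mul 107 10, .mul 178 11,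
  .mul 180 94, .mul 197 0, .mul 477 146, .mul 496 147]

/-- Positions of the final entries. -/
def selC : List ℕ := [
  509, 499, 350, 148, 349, 156, 1, 862, 248, 140, 147, 390, 0, 391, 307, 863, 12, 29, 10, 14, 35,
  28, 340, 19, 39, 16, 7, 3, 241, 504, 8, 18, 397, 42, 24, 4, 98, 21, 373, 30, 5, 6, 218, 2, 219,
  282, 372, 502, 20, 217, 76, 65, 361, 360, 266, 512]

lemma okC : start parC (finC parC.B parC.C (ds8.map Prod.fst)
    fun m => (((ds8.map Prod.fst).zip selC).lookup m).getD 0) progC = true := by decide +kernel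

variable {H : Type*} [Group H]

lemma map_engel {G : Type*} [Group G] (f : G →* H) (v : G) (n : ℕ) :
    ∀ u, f (engel v n u) = engel (f v) n (f u) := by
  induction n with
  | zero => exact fun _ => rfl
  | succ n ih => intro u; rw [engel, engel, ih, map_commutatorElement]

theorem engel_class (h2 : IsPGroup 2 H) (he : ∀ u v : H, engel v 5 u = 1) {x y : H}
    (hf : (closure {x, y} : Set H).Finite) : (closure {x, y}).lowerCentralSeries 8 = ⊥ := by
  have : Finite (closure {x, y} : Subgroup H) := hf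
  have h3 := h2.to_subgroup (closure {x, y})
  obtain ⟨e, hc⟩ := IsPGroup.iff_card.1 h3
  obtain ⟨n, hn⟩ := (Subgroup.isNilpotent_iff_lowerCentralSeries _).1 h3.isNilpotent
  have hk := finC_sound (P := parC) (π := pi2 x y)
    ⟨by decide, fun w n ok => by simp [parC] at ok, fun _ u v => by rw [map_engel, he]⟩ okC
    (List.forall_mem_map.2 mg8.1)
  have h4 : Γ F 8 ≤ Γ F 9 ⊔ (pi2 x y).ker := by
    refine mg8.nak (by decide +kernel) _ le_sup_left (e := e) (fun u => mem_sup_right ?_)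
      fun a ha => ?_
    · have hu : pi2 x y u ∈ closure {x, y} := by
        have := pi2_map x y 0
        rw [Subgroup.lowerCentralSeries_zero] at this
        exact this ▸ mem_map_of_mem _ (mem_zero u)
      rw [MonoidHom.mem_ker, map_pow, ← hc]
      exact congrArg Subtype.val (pow_card_eq_one' (x := (⟨_, hu⟩ : closure {x, y})))
    · obtain ⟨u, h5, h6, h7⟩ := hk _ (List.mem_map_of_mem ha)
      exact ⟨u, D9_le h5, mem_sup_right h6, fun b hb => h7 _ (List.mem_map_of_mem hb)⟩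
  have h5 := map_mono (f := pi2 x y) h4
  rw [Subgroup.map_sup, (Subgroup.map_eq_bot_iff _).2 le_rfl, sup_bot_eq, pi2_map, pi2_map] at h5
  have h6 : ∀ k, (closure {x, y}).lowerCentralSeries 8 ≤
      (closure {x, y}).lowerCentralSeries (8 + k) := by
    intro k
    induction k with
    | zero => exact le_rfl
    | succ k ih => exact h5.trans (commutator_mono ih le_rfl)
  rw [← le_bot_iff, ← hn]
  exact (h6 n).trans (Subgroup.lowerCentralSeries_antitone _ (by omega))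

end Pool.Agent.Lib.MP_3b0e0c_al
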